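import Pool.Agent.Lib.MP_49c203_an.Basic

/-! # row qc-Ba : Parseval for the fresh vectors `ν`

All the `ν_{p,c}` (`p ∈ J`) are orthonormal (`D.hν1`, `D.hν2`).
`nu_inner2`/`nu_parseval` : expand the inner product of double sums, `inner_sum`, `sum_inner`, `real_inner_smul_left/right`,
`orthonormal_iff_ite`.
`PZ_inner` : `⟪∑∑ t ν, u⟫ = ∑∑ t ζ(u)`.
`ze_PZ` : from `nu_inner2` with a delta; `PZ_sq` : `nu_parseval` with `t = ζ`.
`PZ_pyth` : `⟪u - PZ u, PZ u⟫ = 0`.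
-/

set_option autoImplicit false

namespace QC49

noncomputable section

open scoped RealInnerProductSpace

variable {H : Type*} [NormedAddCommGroup H] [InnerProductSpace ℝ H]

namespace PD

variable (D : PD H)

private theorem Ba_delta (t' : ∀ p, (Fin (D.X p).n → Bool) → ℝ) {p : ℕ} (hp : p ∈ D.J)
    (c : Fin (D.X p).n → Bool) :
    ⟪(D.X p).ν c, ∑ p' ∈ D.J, ∑ c', t' p' c' • (D.X p').ν c'⟫ = t' p c := by
  rw [inner_sum, Finset.sum_eq_single p]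
  · rw [inner_sum, Finset.sum_eq_single c]
    · have h := orthonormal_iff_ite.1 (D.hν1 p hp) c c
      rw [if_pos rfl] at h
      rw [real_inner_smul_right, h, mul_one]
    · intro c' _ hc'
      have h := orthonormal_iff_ite.1 (D.hν1 p hp) c c'
      rw [if_neg (Ne.symm hc')] at h
      rw [real_inner_smul_right, h, mul_zero]
    · intro h; exact absurd (Finset.mem_univ c) h
  · intro p' hp' hne
    rw [inner_sum]
    refine Finset.sum_eq_zero fun c' _ => ?_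
    rw [real_inner_smul_right, D.hν2 p hp p' hp' (Ne.symm hne) c c', mul_zero]
  · intro h; exact absurd hp h

theorem nu_inner2 (t t' : ∀ p, (Fin (D.X p).n → Bool) → ℝ) :
    ⟪∑ p ∈ D.J, ∑ c, t p c • (D.X p).ν c, ∑ p ∈ D.J, ∑ c, t' p c • (D.X p).ν c⟫
      = ∑ p ∈ D.J, ∑ c, t p c * t' p c := by
  rw [sum_inner]
  refine Finset.sum_congr rfl fun p hp => ?_
  rw [sum_inner]
  refine Finset.sum_congr rfl fun c _ => ?_
  rw [real_inner_smul_left, D.Ba_delta t' hp c]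

theorem nu_parseval (t : ∀ p, (Fin (D.X p).n → Bool) → ℝ) :
    ‖∑ p ∈ D.J, ∑ c, t p c • (D.X p).ν c‖ ^ 2 = ∑ p ∈ D.J, ∑ c, t p c ^ 2 := by
  rw [← real_inner_self_eq_norm_sq, D.nu_inner2]
  exact Finset.sum_congr rfl fun p _ => Finset.sum_congr rfl fun c _ => by ring

theorem nu_inner (t : ∀ p, (Fin (D.X p).n → Bool) → ℝ) (u : H) :
    ⟪∑ p ∈ D.J, ∑ c, t p c • (D.X p).ν c, u⟫ = ∑ p ∈ D.J, ∑ c, t p c * D.ze p c u := by
  rw [sum_inner]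
  refine Finset.sum_congr rfl fun p _ => ?_
  rw [sum_inner]
  refine Finset.sum_congr rfl fun c _ => ?_
  rw [real_inner_smul_left]
  rfl

theorem PZ_sq (u : H) : ‖D.PZ u‖ ^ 2 = ∑ p ∈ D.J, D.zz p u := by
  unfold PZ zz
  exact D.nu_parseval (fun p c => D.ze p c u)

theorem zz_nonneg (p : ℕ) (u : H) : 0 ≤ D.zz p u := by
  unfold zz
  exact Finset.sum_nonneg fun c _ => sq_nonneg _

theorem zz_le {p : ℕ} (hp : p ∈ D.J) (u : H) : D.zz p u ≤ ‖D.PZ u‖ ^ 2 := by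
  rw [D.PZ_sq]
  exact Finset.single_le_sum (f := fun p => D.zz p u) (fun p _ => D.zz_nonneg p u) hp

theorem ze_PZ {p : ℕ} (hp : p ∈ D.J) (c : Fin (D.X p).n → Bool) (u : H) :
    D.ze p c (D.PZ u) = D.ze p c u := by
  show ⟪(D.X p).ν c, D.PZ u⟫ = D.ze p c u
  unfold PZ
  exact D.Ba_delta (fun p c => D.ze p c u) hp c

theorem ze_sub_PZ {p : ℕ} (hp : p ∈ D.J) (c : Fin (D.X p).n → Bool) (u : H) :
    D.ze p c (u - D.PZ u) = 0 := by
  have h := D.ze_PZ hp c u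
  show ⟪(D.X p).ν c, u - D.PZ u⟫ = 0
  rw [inner_sub_right]
  exact sub_eq_zero.2 h.symm

theorem inner_sub_PZ (u : H) : ⟪u - D.PZ u, D.PZ u⟫ = 0 := by
  rw [real_inner_comm]
  have h := D.nu_inner (fun p c => D.ze p c u) (u - D.PZ u)
  show ⟪D.PZ u, u - D.PZ u⟫ = 0
  have h2 : ⟪D.PZ u, u - D.PZ u⟫ = ∑ p ∈ D.J, ∑ c, D.ze p c u * D.ze p c (u - D.PZ u) := h
  rw [h2]
  refine Finset.sum_eq_zero fun p hp => Finset.sum_eq_zero fun c _ => ?_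
  rw [D.ze_sub_PZ hp, mul_zero]

theorem PZ_pyth (u : H) : ‖u‖ ^ 2 = ‖u - D.PZ u‖ ^ 2 + ‖D.PZ u‖ ^ 2 := by
  have h := D.inner_sub_PZ u
  have h2 : ‖(u - D.PZ u) + D.PZ u‖ ^ 2 = ‖u - D.PZ u‖ ^ 2 + 2 * ⟪u - D.PZ u, D.PZ u⟫
      + ‖D.PZ u‖ ^ 2 := norm_add_sq_real _ _
  rw [h, sub_add_cancel] at h2
  linarith

theorem PZ_le (u : H) : ‖D.PZ u‖ ≤ ‖u‖ := by
  have h := D.PZ_pyth u
  have h1 := sq_nonneg ‖u - D.PZ u‖
  exact (sq_le_sq₀ (norm_nonneg _) (norm_nonneg _)).1 (by linarith)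

theorem sub_PZ_le (u : H) : ‖u - D.PZ u‖ ≤ ‖u‖ := by
  have h := D.PZ_pyth u
  have h1 := sq_nonneg ‖D.PZ u‖
  exact (sq_le_sq₀ (norm_nonneg _) (norm_nonneg _)).1 (by linarith)

theorem K_PZ_le (u : H) : ‖D.K (D.PZ u)‖ ≤ D.η * ‖D.PZ u‖ :=
  D.hKZ (fun p c => D.ze p c u)

private theorem Ba_nZ (u : H) : D.nZ u =
    ∑ p ∈ D.J, ∑ c, (-(D.a * D.d p c * D.q p c u)) • (D.X p).ν c := by
  unfold nZ
  rw [← Finset.sum_neg_distrib]
  refine Finset.sum_congr rfl fun p _ => ?_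
  rw [← Finset.sum_neg_distrib]
  exact Finset.sum_congr rfl fun c _ => (neg_smul _ _).symm

theorem nZ_sq (u : H) : ‖D.nZ u‖ ^ 2 = ∑ p ∈ D.J, ∑ c, (D.a * D.d p c * D.q p c u) ^ 2 := by
  rw [D.Ba_nZ, D.nu_parseval (fun p c => -(D.a * D.d p c * D.q p c u))]
  exact Finset.sum_congr rfl fun p _ => Finset.sum_congr rfl fun c _ => by ring

theorem K_nZ_le (u : H) : ‖D.K (D.nZ u)‖ ≤ D.η * ‖D.nZ u‖ := by
  rw [D.Ba_nZ]
  exact D.hKZ (fun p c => -(D.a * D.d p c * D.q p c u))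

end PD

end

end QC49
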