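import Pool.Agent.Lib.MP_49c203_an.B.Sg

/-! # row qc-Bb : basic facts on `v`, `b`, `θ`, `q`, `d`, `z`

`yy_bessel` : `Orthonormal.sum_inner_products_le` (real inner symmetric) or `Kp`, `Pr` expansions.
`Pr_sq` : `‖Pr u‖² = ∑ yy²`.  `Pr` is the orthogonal projection on the span of the `v i`: `‖u - Pr u‖² = ‖u‖² - ∑ yy²`.
`b_eq` : unfold `Bv`, `sum_inner`.  `sum_b_sq` : `b_eq` and `sum_sg_col` with `y i = kap i * yy i`.
`th_sq` : `Real.sq_sqrt`.  `th_b_sq` : `θ² ∑ b² = θ² 2^n ∑ kap² yy² ≤ (s/a)(8/7) ∑ yy² ≤ (8/7)(s/a)‖u‖²`, using `kap_sq_le`.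
`q_norm` : Minkowski: `√(∑ (ζ+θb)²) ≤ √(∑ζ²) + √(∑ θ² b²)` and `√(8/7) ≤ 107/100`.
`sum_rr_sq` : `rr p κ c u = ∑ i, sg (c i) * (κ i / kap i * yy i u)`, so `∑ c, rr² = 2^n ∑ i, (κ_i/kap_i)² yy_i²`.
`z_abs_le` : `z = α²/2 - d²`, `d² ≤ α²`, so `-α²/2 ≤ z ≤ α²/2`.
`avg_d_z` : `avg (d²) + avg z = α²/2`.
-/

set_option autoImplicit false

namespace QC49

noncomputable section

open scoped RealInnerProductSpace

variable {H : Type*} [NormedAddCommGroup H] [InnerProductSpace ℝ H]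

namespace PD

variable (D : PD H)

theorem Bb_Pr_apply (p : ℕ) (u : H) : (D.X p).Pr u = ∑ i, D.yy p i u • (D.X p).v i := by
  unfold Pk.Pr
  rw [_root_.sum_apply]
  rfl

theorem Bb_mink {ι : Type*} [Fintype ι] (f g : ι → ℝ) :
    √(∑ c, (f c + g c) ^ 2) ≤ √(∑ c, f c ^ 2) + √(∑ c, g c ^ 2) := by
  have h := norm_add_le (WithLp.toLp 2 f : EuclideanSpace ℝ ι) (WithLp.toLp 2 g)
  rw [EuclideanSpace.norm_eq, EuclideanSpace.norm_eq, EuclideanSpace.norm_eq] at h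
  simpa [Real.norm_eq_abs, sq_abs] using h

theorem yy_bessel {p : ℕ} (hp : p ∈ D.J) (u : H) : ∑ i, D.yy p i u ^ 2 ≤ ‖u‖ ^ 2 := by
  have h := (D.hv p hp).sum_inner_products_le u (s := Finset.univ)
  have h2 : ∑ i, D.yy p i u ^ 2 = ∑ i, ‖⟪(D.X p).v i, u⟫‖ ^ 2 := by
    refine Finset.sum_congr rfl fun i _ => ?_
    rw [Real.norm_eq_abs, sq_abs]
    rfl
  rw [h2]
  exact h

theorem v_sum_sq {p : ℕ} (hp : p ∈ D.J) (t : Fin (D.X p).n → ℝ) :
    ‖∑ i, t i • (D.X p).v i‖ ^ 2 = ∑ i, t i ^ 2 := by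
  have h := (D.hv p hp).inner_sum t t Finset.univ
  rw [real_inner_self_eq_norm_sq] at h
  rw [h]
  refine Finset.sum_congr rfl fun i _ => ?_
  simp only [conj_trivial]
  ring

theorem Pr_sq {p : ℕ} (hp : p ∈ D.J) (u : H) : ‖(D.X p).Pr u‖ ^ 2 = ∑ i, D.yy p i u ^ 2 := by
  rw [Bb_Pr_apply, D.v_sum_sq hp]

theorem sub_Pr_sq {p : ℕ} (hp : p ∈ D.J) (u : H) :
    ‖u - (D.X p).Pr u‖ ^ 2 = ‖u‖ ^ 2 - ∑ i, D.yy p i u ^ 2 := by
  have h1 := norm_sub_sq_real u ((D.X p).Pr u)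
  have h2 : ⟪u, (D.X p).Pr u⟫ = ∑ i, D.yy p i u ^ 2 := by
    rw [Bb_Pr_apply, inner_sum]
    refine Finset.sum_congr rfl fun i _ => ?_
    rw [real_inner_smul_right, real_inner_comm]
    change D.yy p i u * D.yy p i u = _
    ring
  rw [h1, h2, D.Pr_sq hp]
  ring

theorem Kp_apply (p : ℕ) (u : H) : (D.X p).Kp u = ∑ i, (D.X p).k i • D.yy p i u • (D.X p).v i := by
  unfold Pk.Kp
  rw [_root_.sum_apply]
  rfl

theorem Kp_form (p : ℕ) (u : H) : ⟪(D.X p).Kp u, u⟫ = D.dg p (D.X p).k u := by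
  rw [D.Kp_apply, sum_inner]
  unfold dg
  refine Finset.sum_congr rfl fun i _ => ?_
  rw [real_inner_smul_left, real_inner_smul_left]
  change (D.X p).k i * (D.yy p i u * D.yy p i u) = _
  ring

theorem Kp_symm (p : ℕ) (u v : H) : ⟪(D.X p).Kp u, v⟫ = ⟪u, (D.X p).Kp v⟫ := by
  rw [D.Kp_apply, D.Kp_apply, sum_inner, inner_sum]
  refine Finset.sum_congr rfl fun i _ => ?_
  rw [real_inner_smul_left, real_inner_smul_left, real_inner_smul_right, real_inner_smul_right,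
    real_inner_comm ((D.X p).v i) u]
  change (D.X p).k i * (D.yy p i u * D.yy p i v) = (D.X p).k i * (D.yy p i v * D.yy p i u)
  ring

theorem Kp_v {p : ℕ} (hp : p ∈ D.J) (i : Fin (D.X p).n) :
    (D.X p).Kp ((D.X p).v i) = (D.X p).k i • (D.X p).v i := by
  rw [D.Kp_apply]
  rw [Finset.sum_eq_single i]
  · have h : D.yy p i ((D.X p).v i) = 1 := by
      have := (orthonormal_iff_ite.1 (D.hv p hp)) i i
      rw [if_pos rfl] at this
      exact this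
    rw [h, one_smul]
  · intro j _ hj
    have h : D.yy p j ((D.X p).v i) = 0 := by
      have := (orthonormal_iff_ite.1 (D.hv p hp)) j i
      rw [if_neg hj] at this
      exact this
    rw [h, zero_smul, smul_zero]
  · intro h
    exact absurd (Finset.mem_univ i) h

theorem Kp_nu {p : ℕ} (hp : p ∈ D.J) (c : Fin (D.X p).n → Bool) : (D.X p).Kp ((D.X p).ν c) = 0 := by
  rw [D.Kp_apply]
  refine Finset.sum_eq_zero fun i _ => ?_
  have h : D.yy p i ((D.X p).ν c) = 0 := by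
    change ⟪(D.X p).v i, (D.X p).ν c⟫ = 0
    rw [real_inner_comm]
    exact D.hνv p hp c i
  rw [h, zero_smul, smul_zero]

theorem b_eq (p : ℕ) (c : Fin (D.X p).n → Bool) (u : H) :
    D.b p c u = ∑ i, sg (c i) * ((D.X p).kap i * D.yy p i u) := by
  unfold b Pk.Bv
  rw [sum_inner]
  refine Finset.sum_congr rfl fun i _ => ?_
  rw [real_inner_smul_left]
  change _ * D.yy p i u = _
  ring

theorem sum_b_sq (p : ℕ) (u : H) :
    ∑ c, D.b p c u ^ 2 = 2 ^ (D.X p).n * ∑ i, (D.X p).kap i ^ 2 * D.yy p i u ^ 2 := by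
  have h := sum_sg_col (fun i => (D.X p).kap i * D.yy p i u)
  have h2 : ∑ c, D.b p c u ^ 2 = ∑ c : Fin (D.X p).n → Bool, (∑ i, sg (c i) * ((D.X p).kap i * D.yy p i u)) ^ 2 :=
    Finset.sum_congr rfl fun c _ => by rw [D.b_eq]
  rw [h2, h]
  congr 1
  exact Finset.sum_congr rfl fun i _ => by ring

theorem th_nonneg (p : ℕ) : 0 ≤ (D.X p).th D.a := Real.sqrt_nonneg _

theorem th_sq {p : ℕ} (hp : p ∈ D.J) :
    (D.X p).th D.a ^ 2 * (D.a * 2 ^ (D.X p).n) = (D.X p).s := by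
  unfold Pk.th
  have h1 := D.hs p hp
  have h2 := D.ha
  have h3 : (0 : ℝ) < D.a * 2 ^ (D.X p).n := by positivity
  rw [Real.sq_sqrt (by positivity)]
  exact div_mul_cancel₀ _ h3.ne'

theorem th_b_sq {p : ℕ} (hp : p ∈ D.J) (u : H) :
    (D.X p).th D.a ^ 2 * ∑ c, D.b p c u ^ 2 ≤ 8 / 7 * ((D.X p).s / D.a) * ‖u‖ ^ 2 := by
  have h1 := D.hs p hp
  have h2 := D.ha
  have h3 : (D.X p).th D.a ^ 2 * 2 ^ (D.X p).n = (D.X p).s / D.a := by
    rw [eq_div_iff h2.ne', ← D.th_sq hp]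
    ring
  rw [D.sum_b_sq, ← mul_assoc, h3]
  have h4 : ∑ i, (D.X p).kap i ^ 2 * D.yy p i u ^ 2 ≤ 8 / 7 * ‖u‖ ^ 2 := by
    calc ∑ i, (D.X p).kap i ^ 2 * D.yy p i u ^ 2 ≤ ∑ i, 8 / 7 * D.yy p i u ^ 2 :=
          Finset.sum_le_sum fun i _ => mul_le_mul_of_nonneg_right (D.kap_sq_le hp i) (sq_nonneg _)
      _ = 8 / 7 * ∑ i, D.yy p i u ^ 2 := by rw [Finset.mul_sum]
      _ ≤ 8 / 7 * ‖u‖ ^ 2 := mul_le_mul_of_nonneg_left (D.yy_bessel hp u) (by norm_num)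
  have h5 : 0 ≤ (D.X p).s / D.a := by positivity
  have h6 := mul_le_mul_of_nonneg_left h4 h5
  linarith

theorem q_eq (p : ℕ) (c : Fin (D.X p).n → Bool) (u : H) :
    D.q p c u = D.ze p c u + (D.X p).th D.a * D.b p c u := by
  unfold q Pk.qv
  rw [inner_add_left, real_inner_smul_left]
  rfl

theorem q_norm {p : ℕ} (hp : p ∈ D.J) (u : H) :
    √(∑ c, D.q p c u ^ 2) ≤ √(D.zz p u) + 107 / 100 * √((D.X p).s / D.a) * ‖u‖ := by
  have h1 := D.hs p hp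
  have h2 := D.ha
  have h3 := Bb_mink (fun c => D.ze p c u) (fun c => (D.X p).th D.a * D.b p c u)
  have h4 : ∑ c, D.q p c u ^ 2 = ∑ c, (D.ze p c u + (D.X p).th D.a * D.b p c u) ^ 2 :=
    Finset.sum_congr rfl fun c _ => by rw [D.q_eq]
  have h5 : √(∑ c, ((D.X p).th D.a * D.b p c u) ^ 2) ≤ 107 / 100 * √((D.X p).s / D.a) * ‖u‖ := by
    apply Real.sqrt_le_iff.2
    refine ⟨by positivity, ?_⟩
    have h6 : ∑ c, ((D.X p).th D.a * D.b p c u) ^ 2 = (D.X p).th D.a ^ 2 * ∑ c, D.b p c u ^ 2 := by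
      rw [Finset.mul_sum]
      exact Finset.sum_congr rfl fun c _ => by ring
    rw [h6]
    refine (D.th_b_sq hp u).trans ?_
    have h7 : 0 ≤ (D.X p).s / D.a := by positivity
    have h8 : (107 / 100 * √((D.X p).s / D.a) * ‖u‖) ^ 2
        = (107 / 100) ^ 2 * ((D.X p).s / D.a) * ‖u‖ ^ 2 := by
      rw [mul_pow, mul_pow, Real.sq_sqrt h7]
    rw [h8]
    have h9 : 0 ≤ ((D.X p).s / D.a) * ‖u‖ ^ 2 := by positivity
    nlinarith
  rw [h4]
  refine h3.trans ?_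
  have h10 : ∑ c, (D.ze p c u) ^ 2 = D.zz p u := rfl
  rw [h10]
  linarith

theorem sum_rr_sq (p : ℕ) (κ : Fin (D.X p).n → ℝ) (u : H) :
    ∑ c, D.rr p κ c u ^ 2 = 2 ^ (D.X p).n * ∑ i, (κ i / (D.X p).kap i) ^ 2 * D.yy p i u ^ 2 := by
  have h := sum_sg_col (fun i => κ i / (D.X p).kap i * D.yy p i u)
  have h2 : ∑ c, D.rr p κ c u ^ 2
      = ∑ c : Fin (D.X p).n → Bool, (∑ i, sg (c i) * (κ i / (D.X p).kap i * D.yy p i u)) ^ 2 := by
    refine Finset.sum_congr rfl fun c _ => ?_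
    unfold rr
    congr 1
    exact Finset.sum_congr rfl fun i _ => by ring
  rw [h2, h]
  congr 1
  exact Finset.sum_congr rfl fun i _ => by ring

theorem d_abs_le {p : ℕ} (hp : p ∈ D.J) (c : Fin (D.X p).n → Bool) : |D.d p c| ≤ D.al p := by
  unfold d
  rw [abs_mul, abs_of_pos (D.hal p hp)]
  have h1 := D.hsl p hp c
  have h2 := D.hal p hp
  nlinarith

theorem d_sq_le {p : ℕ} (hp : p ∈ D.J) (c : Fin (D.X p).n → Bool) : D.d p c ^ 2 ≤ D.al p ^ 2 := by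
  have h1 := D.d_abs_le hp c
  rw [← sq_abs (D.d p c)]
  exact pow_le_pow_left₀ (abs_nonneg _) h1 2

theorem z_abs_le {p : ℕ} (hp : p ∈ D.J) (c : Fin (D.X p).n → Bool) : |D.z p c| ≤ D.al p ^ 2 / 2 := by
  have h1 := D.d_sq_le hp c
  have h2 := sq_nonneg (D.d p c)
  change |D.al p ^ 2 / 2 - D.d p c ^ 2| ≤ _
  rw [abs_le]
  constructor <;> linarith

theorem z_eq (p : ℕ) (c : Fin (D.X p).n → Bool) : D.z p c = D.al p ^ 2 / 2 - D.d p c ^ 2 := rfl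

theorem avg_d_z (p : ℕ) :
    avg (fun c => D.d p c ^ 2) + avg (fun c => D.z p c) = D.al p ^ 2 / 2 := by
  have h1 : ∀ c, D.z p c = D.al p ^ 2 / 2 - D.d p c ^ 2 := fun c => rfl
  unfold avg
  rw [← add_div, ← Finset.sum_add_distrib]
  have h2 : ∑ c : Fin (D.X p).n → Bool, (D.d p c ^ 2 + D.z p c) = 2 ^ (D.X p).n * (D.al p ^ 2 / 2) := by
    have h3 : ∀ c ∈ (Finset.univ : Finset (Fin (D.X p).n → Bool)), D.d p c ^ 2 + D.z p c = D.al p ^ 2 / 2 := by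
      intro c _
      rw [h1]
      ring
    rw [Finset.sum_congr rfl h3, Finset.sum_const, nsmul_eq_mul]
    congr 1
    simp
  rw [h2]
  have h4 : (2 : ℝ) ^ (D.X p).n ≠ 0 := by positivity
  field_simp

/-- `|2d - a z| ≤ (2 + a/2) α` -/
theorem dz_abs_le {p : ℕ} (hp : p ∈ D.J) (c : Fin (D.X p).n → Bool) :
    |2 * D.d p c - D.a * D.z p c| ≤ 20005 / 10000 * D.al p := by
  have h1 := D.d_abs_le hp c
  have h2 := D.z_abs_le hp c
  have h3 := D.ha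
  have h4 := D.ha'
  have h5 := D.hal p hp
  have h6 := D.hal' p hp
  have h7 : |D.a * D.z p c| ≤ 5 / 10000 * D.al p := by
    rw [abs_mul, abs_of_pos h3]
    have h8 : D.al p ^ 2 ≤ D.al p := by nlinarith
    have h9 : |D.z p c| ≤ D.al p / 2 := by linarith
    have h10 : D.a * |D.z p c| ≤ 1 / 1000 * (D.al p / 2) :=
      mul_le_mul h4 h9 (abs_nonneg _) (by norm_num)
    linarith
  have h11 : |2 * D.d p c - D.a * D.z p c| ≤ |2 * D.d p c| + |D.a * D.z p c| := abs_sub _ _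
  have h12 : |2 * D.d p c| = 2 * |D.d p c| := by rw [abs_mul]; norm_num
  linarith

end PD

end

end QC49
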