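import Pool.Agent.Lib.MP_49c203_an.B.Ba
import Pool.Agent.Lib.MP_49c203_an.B.Bb

/-! # row qc-Bc : the size of `n_Z`

`nZ_sq_le` : by `nZ_sq`, `q_eq` and `(x+y)² ≤ 2x²+2y²`, `d² ≤ α² ≤ 1`:
 `‖nZ‖² = ∑∑ a²d²q² ≤ ∑ 2a² ∑_c ζ² + ∑ 2a²α² θ² ∑_c b² ≤ 2a² ‖PZ u‖² + ∑ 2a²α² (8/7)(s/a) ‖u‖² = 2a²‖PZ u‖² + (16/7) g2 ‖u‖²`.
`nZ_le` : square root: `√(x²+y²) ≤ x + y`, `√2 ≤ 3/2`, `√(16/7) ≤ 8/5`.
-/

set_option autoImplicit false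

namespace QC49

noncomputable section

open scoped RealInnerProductSpace

variable {H : Type*} [NormedAddCommGroup H] [InnerProductSpace ℝ H]

namespace PD

variable (D : PD H)

theorem nZ_sq_le (u : H) :
    ‖D.nZ u‖ ^ 2 ≤ 2 * D.a ^ 2 * ‖D.PZ u‖ ^ 2 + 16 / 7 * D.g2 * ‖u‖ ^ 2 := by
  have ha := D.ha
  rw [D.nZ_sq, D.PZ_sq, g2, Finset.mul_sum, Finset.mul_sum, Finset.sum_mul,
    ← Finset.sum_add_distrib]
  apply Finset.sum_le_sum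
  intro p hp
  have hal := D.hal p hp
  have hal' := D.hal' p hp
  have hb := D.th_b_sq hp u
  have h1 : ∀ c, (D.a * D.d p c * D.q p c u) ^ 2
      ≤ 2 * D.a ^ 2 * D.ze p c u ^ 2
        + 2 * D.a ^ 2 * D.al p ^ 2 * ((D.X p).th D.a ^ 2 * D.b p c u ^ 2) := by
    intro c
    have hd := D.d_sq_le hp c
    have hal1 : D.al p ^ 2 ≤ 1 := by nlinarith
    have hq : D.q p c u ^ 2 ≤ 2 * D.ze p c u ^ 2 + 2 * ((D.X p).th D.a ^ 2 * D.b p c u ^ 2) := by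
      rw [D.q_eq]
      nlinarith [sq_nonneg (D.ze p c u - (D.X p).th D.a * D.b p c u)]
    have h2 : (D.a * D.d p c * D.q p c u) ^ 2 = D.a ^ 2 * D.d p c ^ 2 * D.q p c u ^ 2 := by ring
    have h3 : D.d p c ^ 2 * D.q p c u ^ 2 ≤ D.al p ^ 2
        * (2 * D.ze p c u ^ 2 + 2 * ((D.X p).th D.a ^ 2 * D.b p c u ^ 2)) :=
      mul_le_mul hd hq (sq_nonneg _) (sq_nonneg _)
    have h4 : D.al p ^ 2 * D.ze p c u ^ 2 ≤ 1 * D.ze p c u ^ 2 :=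
      mul_le_mul_of_nonneg_right hal1 (sq_nonneg _)
    have h5 : D.d p c ^ 2 * D.q p c u ^ 2 ≤ 2 * D.ze p c u ^ 2
        + 2 * D.al p ^ 2 * ((D.X p).th D.a ^ 2 * D.b p c u ^ 2) := by nlinarith
    have h6 := mul_le_mul_of_nonneg_left h5 (sq_nonneg D.a)
    rw [h2]
    nlinarith
  have h2 : ∑ c, (D.a * D.d p c * D.q p c u) ^ 2
      ≤ 2 * D.a ^ 2 * D.zz p u
        + 2 * D.a ^ 2 * D.al p ^ 2 * ((D.X p).th D.a ^ 2 * ∑ c, D.b p c u ^ 2) := by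
    refine (Finset.sum_le_sum fun c _ => h1 c).trans ?_
    rw [Finset.sum_add_distrib, ← Finset.mul_sum, ← Finset.mul_sum, ← Finset.mul_sum]
    exact le_rfl
  refine h2.trans ?_
  have h3 : 2 * D.a ^ 2 * D.al p ^ 2 * ((D.X p).th D.a ^ 2 * ∑ c, D.b p c u ^ 2)
      ≤ 2 * D.a ^ 2 * D.al p ^ 2 * (8 / 7 * ((D.X p).s / D.a) * ‖u‖ ^ 2) :=
    mul_le_mul_of_nonneg_left hb (by positivity)
  have h4 : 2 * D.a ^ 2 * D.al p ^ 2 * (8 / 7 * ((D.X p).s / D.a) * ‖u‖ ^ 2)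
      = 16 / 7 * (D.a * (D.X p).s * D.al p ^ 2) * ‖u‖ ^ 2 := by
    have := ha.ne'
    field_simp
    ring
  linarith

theorem nZ_le (u : H) :
    ‖D.nZ u‖ ≤ 3 / 2 * D.a * ‖D.PZ u‖ + 8 / 5 * √D.g2 * ‖u‖ := by
  have ha := D.ha
  have hg := D.g2_pos
  have hs : √D.g2 ^ 2 = D.g2 := Real.sq_sqrt hg.le
  have h1 := D.nZ_sq_le u
  have hP := norm_nonneg (D.PZ u)
  have hu := norm_nonneg u
  have hsg := Real.sqrt_nonneg D.g2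
  apply le_of_sq_le_sq _ (by positivity)
  have hx : 0 ≤ D.a * ‖D.PZ u‖ * (√D.g2 * ‖u‖) := by positivity
  have h2 : D.g2 * ‖u‖ ^ 2 = (√D.g2 * ‖u‖) ^ 2 := by rw [mul_pow, hs]
  have h3 : 16 / 7 * D.g2 * ‖u‖ ^ 2 = 16 / 7 * (√D.g2 * ‖u‖) ^ 2 := by rw [← h2]; ring
  rw [h3] at h1
  have e1 := sq_nonneg (D.a * ‖D.PZ u‖)
  have e2 := sq_nonneg (√D.g2 * ‖u‖)
  nlinarith

end PD

end

end QC49
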