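import Pool.Agent.Lib.MP_49c203_an.B.Bb

/-! # row qc-Bd : the size of `n_{A,p}`

Write `θ = (D.X p).th D.a`, `α = D.al p`, `s = (D.X p).s`, `Q = √(∑_c q_c²)`.
`n_{A,p} = aθ ∑_i kap_i⁻¹ (∑_c sg(c i) d_c q_c) v_i - τa²θ ∑_i (k_i/((1+k_i)kap_i)) (∑_c sg(c i) z_c q_c) v_i`  (unfold `Bp`, `Rv`, swap the sums).
By `v_sum_sq`, `kap⁻¹ ≤ 1.0802` and `sum_sg_row` with `w_c = d_c q_c`: norm of the first part
 `≤ aθ · 1.0802 · √(2^n ∑ d²q²) ≤ 1.0802 · (aθ√(2^n)) · α · Q = 1.0802 √(a s) α Q`   (`th_sq` gives `(aθ)² 2^n = a s`).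
Second part: `|k/((1+k)kap)| ≤ (1/7)(7/6)(1.0802) ≤ 0.19`, `|z| ≤ α²/2 ≤ α/2`:  `≤ τ a · 0.19 · √(a s) · (α/2) · Q ≤ 0.0001 √(a s) α Q`.
Sum `≤ 1.0803 √(a s) α Q` and `Q ≤ √zz + 1.07 √(s/a) ‖u‖` (`q_norm`), `√(a s) √(s/a) = s`, `1.0803·1.07 ≤ 1.17`.
-/

set_option autoImplicit false

namespace QC49

noncomputable section

open scoped RealInnerProductSpace

theorem Bd_bound {n : ℕ} (coef : Fin n → ℝ) (w : (Fin n → Bool) → ℝ) (C : ℝ)
    (hC : ∀ i, |coef i| ≤ C) :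
    ∑ i, (coef i * ∑ c, sg (c i) * w c) ^ 2 ≤ C ^ 2 * (2 ^ n * ∑ c, w c ^ 2) := by
  calc ∑ i, (coef i * ∑ c, sg (c i) * w c) ^ 2
      ≤ ∑ i, C ^ 2 * (∑ c, sg (c i) * w c) ^ 2 := by
        refine Finset.sum_le_sum fun i _ => ?_
        rw [mul_pow]
        refine mul_le_mul_of_nonneg_right ?_ (sq_nonneg _)
        have h := hC i
        rw [← sq_abs (coef i)]
        exact pow_le_pow_left₀ (abs_nonneg _) h 2
    _ = C ^ 2 * ∑ i, (∑ c, sg (c i) * w c) ^ 2 := by rw [Finset.mul_sum]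
    _ ≤ C ^ 2 * (2 ^ n * ∑ c, w c ^ 2) :=
        mul_le_mul_of_nonneg_left (sum_sg_row w) (sq_nonneg _)

variable {H : Type*} [NormedAddCommGroup H] [InnerProductSpace ℝ H]

namespace PD

variable (D : PD H)

theorem Bd_decomp (p : ℕ) (u : H) : D.nAp p u
    = ∑ i, ((D.a * (D.X p).th D.a / (D.X p).kap i)
        * ∑ c, sg (c i) * (D.d p c * D.q p c u)) • (D.X p).v i
      - ∑ i, ((tau * D.a ^ 2 * (D.X p).th D.a * ((D.X p).k i / ((1 + (D.X p).k i) * (D.X p).kap i)))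
        * ∑ c, sg (c i) * (D.z p c * D.q p c u)) • (D.X p).v i := by
  have e1 : ∑ i, ((D.a * (D.X p).th D.a / (D.X p).kap i)
        * ∑ c, sg (c i) * (D.d p c * D.q p c u)) • (D.X p).v i
      = ∑ c, D.q p c u • ((D.a * D.d p c * (D.X p).th D.a) • (D.X p).Bp c) := by
    unfold Pk.Bp
    simp only [Finset.smul_sum]
    rw [Finset.sum_comm]
    refine Finset.sum_congr rfl fun i _ => ?_
    rw [Finset.mul_sum, Finset.sum_smul]
    refine Finset.sum_congr rfl fun c _ => ?_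
    rw [smul_smul, smul_smul]
    congr 1
    ring
  have e2 : ∑ i, ((tau * D.a ^ 2 * (D.X p).th D.a
        * ((D.X p).k i / ((1 + (D.X p).k i) * (D.X p).kap i)))
        * ∑ c, sg (c i) * (D.z p c * D.q p c u)) • (D.X p).v i
      = ∑ c, D.q p c u • ((tau * D.a ^ 2 * (D.X p).th D.a * D.z p c) • (D.X p).Rv c) := by
    unfold Pk.Rv
    simp only [Finset.smul_sum]
    rw [Finset.sum_comm]
    refine Finset.sum_congr rfl fun i _ => ?_
    rw [Finset.mul_sum, Finset.sum_smul]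
    refine Finset.sum_congr rfl fun c _ => ?_
    rw [smul_smul, smul_smul]
    congr 1
    ring
  rw [e1, e2, ← Finset.sum_sub_distrib]
  unfold nAp
  refine Finset.sum_congr rfl fun c _ => ?_
  rw [smul_sub]

theorem nAp_le {p : ℕ} (hp : p ∈ D.J) (u : H) :
    ‖D.nAp p u‖ ≤ 109 / 100 * (D.al p * √(D.a * (D.X p).s)) * √(D.zz p u)
      + 117 / 100 * ((D.X p).s * D.al p) * ‖u‖ := by
  have ha := D.ha
  have ha' := D.ha'
  have hs := D.hs p hp
  have hal := D.hal p hp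
  have hal' := D.hal' p hp
  have hth := D.th_nonneg p
  have hthsq := D.th_sq hp
  set QQ : ℝ := ∑ c, D.q p c u ^ 2 with hQQ
  have hQQ0 : 0 ≤ QQ := Finset.sum_nonneg fun c _ => sq_nonneg _
  set R : ℝ := √(D.a * (D.X p).s) with hR
  have hR0 : 0 ≤ R := Real.sqrt_nonneg _
  have hR2 : R ^ 2 = D.a * (D.X p).s := Real.sq_sqrt (by positivity)
  have hQ0 : 0 ≤ √QQ := Real.sqrt_nonneg _
  have hQ2 : √QQ ^ 2 = QQ := Real.sq_sqrt hQQ0
  -- the two weights
  have hw1 : ∑ c, (D.d p c * D.q p c u) ^ 2 ≤ D.al p ^ 2 * QQ := by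
    rw [hQQ, Finset.mul_sum]
    refine Finset.sum_le_sum fun c _ => ?_
    rw [mul_pow]
    exact mul_le_mul_of_nonneg_right (D.d_sq_le hp c) (sq_nonneg _)
  have hw2 : ∑ c, (D.z p c * D.q p c u) ^ 2 ≤ (D.al p / 2) ^ 2 * QQ := by
    rw [hQQ, Finset.mul_sum]
    refine Finset.sum_le_sum fun c _ => ?_
    rw [mul_pow]
    refine mul_le_mul_of_nonneg_right ?_ (sq_nonneg _)
    have h1 := D.z_abs_le hp c
    have h2 : D.al p ^ 2 / 2 ≤ D.al p / 2 := by nlinarith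
    rw [← sq_abs]
    exact pow_le_pow_left₀ (abs_nonneg _) (h1.trans h2) 2
  -- coefficients
  have hc1 : ∀ i, |D.a * (D.X p).th D.a / (D.X p).kap i|
      ≤ 10802 / 10000 * (D.a * (D.X p).th D.a) := by
    intro i
    have hk0 := D.kap_pos hp i
    have hk := D.kap_inv_le hp i
    rw [abs_of_nonneg (div_nonneg (mul_nonneg ha.le hth) hk0.le), div_eq_mul_inv, mul_comm]
    exact mul_le_mul_of_nonneg_right hk (mul_nonneg ha.le hth)
  have hc2 : ∀ i, |tau * D.a ^ 2 * (D.X p).th D.a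
      * ((D.X p).k i / ((1 + (D.X p).k i) * (D.X p).kap i))|
      ≤ 19 / 100 * (tau * D.a ^ 2 * (D.X p).th D.a) := by
    intro i
    have hk0 := D.kap_pos hp i
    have hk := D.kap_inv_le hp i
    have h1k := D.one_add_k hp i
    have hki := D.hk p hp i
    have htau : (0 : ℝ) ≤ tau := by rw [tau_eq]; norm_num
    have h0 : 0 ≤ tau * D.a ^ 2 * (D.X p).th D.a := by positivity
    rw [abs_mul, abs_of_nonneg h0, mul_comm]
    refine mul_le_mul_of_nonneg_right ?_ h0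
    rw [abs_div, abs_of_pos (by positivity : 0 < (1 + (D.X p).k i) * (D.X p).kap i)]
    rw [div_le_iff₀ (by positivity)]
    have h2 := D.kap_ge hp i
    have h3 : 6 / 7 * (925 / 1000) ≤ (1 + (D.X p).k i) * (D.X p).kap i :=
      mul_le_mul h1k h2 (by norm_num) (by linarith)
    linarith
  -- norms
  have hn1 : ‖∑ i, ((D.a * (D.X p).th D.a / (D.X p).kap i)
        * ∑ c, sg (c i) * (D.d p c * D.q p c u)) • (D.X p).v i‖
      ≤ 10802 / 10000 * (R * (D.al p * √QQ)) := by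
    refine (sq_le_sq₀ (norm_nonneg _) (by positivity)).1 ?_
    rw [D.v_sum_sq hp]
    refine (Bd_bound _ _ _ hc1).trans ?_
    have h2n : (0 : ℝ) < 2 ^ (D.X p).n := by positivity
    have e : (10802 / 10000 * (D.a * (D.X p).th D.a)) ^ 2 * 2 ^ (D.X p).n
        = (10802 / 10000) ^ 2 * R ^ 2 := by
      rw [hR2]
      have : (D.a * (D.X p).th D.a) ^ 2 * 2 ^ (D.X p).n
          = D.a * ((D.X p).th D.a ^ 2 * (D.a * 2 ^ (D.X p).n)) := by ring
      rw [mul_pow, mul_assoc, this, hthsq]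
    calc (10802 / 10000 * (D.a * (D.X p).th D.a)) ^ 2
          * (2 ^ (D.X p).n * ∑ c, (D.d p c * D.q p c u) ^ 2)
        = (10802 / 10000) ^ 2 * R ^ 2 * ∑ c, (D.d p c * D.q p c u) ^ 2 := by
          rw [← mul_assoc, e]
      _ ≤ (10802 / 10000) ^ 2 * R ^ 2 * (D.al p ^ 2 * QQ) :=
          mul_le_mul_of_nonneg_left hw1 (by positivity)
      _ = (10802 / 10000 * (R * (D.al p * √QQ))) ^ 2 := by
          rw [mul_pow, mul_pow, mul_pow, hQ2]; ring
  have hn2 : ‖∑ i, ((tau * D.a ^ 2 * (D.X p).th D.a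
        * ((D.X p).k i / ((1 + (D.X p).k i) * (D.X p).kap i)))
        * ∑ c, sg (c i) * (D.z p c * D.q p c u)) • (D.X p).v i‖
      ≤ 1 / 10000 * (R * (D.al p * √QQ)) := by
    refine (sq_le_sq₀ (norm_nonneg _) (by positivity)).1 ?_
    rw [D.v_sum_sq hp]
    refine (Bd_bound _ _ _ hc2).trans ?_
    have e : (19 / 100 * (tau * D.a ^ 2 * (D.X p).th D.a)) ^ 2 * 2 ^ (D.X p).n
        = (19 / 100 * (tau * D.a)) ^ 2 * R ^ 2 := by
      rw [hR2]
      have : (19 / 100 * (tau * D.a ^ 2 * (D.X p).th D.a)) ^ 2 * 2 ^ (D.X p).n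
          = (19 / 100 * (tau * D.a)) ^ 2 * (D.a
            * ((D.X p).th D.a ^ 2 * (D.a * 2 ^ (D.X p).n))) := by ring
      rw [this, hthsq]
    have hcoef : (19 / 100 * (tau * D.a)) ^ 2 ≤ (1 / 10000) ^ 2 := by
      refine pow_le_pow_left₀ (by rw [tau_eq]; positivity) ?_ 2
      rw [tau_eq]
      linarith
    calc (19 / 100 * (tau * D.a ^ 2 * (D.X p).th D.a)) ^ 2
          * (2 ^ (D.X p).n * ∑ c, (D.z p c * D.q p c u) ^ 2)
        = (19 / 100 * (tau * D.a)) ^ 2 * R ^ 2 * ∑ c, (D.z p c * D.q p c u) ^ 2 := by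
          rw [← mul_assoc, e]
      _ ≤ (19 / 100 * (tau * D.a)) ^ 2 * R ^ 2 * ((D.al p / 2) ^ 2 * QQ) :=
          mul_le_mul_of_nonneg_left hw2 (by positivity)
      _ ≤ (1 / 10000) ^ 2 * R ^ 2 * ((D.al p / 2) ^ 2 * QQ) :=
          mul_le_mul_of_nonneg_right (mul_le_mul_of_nonneg_right hcoef (sq_nonneg _))
            (by positivity)
      _ ≤ (1 / 10000) ^ 2 * R ^ 2 * (D.al p ^ 2 * QQ) := by
          refine mul_le_mul_of_nonneg_left (mul_le_mul_of_nonneg_right ?_ hQQ0) (by positivity)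
          nlinarith [sq_nonneg (D.al p)]
      _ = (1 / 10000 * (R * (D.al p * √QQ))) ^ 2 := by
          rw [mul_pow, mul_pow, mul_pow, hQ2]; ring
  have hq := D.q_norm hp u
  rw [← hQQ] at hq
  have hRs : R * √((D.X p).s / D.a) = (D.X p).s := by
    rw [hR, ← Real.sqrt_mul (by positivity)]
    have : D.a * (D.X p).s * ((D.X p).s / D.a) = (D.X p).s ^ 2 := by
      field_simp
    rw [this, Real.sqrt_sq hs.le]
  rw [D.Bd_decomp p u]
  have hRal : 0 ≤ R * D.al p := mul_nonneg hR0 hal.le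
  have hzz : 0 ≤ √(D.zz p u) := Real.sqrt_nonneg _
  have hu : 0 ≤ ‖u‖ := norm_nonneg _
  calc _ ≤ 10802 / 10000 * (R * (D.al p * √QQ)) + 1 / 10000 * (R * (D.al p * √QQ)) :=
        (norm_sub_le _ _).trans (add_le_add hn1 hn2)
    _ = 10803 / 10000 * (R * D.al p) * √QQ := by ring
    _ ≤ 10803 / 10000 * (R * D.al p)
        * (√(D.zz p u) + 107 / 100 * √((D.X p).s / D.a) * ‖u‖) :=
        mul_le_mul_of_nonneg_left hq (by positivity)
    _ = 10803 / 10000 * (D.al p * R) * √(D.zz p u)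
        + 10803 / 10000 * (107 / 100) * (R * √((D.X p).s / D.a) * D.al p) * ‖u‖ := by ring
    _ = 10803 / 10000 * (D.al p * R) * √(D.zz p u)
        + 10803 / 10000 * (107 / 100) * ((D.X p).s * D.al p) * ‖u‖ := by rw [hRs]
    _ ≤ 109 / 100 * (D.al p * R) * √(D.zz p u) + 117 / 100 * ((D.X p).s * D.al p) * ‖u‖ := by
        have h1 : 0 ≤ D.al p * R * √(D.zz p u) := by positivity
        have h2 : 0 ≤ (D.X p).s * D.al p * ‖u‖ := by positivity
        nlinarith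

end PD

end

end QC49
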