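import Pool.Agent.Lib.MP_49c203_an.B.Ba
import Pool.Agent.Lib.MP_49c203_an.B.Bd

/-! # row qc-Be : sizes of `F'`, `n_A`, `n_D`, `n_o`

`Fq_le` : `|avg t| ≤ sup |t|`; `|d| ≤ α`, `d² ≤ α² ≤ α`: `|Fq| ≤ s α + ½ a s α ≤ 1.001 s α` (in fact `1.0005`).
`FF_le` : sum.
`sum_nAp_le` : by `nAp_le` and Cauchy-Schwarz `∑ α√(a s) √zz ≤ √(∑ a s α²) √(∑ zz) = √g2 ‖PZ u‖` (`PZ_sq`).
`no_le` : `n_D ≤ ∑ |Fq| 2 ‖u‖ ≤ 2.002 S ‖u‖`, `‖Er u‖ ≤ η‖u‖ ≤ 0.02 S ‖u‖` (`eta_le_S`): 1.17 + 2.002 + 0.02 = 3.192 ≤ 3.21.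
-/

set_option autoImplicit false

namespace QC49

noncomputable section

open scoped RealInnerProductSpace

variable {H : Type*} [NormedAddCommGroup H] [InnerProductSpace ℝ H]

namespace PD

variable (D : PD H)

theorem abs_avg_le {n : ℕ} (t : (Fin n → Bool) → ℝ) {B : ℝ} (h : ∀ c, |t c| ≤ B) : |avg t| ≤ B := by
  unfold avg
  have h2 : (0 : ℝ) < 2 ^ n := by positivity
  rw [abs_div, abs_of_pos h2, div_le_iff₀ h2]
  calc |∑ c, t c| ≤ ∑ c, |t c| := Finset.abs_sum_le_sum_abs _ _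
    _ ≤ ∑ _c : Fin n → Bool, B := Finset.sum_le_sum fun c _ => h c
    _ = B * 2 ^ n := by
      rw [Finset.sum_const, Finset.card_univ, Fintype.card_fun, Fintype.card_bool,
        Fintype.card_fin, nsmul_eq_mul]
      push_cast
      ring

theorem Fq_le {p : ℕ} (hp : p ∈ D.J) : |D.Fq p| ≤ 1001 / 1000 * ((D.X p).s * D.al p) := by
  have hs := D.hs p hp
  have hal := D.hal p hp
  have hal' := D.hal' p hp
  have ha := D.ha
  have ha' := D.ha'
  have h1 : |avg (fun c => D.al p * D.sl p c)| ≤ D.al p := by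
    refine abs_avg_le _ fun c => ?_
    rw [abs_mul, abs_of_pos hal]
    exact mul_le_of_le_one_right hal.le (D.hsl p hp c)
  have h2 : |avg (fun c => (D.al p * D.sl p c) ^ 2)| ≤ D.al p := by
    refine abs_avg_le _ fun c => ?_
    have h3 : |D.al p * D.sl p c| ≤ D.al p := by
      rw [abs_mul, abs_of_pos hal]
      exact mul_le_of_le_one_right hal.le (D.hsl p hp c)
    rw [abs_pow]
    calc |D.al p * D.sl p c| ^ 2 ≤ D.al p ^ 2 := pow_le_pow_left₀ (abs_nonneg _) h3 2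
      _ ≤ D.al p := by nlinarith
  have h3 : |D.Fq p| ≤ (D.X p).s * D.al p + 1 / 2 * D.a * (D.X p).s * D.al p := by
    unfold Fq Pk.Fp
    refine (abs_add_le _ _).trans (add_le_add ?_ ?_)
    · rw [abs_mul, abs_of_pos hs]
      exact mul_le_mul_of_nonneg_left h1 hs.le
    · rw [abs_mul, abs_of_pos (by positivity : 0 < 1 / 2 * D.a * (D.X p).s)]
      exact mul_le_mul_of_nonneg_left h2 (by positivity)
  have h4 : 0 < (D.X p).s * D.al p := mul_pos hs hal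
  have h5 : 1 / 2 * D.a * (D.X p).s * D.al p = 1 / 2 * D.a * ((D.X p).s * D.al p) := by ring
  rw [h5] at h3
  have h6 : 1 / 2 * D.a * ((D.X p).s * D.al p) ≤ 1 / 2 * (1 / 1000) * ((D.X p).s * D.al p) := by
    apply mul_le_mul_of_nonneg_right _ h4.le
    linarith
  linarith

theorem sum_Fq_le : ∑ p ∈ D.J, |D.Fq p| ≤ 1001 / 1000 * D.S := by
  unfold S
  rw [Finset.mul_sum]
  exact Finset.sum_le_sum fun p hp => D.Fq_le hp

theorem FF_le : |D.FF| ≤ 1001 / 1000 * D.S := by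
  unfold FF
  exact (Finset.abs_sum_le_sum_abs _ _).trans D.sum_Fq_le

theorem FF_small : |D.FF| ≤ 1 / 10 ^ 6 := by
  have h1 := D.FF_le
  have h2 := D.S_le_num
  norm_num at h2 ⊢
  linarith

theorem sum_nAp_le (u : H) :
    ∑ p ∈ D.J, ‖D.nAp p u‖ ≤ 109 / 100 * √D.g2 * ‖D.PZ u‖ + 117 / 100 * D.S * ‖u‖ := by
  have h1 : ∑ p ∈ D.J, (D.al p * √(D.a * (D.X p).s)) * √(D.zz p u) ≤ √D.g2 * ‖D.PZ u‖ := by
    refine (Real.sum_mul_le_sqrt_mul_sqrt _ _ _).trans (le_of_eq ?_)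
    congr 1
    · congr 1
      unfold g2
      refine Finset.sum_congr rfl fun p hp => ?_
      have hs := D.hs p hp
      have ha := D.ha
      rw [mul_pow, Real.sq_sqrt (by positivity)]
      ring
    · rw [← Real.sqrt_sq (norm_nonneg (D.PZ u)), D.PZ_sq u]
      congr 1
      refine Finset.sum_congr rfl fun p _ => ?_
      rw [Real.sq_sqrt (D.zz_nonneg p u)]
  calc ∑ p ∈ D.J, ‖D.nAp p u‖
      ≤ ∑ p ∈ D.J, (109 / 100 * (D.al p * √(D.a * (D.X p).s)) * √(D.zz p u)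
        + 117 / 100 * ((D.X p).s * D.al p) * ‖u‖) :=
        Finset.sum_le_sum fun p hp => D.nAp_le hp u
    _ = 109 / 100 * (∑ p ∈ D.J, (D.al p * √(D.a * (D.X p).s)) * √(D.zz p u))
        + 117 / 100 * D.S * ‖u‖ := by
        unfold S
        rw [Finset.sum_add_distrib, Finset.mul_sum, Finset.mul_sum, Finset.sum_mul]
        congr 1
        refine Finset.sum_congr rfl fun p _ => ?_
        ring
    _ ≤ 109 / 100 * √D.g2 * ‖D.PZ u‖ + 117 / 100 * D.S * ‖u‖ := by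
        have := mul_le_mul_of_nonneg_left h1 (by norm_num : (0 : ℝ) ≤ 109 / 100)
        linarith

theorem nD_le (u : H) : ‖D.nD u‖ ≤ 201 / 100 * D.S * ‖u‖ := by
  have h1 : ‖D.nD u‖ ≤ ∑ p ∈ D.J, |D.Fq p| * (2 * ‖u‖) := by
    unfold nD
    refine (norm_sum_le _ _).trans (Finset.sum_le_sum fun p hp => ?_)
    rw [norm_smul, Real.norm_eq_abs]
    refine mul_le_mul_of_nonneg_left ?_ (abs_nonneg _)
    exact (D.Dp p).le_of_opNorm_le (D.hD1 p hp) u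
  rw [← Finset.sum_mul] at h1
  have h2 := mul_le_mul_of_nonneg_right D.sum_Fq_le (by positivity : 0 ≤ 2 * ‖u‖)
  have h3 : 0 ≤ D.S * ‖u‖ := mul_nonneg D.S_pos.le (norm_nonneg _)
  nlinarith

theorem no_le (u : H) : ‖D.no u‖ ≤ 11 / 10 * √D.g2 * ‖D.PZ u‖ + 321 / 100 * D.S * ‖u‖ := by
  have h1 : ‖D.nA u‖ ≤ 109 / 100 * √D.g2 * ‖D.PZ u‖ + 117 / 100 * D.S * ‖u‖ := by
    unfold nA
    exact (norm_sum_le _ _).trans (D.sum_nAp_le u)
  have h2 := D.nD_le u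
  have h3 : ‖D.Er u‖ ≤ 2 / 100 * D.S * ‖u‖ :=
    (D.Er.le_of_opNorm_le D.hEr u).trans
      (mul_le_mul_of_nonneg_right D.eta_le_S (norm_nonneg _))
  have h4 : ‖D.no u‖ ≤ ‖D.nA u‖ + ‖D.nD u‖ + ‖D.Er u‖ := by
    unfold no
    exact (norm_add_le _ _).trans (add_le_add (norm_add_le _ _) le_rfl)
  have h5 : 0 ≤ √D.g2 * ‖D.PZ u‖ := by positivity
  have h6 : 0 ≤ D.S * ‖u‖ := mul_nonneg D.S_pos.le (norm_nonneg _)
  nlinarith

end PD

end

end QC49
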