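import Pool.Agent.Lib.MP_49c203_an.B.Bb

/-! # row qc-Bf : decomposition of `Y` and orthogonality relations

`Y_eq` : `Np u = ∑_c q_c dirv_c`, `dirv_c = a d_c (-ν_c + θ Bp_c) - τa²θ z_c Rv_c`; collect the `ν` part (this is `n_Z`) and the rest (`n_A`).
`Np_eq` : the same for one package: `Np u = nZp p u + nAp p u` with `nZp p u := -∑_c (a d_c q_c) • ν_c`.
`Kp_nZp` : `⟪K_p u, ν_c⟫ = ∑ k_i y_i ⟪v_i, ν_c⟫ = 0` (`D.hνv`).
`Kp_Dp` : `⟪K_p u, D_p w⟫ = ∑ k_i y_i ⟪v_i, D_p w⟫ = 0` (`D.hD3`).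
`Dp_form` : with `e = u - Pr u`: `D_p u = D_p e` (`hD2`) and `⟪Pr u, D_p e⟫ = 0` (`hD3`), so `|⟪u, D_p u⟫| = |⟪e, D_p e⟫| ≤ 2‖e‖²`.
-/

set_option autoImplicit false

namespace QC49

noncomputable section

open scoped RealInnerProductSpace

variable {H : Type*} [NormedAddCommGroup H] [InnerProductSpace ℝ H]

namespace PD

variable (D : PD H)

/-- the `ν` part of one package -/
def nZp (p : ℕ) (u : H) : H := -∑ c, (D.a * D.d p c * D.q p c u) • (D.X p).ν c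

theorem nZ_eq_sum (u : H) : D.nZ u = ∑ p ∈ D.J, D.nZp p u := by
  simp only [nZ, nZp, Finset.sum_neg_distrib]

theorem Np_eq (p : ℕ) (u : H) :
    (D.X p).Np D.a (D.al p) (D.sl p) u = D.nZp p u + D.nAp p u := by
  rw [nZp, nAp, ← Finset.sum_neg_distrib, ← Finset.sum_add_distrib, Pk.Np,
    ContinuousLinearMap.sum_apply]
  refine Finset.sum_congr rfl fun c _ => ?_
  have h1 : (((innerSL ℝ ((D.X p).qv D.a c)).smulRight
      ((D.X p).dirv D.a (D.al p) (D.sl p) c)) : H →L[ℝ] H) u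
      = D.q p c u • (D.X p).dirv D.a (D.al p) (D.sl p) c := rfl
  rw [h1, Pk.dirv]
  have h2 : D.al p * D.sl p c = D.d p c := rfl
  have h3 : zc (D.al p) (D.sl p c) = D.z p c := rfl
  rw [h2, h3]
  module

theorem Y_eq (u : H) : D.Y u = u + (D.nZ u + D.no u) := by
  have h1 : ∑ p ∈ D.J, (D.X p).Np D.a (D.al p) (D.sl p) u = D.nZ u + D.nA u := by
    rw [D.nZ_eq_sum, nA, ← Finset.sum_add_distrib]
    exact Finset.sum_congr rfl fun p _ => D.Np_eq p u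
  rw [Y, h1, no, nD]
  abel

theorem Kp_nZp {p : ℕ} (hp : p ∈ D.J) (u : H) : ⟪(D.X p).Kp u, D.nZp p u⟫ = 0 := by
  rw [nZp, inner_neg_right, inner_sum, neg_eq_zero]
  refine Finset.sum_eq_zero fun c _ => ?_
  rw [inner_smul_right, D.Kp_apply, sum_inner]
  rw [Finset.sum_eq_zero, mul_zero]
  intro i _
  rw [inner_smul_left, inner_smul_left, real_inner_comm, D.hνv p hp c i, mul_zero, mul_zero]

theorem Kp_Dp {p : ℕ} (hp : p ∈ D.J) (u u' : H) : ⟪(D.X p).Kp u, D.Dp p u'⟫ = 0 := by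
  rw [D.Kp_apply, sum_inner]
  refine Finset.sum_eq_zero fun i _ => ?_
  rw [inner_smul_left, inner_smul_left, D.hD3 p hp i u', mul_zero, mul_zero]

theorem Bf_Pr_apply (p : ℕ) (u : H) :
    (D.X p).Pr u = ∑ i, D.yy p i u • (D.X p).v i := by
  rw [Pk.Pr, ContinuousLinearMap.sum_apply]
  rfl

theorem Dp_form {p : ℕ} (hp : p ∈ D.J) (u : H) :
    |⟪u, D.Dp p u⟫| ≤ 2 * (‖u‖ ^ 2 - ∑ i, D.yy p i u ^ 2) := by
  have h1 : D.Dp p ((D.X p).Pr u) = 0 := by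
    rw [D.Bf_Pr_apply, map_sum]
    refine Finset.sum_eq_zero fun i _ => ?_
    rw [map_smul, D.hD2 p hp i, smul_zero]
  have h2 : D.Dp p (u - (D.X p).Pr u) = D.Dp p u := by
    rw [map_sub, h1, sub_zero]
  have h3 : ⟪(D.X p).Pr u, D.Dp p u⟫ = 0 := by
    rw [D.Bf_Pr_apply, sum_inner]
    refine Finset.sum_eq_zero fun i _ => ?_
    rw [inner_smul_left, D.hD3 p hp i u, mul_zero]
  have h4 : ⟪u, D.Dp p u⟫ = ⟪u - (D.X p).Pr u, D.Dp p (u - (D.X p).Pr u)⟫ := by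
    rw [h2, inner_sub_left, h3, sub_zero]
  rw [h4, ← D.sub_Pr_sq hp]
  calc |⟪u - (D.X p).Pr u, D.Dp p (u - (D.X p).Pr u)⟫|
      ≤ ‖u - (D.X p).Pr u‖ * ‖D.Dp p (u - (D.X p).Pr u)‖ := abs_real_inner_le_norm _ _
    _ ≤ ‖u - (D.X p).Pr u‖ * (2 * ‖u - (D.X p).Pr u‖) := by
        apply mul_le_mul_of_nonneg_left _ (norm_nonneg _)
        exact (D.Dp p).le_of_opNorm_le (D.hD1 p hp) _
    _ = 2 * ‖u - (D.X p).Pr u‖ ^ 2 := by ring

end PD

end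

end QC49
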