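import Pool.Agent.Lib.MP_49c203_an.Basic

/-! # row qc-Bn : numbers

All from `a ≤ 1/1000`, `σ/2 ≤ S ≤ 2σ`, `a σ/2 ≤ g2 ≤ a S ≤ 2aσ` with `σ = a³/10⁴`
(`D.S_ge, D.S_le, D.g2_ge, D.g2_le, D.hη', D.ha, D.ha'`; write `g = √g2`, `g² = g2`).
`S_sq_le` : `S² ≤ 4σ² = 8 (σ/a) (aσ/2) ≤ 8 (a²/10⁴) g2`.   `S_le_ag` : square root, `√8/100 ≤ 0.0283`.
`g_le` : `g2 ≤ 2 a⁴/10⁴`, so `g ≤ 0.01415 a²`.   `eta_le_g` : `η ≤ a³/10⁶`, `g ≥ √(a⁴/(2·10⁴)) ≥ 0.00707 a²`, so `η ≤ 2·10⁻⁴ a g`.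
-/

set_option autoImplicit false

namespace QC49

noncomputable section

open scoped RealInnerProductSpace

variable {H : Type*} [NormedAddCommGroup H] [InnerProductSpace ℝ H]

namespace PD

variable (D : PD H)

theorem g_sq : √D.g2 ^ 2 = D.g2 := Real.sq_sqrt D.g2_pos.le

theorem g_pos : 0 < √D.g2 := Real.sqrt_pos.2 D.g2_pos

theorem S_sq_le : D.S ^ 2 ≤ 8 / 10 ^ 4 * D.a ^ 2 * D.g2 := by
  have h1 := D.S_le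
  have h2 := D.g2_ge
  have h3 := D.S_pos
  have h4 := D.a3_pos
  have h5 : D.S ^ 2 ≤ (2 * (D.a ^ 3 / 10 ^ 4)) ^ 2 := pow_le_pow_left₀ h3.le h1 2
  have h6 : D.a ^ 2 * (D.a * (D.a ^ 3 / 10 ^ 4 / 2)) ≤ D.a ^ 2 * D.g2 :=
    mul_le_mul_of_nonneg_left h2 (sq_nonneg _)
  have h7 : (2 * (D.a ^ 3 / 10 ^ 4)) ^ 2 = 8 / 10 ^ 4 * (D.a ^ 2 * (D.a * (D.a ^ 3 / 10 ^ 4 / 2))) := by
    ring
  rw [h7] at h5
  have h8 := mul_le_mul_of_nonneg_left h6 (show (0 : ℝ) ≤ 8 / 10 ^ 4 by norm_num)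
  calc D.S ^ 2 ≤ 8 / 10 ^ 4 * (D.a ^ 2 * (D.a * (D.a ^ 3 / 10 ^ 4 / 2))) := h5
    _ ≤ 8 / 10 ^ 4 * (D.a ^ 2 * D.g2) := h8
    _ = 8 / 10 ^ 4 * D.a ^ 2 * D.g2 := by ring

theorem S_le_ag : D.S ≤ 283 / 10000 * (D.a * √D.g2) := by
  have h1 := D.S_sq_le
  have h2 := D.g_sq
  have h3 := D.g_pos
  have h4 := D.ha
  have h5 := D.g2_pos
  have h6 : 0 ≤ 283 / 10000 * (D.a * √D.g2) := by positivity
  refine (le_abs_self _).trans (abs_le_of_sq_le_sq (?_ : D.S ^ 2 ≤ _) h6)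
  have h7 : (283 / 10000 * (D.a * √D.g2)) ^ 2 = (283 / 10000) ^ 2 * (D.a ^ 2 * D.g2) := by
    rw [mul_pow, mul_pow, h2]
  rw [h7]
  have h8 : 0 ≤ D.a ^ 2 * D.g2 := by positivity
  nlinarith

theorem g_le : √D.g2 ≤ 1415 / 100000 * D.a ^ 2 := by
  have h1 := D.g2_le
  have h2 := D.S_le
  have h4 := D.ha
  have h6 : 0 ≤ 1415 / 100000 * D.a ^ 2 := by positivity
  apply Real.sqrt_le_iff.2
  refine ⟨h6, ?_⟩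
  have h3 : D.a * D.S ≤ D.a * (2 * (D.a ^ 3 / 10 ^ 4)) := mul_le_mul_of_nonneg_left h2 h4.le
  have h5 : 0 ≤ D.a ^ 4 := by positivity
  nlinarith

theorem g_ge : 707 / 100000 * D.a ^ 2 ≤ √D.g2 := by
  have h2 := D.g2_ge
  apply Real.le_sqrt_of_sq_le
  have h5 : 0 ≤ D.a ^ 4 := by positivity
  nlinarith

theorem eta_le_g : D.η ≤ 2 / 10 ^ 4 * (D.a * √D.g2) := by
  have h1 := D.hη'
  have h2 := mul_le_mul_of_nonneg_left D.g_ge D.ha.le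
  have h3 := D.a3_pos
  nlinarith

/-- `η / (w g) ≤ 2·10⁻⁷` for `w ≥ 1000 a` -/
theorem eta_le_wg {w : ℝ} (hw : 1000 * D.a ≤ w) : D.η ≤ 2 / 10 ^ 7 * (w * √D.g2) := by
  have h1 := D.eta_le_g
  have h2 := mul_le_mul_of_nonneg_right hw D.g_pos.le
  nlinarith

theorem g2_le_num : D.g2 ≤ 1 / 10 ^ 15 := by
  have h1 := D.g2_le
  have h2 := D.S_le
  have h4 := D.ha
  have h3 : D.a * D.S ≤ D.a * (2 * (D.a ^ 3 / 10 ^ 4)) := mul_le_mul_of_nonneg_left h2 h4.le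
  have h5 : D.a ^ 4 ≤ (1 / 1000) ^ 4 := pow_le_pow_left₀ h4.le D.ha' 4
  norm_num at h5 ⊢
  nlinarith

theorem g_le_num : √D.g2 ≤ 2 / 10 ^ 8 := by
  have h1 := D.g_le
  have h4 := D.ha
  have h5 : D.a ^ 2 ≤ (1 / 1000) ^ 2 := pow_le_pow_left₀ h4.le D.ha' 2
  norm_num at h5 ⊢
  nlinarith

end PD

end

end QC49
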