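import Pool.Agent.Lib.MP_49c203_an.B.Bc
import Pool.Agent.Lib.MP_49c203_an.B.Be
import Pool.Agent.Lib.MP_49c203_an.B.Bf
import Pool.Agent.Lib.MP_49c203_an.B.Bn

/-! # row qc-Bg : expansion of `G'` with error `E1` (paper 3.2)

`y = u + n`, `n = nZ + no`, `no = nA + nD + nE` (`nE = Er u`), `A = ‖u‖`.  Split into the exact identity `G_expand` and the estimate.
`|y|²+⟪Ky,y⟫ = |u|²+⟪Ku,u⟫+2⟪u+Ku,n⟫+|n|²+⟪Kn,n⟫` (K symmetric).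
`|n|²+⟪Kn,n⟫ = |nZ|²+2⟪nZ,no⟫+|no|²+⟪K nZ,nZ⟫+2⟪K nZ,no⟫+⟪K no,no⟫`; `‖K nZ‖ ≤ η‖nZ‖` (`K_nZ_le`), `‖K‖ ≤ 1/7`.
`2⟪u+Ku,n⟫ = 2⟪u+Ku,nZ+nA⟫+2⟪u+Ku,nD⟫+2⟪u+Ku,nE⟫`.
`2⟪u+Ku,nZ+nA⟫ - ∑_p 2⟪u+K_pu, N_pu⟫ = 2⟪Ku,nZ⟫ + 2∑_p⟪(K-K_p)u, nAp⟫` (`Np_eq`, `Kp_nZp`), `|⟪Ku,nZ⟫| = |⟪u,K nZ⟫| ≤ ηA‖nZ‖`,
 `|⟪(K-K_p)u,nAp⟫| ≤ ηA‖nAp‖` (`D.hKp`).
`2⟪u+Ku,nD⟫ = 2∑Fq⟪u,D_pu⟫ + 2∑Fq⟪(K-K_p)u,D_pu⟫` (`Kp_Dp`), second part `≤ 2·1.001 S·η A·2A`.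
`2|⟪u+Ku,nE⟫| ≤ (16/7) η A²`.
Total error `≤ ηA²(16/7+4.004 S) + 2ηA‖nZ‖ + 2ηA∑‖nAp‖ + η‖nZ‖² + 2η‖nZ‖‖no‖ + 2‖nZ‖‖no‖ + (8/7)‖no‖²`,
and `‖nZ‖ ≤ (3/2 a + 8/5 g)A ≤ 0.002 A`, `∑‖nAp‖ ≤ (1.09 g+1.17 S)A ≤ 10⁻⁶A`, `‖no‖ ≤ 10⁻⁶ A` (`g_le_num`, `S_le_num`, `PZ_le`), so the `η` terms are `≤ 3ηA²`.
-/

set_option autoImplicit false

namespace QC49

noncomputable section

open scoped RealInnerProductSpace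

variable {H : Type*} [NormedAddCommGroup H] [InnerProductSpace ℝ H]

namespace PD

variable (D : PD H)

theorem G_expand (u : H) :
    D.G' u - (‖u‖ ^ 2 + ⟪D.K u, u⟫ + D.MM u + 2 * ∑ p ∈ D.J, D.Fq p * ⟪u, D.Dp p u⟫)
      = 2 * ⟪u, D.K (D.nZ u)⟫ + 2 * ∑ p ∈ D.J, ⟪D.K u - (D.X p).Kp u, D.nAp p u⟫
        + 2 * ∑ p ∈ D.J, D.Fq p * ⟪D.K u - (D.X p).Kp u, D.Dp p u⟫ + 2 * ⟪u + D.K u, D.Er u⟫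
        + (⟪D.K (D.nZ u), D.nZ u⟫ + 2 * ⟪D.K (D.nZ u), D.no u⟫)
        + (2 * ⟪D.nZ u, D.no u⟫ + (‖D.no u‖ ^ 2 + ⟪D.K (D.no u), D.no u⟫)) := by
  have hMM : D.MM u = 2 * ⟪u, D.nZ u⟫ + 2 * ⟪u, D.nA u⟫
      + 2 * ∑ p ∈ D.J, ⟪(D.X p).Kp u, D.nAp p u⟫ + ‖D.nZ u‖ ^ 2 := by
    unfold MM
    have e1 : ∑ p ∈ D.J, 2 * ⟪u + (D.X p).Kp u, (D.X p).Np D.a (D.al p) (D.sl p) u⟫
        = ∑ p ∈ D.J, (2 * ⟪u, D.nZp p u⟫ + 2 * ⟪u, D.nAp p u⟫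
          + 2 * ⟪(D.X p).Kp u, D.nAp p u⟫) := by
      apply Finset.sum_congr rfl
      intro p hp
      rw [D.Np_eq p u, inner_add_left, inner_add_right, inner_add_right, D.Kp_nZp hp u]
      ring
    rw [e1, Finset.sum_add_distrib, Finset.sum_add_distrib, ← Finset.mul_sum, ← Finset.mul_sum,
      ← Finset.mul_sum, ← inner_sum, ← inner_sum, ← D.nZ_eq_sum u]
    rfl
  have hY := D.Y_eq u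
  have hG : D.G' u = ‖u‖ ^ 2 + ⟪D.K u, u⟫ + 2 * ⟪u, D.nZ u⟫ + 2 * ⟪D.K u, D.nZ u⟫
      + 2 * ⟪u, D.no u⟫ + 2 * ⟪D.K u, D.no u⟫ + ‖D.nZ u‖ ^ 2 + 2 * ⟪D.nZ u, D.no u⟫
      + ‖D.no u‖ ^ 2 + ⟪D.K (D.nZ u), D.nZ u⟫ + 2 * ⟪D.K (D.nZ u), D.no u⟫
      + ⟪D.K (D.no u), D.no u⟫ := by
    unfold G'
    rw [hY]
    have h1 : ‖u + (D.nZ u + D.no u)‖ ^ 2 = ‖u‖ ^ 2 + 2 * (⟪u, D.nZ u⟫ + ⟪u, D.no u⟫)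
        + (‖D.nZ u‖ ^ 2 + 2 * ⟪D.nZ u, D.no u⟫ + ‖D.no u‖ ^ 2) := by
      rw [norm_add_sq_real, norm_add_sq_real, inner_add_right]
    have h2 : ⟪D.K (u + (D.nZ u + D.no u)), u + (D.nZ u + D.no u)⟫
        = ⟪D.K u, u⟫ + 2 * ⟪D.K u, D.nZ u⟫ + 2 * ⟪D.K u, D.no u⟫ + ⟪D.K (D.nZ u), D.nZ u⟫
          + 2 * ⟪D.K (D.nZ u), D.no u⟫ + ⟪D.K (D.no u), D.no u⟫ := by
      have s1 : ⟪D.K (D.nZ u), u⟫ = ⟪D.K u, D.nZ u⟫ := by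
        rw [D.hKs, real_inner_comm]
      have s2 : ⟪D.K (D.no u), u⟫ = ⟪D.K u, D.no u⟫ := by
        rw [D.hKs, real_inner_comm]
      have s3 : ⟪D.K (D.no u), D.nZ u⟫ = ⟪D.K (D.nZ u), D.no u⟫ := by
        rw [D.hKs, real_inner_comm]
      rw [map_add, map_add]
      simp only [inner_add_left, inner_add_right]
      rw [s1, s2, s3]
      ring
    rw [h1, h2]
    ring
  have hno : ⟪u, D.no u⟫ = ⟪u, D.nA u⟫ + ∑ p ∈ D.J, D.Fq p * ⟪u, D.Dp p u⟫ + ⟪u, D.Er u⟫ := by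
    unfold no nD
    rw [inner_add_right, inner_add_right, inner_sum]
    congr 2
    exact Finset.sum_congr rfl fun p _ => by rw [inner_smul_right]
  have hKno : ⟪D.K u, D.no u⟫ = ∑ p ∈ D.J, ⟪D.K u, D.nAp p u⟫
      + ∑ p ∈ D.J, D.Fq p * ⟪D.K u, D.Dp p u⟫ + ⟪D.K u, D.Er u⟫ := by
    unfold no nD nA
    rw [inner_add_right, inner_add_right, inner_sum, inner_sum]
    congr 2
    exact Finset.sum_congr rfl fun p _ => by rw [inner_smul_right]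
  have hA : ∑ p ∈ D.J, ⟪D.K u - (D.X p).Kp u, D.nAp p u⟫
      = ∑ p ∈ D.J, ⟪D.K u, D.nAp p u⟫ - ∑ p ∈ D.J, ⟪(D.X p).Kp u, D.nAp p u⟫ := by
    rw [← Finset.sum_sub_distrib]
    exact Finset.sum_congr rfl fun p _ => by rw [inner_sub_left]
  have hB : ∑ p ∈ D.J, D.Fq p * ⟪D.K u - (D.X p).Kp u, D.Dp p u⟫
      = ∑ p ∈ D.J, D.Fq p * ⟪D.K u, D.Dp p u⟫ := by
    apply Finset.sum_congr rfl
    intro p hp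
    rw [inner_sub_left, D.Kp_Dp hp u u, sub_zero]
  have hZ : ⟪u, D.K (D.nZ u)⟫ = ⟪D.K u, D.nZ u⟫ := (D.hKs u (D.nZ u)).symm
  have hE : ⟪u + D.K u, D.Er u⟫ = ⟪u, D.Er u⟫ + ⟪D.K u, D.Er u⟫ := inner_add_left _ _ _
  rw [hG, hMM, hno, hKno, hA, hB, hZ, hE]
  ring

theorem E1_bound (u : H) :
    |D.G' u - (‖u‖ ^ 2 + ⟪D.K u, u⟫ + D.MM u + 2 * ∑ p ∈ D.J, D.Fq p * ⟪u, D.Dp p u⟫)|
      ≤ 3 * D.η * ‖u‖ ^ 2 + 2 * ‖D.nZ u‖ * ‖D.no u‖ + 8 / 7 * ‖D.no u‖ ^ 2 := by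
  rw [D.G_expand u]
  have hη := D.hη
  have hA0 : 0 ≤ ‖u‖ := norm_nonneg u
  have hZ0 : 0 ≤ ‖D.nZ u‖ := norm_nonneg _
  have hO0 : 0 ≤ ‖D.no u‖ := norm_nonneg _
  have hηA : 0 ≤ D.η * ‖u‖ := mul_nonneg hη hA0
  have hKu : ∀ x : H, ‖D.K x‖ ≤ 1 / 7 * ‖x‖ := fun x =>
    (D.K.le_opNorm x).trans (mul_le_mul_of_nonneg_right D.hKn (norm_nonneg x))
  have hEu : ‖D.Er u‖ ≤ D.η * ‖u‖ :=
    (D.Er.le_opNorm u).trans (mul_le_mul_of_nonneg_right D.hEr (norm_nonneg u))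
  -- the six terms
  have t1 : |⟪u, D.K (D.nZ u)⟫| ≤ D.η * ‖u‖ * ‖D.nZ u‖ := by
    have h := abs_real_inner_le_norm u (D.K (D.nZ u))
    have h' := mul_le_mul_of_nonneg_left (D.K_nZ_le u) hA0
    linarith
  have t2 : |∑ p ∈ D.J, ⟪D.K u - (D.X p).Kp u, D.nAp p u⟫|
      ≤ D.η * ‖u‖ * ∑ p ∈ D.J, ‖D.nAp p u‖ := by
    rw [Finset.mul_sum]
    refine (Finset.abs_sum_le_sum_abs _ _).trans (Finset.sum_le_sum ?_)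
    intro p hp
    exact (abs_real_inner_le_norm _ _).trans
      (mul_le_mul_of_nonneg_right (D.hKp p hp u) (norm_nonneg _))
  have t3 : |∑ p ∈ D.J, D.Fq p * ⟪D.K u - (D.X p).Kp u, D.Dp p u⟫|
      ≤ 2 * (D.η * ‖u‖ * ‖u‖) * ∑ p ∈ D.J, |D.Fq p| := by
    rw [Finset.mul_sum]
    refine (Finset.abs_sum_le_sum_abs _ _).trans (Finset.sum_le_sum ?_)
    intro p hp
    rw [abs_mul]
    have h1 := abs_real_inner_le_norm (D.K u - (D.X p).Kp u) (D.Dp p u)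
    have h2 : ‖D.Dp p u‖ ≤ 2 * ‖u‖ :=
      ((D.Dp p).le_opNorm u).trans (mul_le_mul_of_nonneg_right (D.hD1 p hp) hA0)
    have h3 := D.hKp p hp u
    have h4 : ‖D.K u - (D.X p).Kp u‖ * ‖D.Dp p u‖ ≤ (D.η * ‖u‖) * (2 * ‖u‖) :=
      mul_le_mul h3 h2 (norm_nonneg _) hηA
    have h5 : |⟪D.K u - (D.X p).Kp u, D.Dp p u⟫| ≤ 2 * (D.η * ‖u‖ * ‖u‖) := by linarith
    have h6 := mul_le_mul_of_nonneg_left h5 (abs_nonneg (D.Fq p))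
    linarith
  have t4 : |⟪u + D.K u, D.Er u⟫| ≤ 8 / 7 * (D.η * ‖u‖ * ‖u‖) := by
    have h1 := abs_real_inner_le_norm (u + D.K u) (D.Er u)
    have h2 : ‖u + D.K u‖ ≤ 8 / 7 * ‖u‖ := by
      have := norm_add_le u (D.K u)
      have := hKu u
      linarith
    have h3 : ‖u + D.K u‖ * ‖D.Er u‖ ≤ (8 / 7 * ‖u‖) * (D.η * ‖u‖) :=
      mul_le_mul h2 hEu (norm_nonneg _) (by positivity)
    linarith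
  have t5a : |⟪D.K (D.nZ u), D.nZ u⟫| ≤ D.η * ‖D.nZ u‖ * ‖D.nZ u‖ :=
    (abs_real_inner_le_norm _ _).trans
      (mul_le_mul_of_nonneg_right (D.K_nZ_le u) hZ0)
  have t5b : |⟪D.K (D.nZ u), D.no u⟫| ≤ D.η * ‖D.nZ u‖ * ‖D.no u‖ :=
    (abs_real_inner_le_norm _ _).trans
      (mul_le_mul_of_nonneg_right (D.K_nZ_le u) hO0)
  have t6a : |⟪D.nZ u, D.no u⟫| ≤ ‖D.nZ u‖ * ‖D.no u‖ := abs_real_inner_le_norm _ _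
  have t6b : |⟪D.K (D.no u), D.no u⟫| ≤ 1 / 7 * ‖D.no u‖ * ‖D.no u‖ :=
    (abs_real_inner_le_norm _ _).trans
      (mul_le_mul_of_nonneg_right (hKu _) hO0)
  -- the sizes
  have hg0 := D.g_pos
  have hgn := D.g_le_num
  have hSn := D.S_le_num
  have hS0 := D.S_pos
  have hPZ := D.PZ_le u
  have hP0 : 0 ≤ ‖D.PZ u‖ := norm_nonneg _
  have z1 : ‖D.nZ u‖ ≤ 2 / 1000 * ‖u‖ := by
    have h := D.nZ_le u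
    have h1 : 3 / 2 * D.a * ‖D.PZ u‖ ≤ 3 / 2 * (1 / 1000) * ‖u‖ :=
      mul_le_mul (by linarith [D.ha']) hPZ hP0 (by norm_num)
    have h2 : 8 / 5 * √D.g2 * ‖u‖ ≤ 8 / 5 * (2 / 10 ^ 8) * ‖u‖ :=
      mul_le_mul_of_nonneg_right (by linarith) hA0
    norm_num at h1 h2 ⊢
    linarith
  have z2 : ∑ p ∈ D.J, ‖D.nAp p u‖ ≤ 1 / 10 ^ 6 * ‖u‖ := by
    have h := D.sum_nAp_le u
    have h1 : 109 / 100 * √D.g2 * ‖D.PZ u‖ ≤ 109 / 100 * (2 / 10 ^ 8) * ‖u‖ :=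
      mul_le_mul (by linarith) hPZ hP0 (by norm_num)
    have h2 : 117 / 100 * D.S * ‖u‖ ≤ 117 / 100 * (2 / 10 ^ 13) * ‖u‖ :=
      mul_le_mul_of_nonneg_right (by linarith) hA0
    norm_num at h1 h2 ⊢
    linarith
  have z3 : ‖D.no u‖ ≤ 1 / 10 ^ 6 * ‖u‖ := by
    have h := D.no_le u
    have h1 : 11 / 10 * √D.g2 * ‖D.PZ u‖ ≤ 11 / 10 * (2 / 10 ^ 8) * ‖u‖ :=
      mul_le_mul (by linarith) hPZ hP0 (by norm_num)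
    have h2 : 321 / 100 * D.S * ‖u‖ ≤ 321 / 100 * (2 / 10 ^ 13) * ‖u‖ :=
      mul_le_mul_of_nonneg_right (by linarith) hA0
    norm_num at h1 h2 ⊢
    linarith
  have z4 : ∑ p ∈ D.J, |D.Fq p| ≤ 1 / 10 ^ 6 := by
    have h := D.sum_Fq_le
    norm_num at hSn ⊢
    linarith
  have hE0 : 0 ≤ D.η * ‖u‖ * ‖u‖ := mul_nonneg hηA hA0
  have w1 : D.η * ‖u‖ * ‖D.nZ u‖ ≤ 2 / 1000 * (D.η * ‖u‖ * ‖u‖) := by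
    have := mul_le_mul_of_nonneg_left z1 hηA
    linarith
  have w2 : D.η * ‖u‖ * ∑ p ∈ D.J, ‖D.nAp p u‖ ≤ 1 / 10 ^ 6 * (D.η * ‖u‖ * ‖u‖) := by
    have := mul_le_mul_of_nonneg_left z2 hηA
    linarith
  have w3 : 2 * (D.η * ‖u‖ * ‖u‖) * ∑ p ∈ D.J, |D.Fq p| ≤ 2 / 10 ^ 6 * (D.η * ‖u‖ * ‖u‖) := by
    have := mul_le_mul_of_nonneg_left z4 (mul_nonneg (by norm_num : (0 : ℝ) ≤ 2) hE0)
    linarith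
  have w5a : D.η * ‖D.nZ u‖ * ‖D.nZ u‖ ≤ 4 / 10 ^ 6 * (D.η * ‖u‖ * ‖u‖) := by
    have h1 : ‖D.nZ u‖ * ‖D.nZ u‖ ≤ (2 / 1000 * ‖u‖) * (2 / 1000 * ‖u‖) :=
      mul_le_mul z1 z1 hZ0 (by positivity)
    have := mul_le_mul_of_nonneg_left h1 hη
    norm_num at this ⊢
    linarith
  have w5b : D.η * ‖D.nZ u‖ * ‖D.no u‖ ≤ 2 / 10 ^ 9 * (D.η * ‖u‖ * ‖u‖) := by
    have h1 : ‖D.nZ u‖ * ‖D.no u‖ ≤ (2 / 1000 * ‖u‖) * (1 / 10 ^ 6 * ‖u‖) :=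
      mul_le_mul z1 z3 hO0 (by positivity)
    have := mul_le_mul_of_nonneg_left h1 hη
    norm_num at this ⊢
    linarith
  have a1 := abs_le.1 t1
  have a2 := abs_le.1 t2
  have a3 := abs_le.1 t3
  have a4 := abs_le.1 t4
  have a5 := abs_le.1 t5a
  have a5' := abs_le.1 t5b
  have a6 := abs_le.1 t6a
  have a6' := abs_le.1 t6b
  have hsq : D.η * ‖u‖ ^ 2 = D.η * ‖u‖ * ‖u‖ := by ring
  have hsq' : ‖D.no u‖ ^ 2 = ‖D.no u‖ * ‖D.no u‖ := by ring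
  have hno0 : 0 ≤ ‖D.no u‖ * ‖D.no u‖ := mul_nonneg hO0 hO0
  have hzo0 : 0 ≤ ‖D.nZ u‖ * ‖D.no u‖ := mul_nonneg hZ0 hO0
  rw [abs_le]
  constructor
  · rw [hsq', show 3 * D.η * ‖u‖ ^ 2 = 3 * (D.η * ‖u‖ * ‖u‖) by ring,
      show 2 * ‖D.nZ u‖ * ‖D.no u‖ = 2 * (‖D.nZ u‖ * ‖D.no u‖) by ring]
    linarith [a1.1, a2.1, a3.1, a4.1, a5.1, a5'.1, a6.1, a6'.1]
  · rw [hsq', show 3 * D.η * ‖u‖ ^ 2 = 3 * (D.η * ‖u‖ * ‖u‖) by ring,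
      show 2 * ‖D.nZ u‖ * ‖D.no u‖ = 2 * (‖D.nZ u‖ * ‖D.no u‖) by ring]
    linarith [a1.2, a2.2, a3.2, a4.2, a5.2, a5'.2, a6.2, a6'.2]

end PD

end

end QC49
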