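import Pool.Agent.Lib.MP_49c203_an.B.Bf

/-! # row qc-Bh : the exact main term (paper 3.3), first part

`nu_form` : `⟪u + K_p u, ν_c⟫ = ζ_c` (`⟪K_p u, ν_c⟫ = 0`).
`Bp_form` : `⟪u+K_pu, Bp_c⟫ = ∑_i (sg(c i)/kap_i)(1+k_i) y_i` (orthonormal `v`), `1+k_i = kap_i² + 2τ k_i` (`kap_sq`), so `= b_c + 2τ r_c`.
`Rv_form` : `⟪u+K_pu, Rv_c⟫ = ∑_i sg(c i) k_i/((1+k_i)kap_i) (1+k_i) y_i = r_c`.
`main_p` : `⟪u+K_pu, N_pu⟫ = ∑_c q_c [a d_c(-ζ_c + θ(b_c+2τ r_c)) - τa²θ z_c r_c]`, `q_c = ζ_c + θ b_c`, `(ζ+θb)(θb-ζ) = θ²b²-ζ²`.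
-/

set_option autoImplicit false

namespace QC49

noncomputable section

open scoped RealInnerProductSpace

variable {H : Type*} [NormedAddCommGroup H] [InnerProductSpace ℝ H]

namespace PD

variable (D : PD H)

private theorem Bh_Kp_apply (p : ℕ) (u : H) :
    (D.X p).Kp u = ∑ i, ((D.X p).k i * ⟪(D.X p).v i, u⟫) • (D.X p).v i := by
  unfold Pk.Kp
  rw [_root_.sum_apply]
  refine Finset.sum_congr rfl fun i _ => ?_
  simp [smul_smul]

private theorem Bh_form_v {p : ℕ} (hp : p ∈ D.J) (i : Fin (D.X p).n) (u : H) :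
    ⟪u + (D.X p).Kp u, (D.X p).v i⟫ = (1 + (D.X p).k i) * D.yy p i u := by
  have hv := D.hv p hp
  have hself : ⟪(D.X p).v i, (D.X p).v i⟫ = 1 := by
    rw [real_inner_self_eq_norm_sq, hv.1 i]; norm_num
  rw [inner_add_left, Bh_Kp_apply, sum_inner, Finset.sum_eq_single i]
  · rw [real_inner_smul_left, hself, real_inner_comm]
    unfold yy
    ring
  · intro j _ hj
    rw [real_inner_smul_left, hv.2 hj, mul_zero]
  · intro h
    exact absurd (Finset.mem_univ i) h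

theorem nu_form {p : ℕ} (hp : p ∈ D.J) (c : Fin (D.X p).n → Bool) (u : H) :
    ⟪u + (D.X p).Kp u, (D.X p).ν c⟫ = D.ze p c u := by
  rw [inner_add_left, Bh_Kp_apply, sum_inner, Finset.sum_eq_zero, add_zero]
  · unfold ze
    rw [real_inner_comm]
  · intro j _
    rw [real_inner_smul_left, real_inner_comm ((D.X p).ν c), D.hνv p hp c j, mul_zero]

private theorem Bh_b (p : ℕ) (c : Fin (D.X p).n → Bool) (u : H) :
    D.b p c u = ∑ i, (sg (c i) * (D.X p).kap i) * D.yy p i u := by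
  unfold b Pk.Bv
  rw [sum_inner]
  refine Finset.sum_congr rfl fun i _ => ?_
  rw [real_inner_smul_left]
  rfl

theorem Bp_form {p : ℕ} (hp : p ∈ D.J) (c : Fin (D.X p).n → Bool) (u : H) :
    ⟪u + (D.X p).Kp u, (D.X p).Bp c⟫ = D.b p c u + 2 * tau * D.rr p (D.X p).k c u := by
  rw [Bh_b]
  unfold Pk.Bp rr
  rw [inner_sum, Finset.mul_sum, ← Finset.sum_add_distrib]
  refine Finset.sum_congr rfl fun i _ => ?_
  rw [real_inner_smul_right, D.Bh_form_v hp]
  have h1 := D.kap_pos hp i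
  have h2 := D.kap_sq hp i
  have h3 : 1 + (D.X p).k i = (D.X p).kap i ^ 2 + 2 * tau * (D.X p).k i := by rw [h2]; ring
  rw [h3]
  field_simp

theorem Rv_form {p : ℕ} (hp : p ∈ D.J) (c : Fin (D.X p).n → Bool) (u : H) :
    ⟪u + (D.X p).Kp u, (D.X p).Rv c⟫ = D.rr p (D.X p).k c u := by
  unfold Pk.Rv rr
  rw [inner_sum]
  refine Finset.sum_congr rfl fun i _ => ?_
  rw [real_inner_smul_right, D.Bh_form_v hp]
  have h1 := D.kap_pos hp i
  have h2 := D.one_add_k hp i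
  have h3 : 1 + (D.X p).k i ≠ 0 := by linarith
  field_simp

private theorem Bh_q (p : ℕ) (c : Fin (D.X p).n → Bool) (u : H) :
    D.q p c u = D.ze p c u + (D.X p).th D.a * D.b p c u := by
  unfold q Pk.qv ze b
  rw [inner_add_left, real_inner_smul_left]

theorem main_p {p : ℕ} (hp : p ∈ D.J) (u : H) :
    2 * ⟪u + (D.X p).Kp u, (D.X p).Np D.a (D.al p) (D.sl p) u⟫
      = 2 * D.a * ∑ c, D.d p c * ((D.X p).th D.a ^ 2 * D.b p c u ^ 2 - D.ze p c u ^ 2)
        + 2 * tau * D.a * (D.X p).th D.a * ∑ c, (2 * D.d p c - D.a * D.z p c)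
            * D.rr p (D.X p).k c u * (D.ze p c u + (D.X p).th D.a * D.b p c u) := by
  have hN : (D.X p).Np D.a (D.al p) (D.sl p) u
      = ∑ c, D.q p c u • (D.X p).dirv D.a (D.al p) (D.sl p) c := by
    unfold Pk.Np
    rw [_root_.sum_apply]
    rfl
  rw [hN, inner_sum, Finset.mul_sum, Finset.mul_sum, Finset.mul_sum, ← Finset.sum_add_distrib]
  refine Finset.sum_congr rfl fun c _ => ?_
  rw [real_inner_smul_right]
  have hd : ⟪u + (D.X p).Kp u, (D.X p).dirv D.a (D.al p) (D.sl p) c⟫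
      = D.a * D.d p c * (-D.ze p c u + (D.X p).th D.a
          * (D.b p c u + 2 * tau * D.rr p (D.X p).k c u))
        - tau * D.a ^ 2 * (D.X p).th D.a * D.z p c * D.rr p (D.X p).k c u := by
    unfold Pk.dirv
    rw [inner_sub_right, real_inner_smul_right, real_inner_smul_right, inner_add_right,
      inner_neg_right, real_inner_smul_right, D.nu_form hp, D.Bp_form hp, D.Rv_form hp]
    rfl
  rw [hd, Bh_q]
  ring

end PD

end

end QC49
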