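import Pool.Agent.Lib.MP_49c203_an.B.Bb

/-! # row qc-Bk : the diagonal/off diagonal identity of the main term (paper 3.3, second part)

Notation `s = (D.X p).s`, `d,z,b,r` as in `Defs`.
`b² = ∑_{ij} c_i c_j kap_i kap_j y_i y_j` and `r b = ∑_{ij} c_i c_j (k_i/kap_i) kap_j y_i y_j` (`b_eq`, `rr`), so
LHS `= ∑_{ij} y_i y_j avg(c_i c_j ((2 s d + a s d²) kap_i kap_j + 2τ s (2d-az) (k_i/kap_i) kap_j))`.
Off diagonal: `Sp`.  Diagonal (`sg² = 1`, `(k_i/kap_i) kap_i = k_i`, `kap_i² = 1+(1-2τ)k_i`):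
 `2 s E[d](1+(1-2τ)k) + 4τ s E[d] k = 2 s E[d](1+k)`,
 `a s E[d²](1+(1-2τ)k) - 2τ a s E[z] k = a s E[d²](1+k) - 2τ a s k(E[d²]+E[z]) = a s E[d²](1+k) - τ a s α² k` (`avg_d_z`),
 sum `= 2 Fq (1+k_i) - τ a s α² k_i` since `Fq = s E[d] + ½ a s E[d²]`.
-/

set_option autoImplicit false

namespace QC49

noncomputable section

open scoped RealInnerProductSpace

variable {H : Type*} [NormedAddCommGroup H] [InnerProductSpace ℝ H]

theorem Bk_avg_sum {n m : ℕ} (f : Fin m → (Fin n → Bool) → ℝ) :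
    avg (fun c => ∑ i, f i c) = ∑ i, avg (fun c => f i c) := by
  unfold avg
  rw [Finset.sum_comm, Finset.sum_div]

theorem Bk_avg_mul {n : ℕ} (f : (Fin n → Bool) → ℝ) (x : ℝ) :
    avg (fun c => f c * x) = avg (fun c => f c) * x := by
  unfold avg
  rw [← Finset.sum_mul]
  ring

namespace PD

variable (D : PD H)

/-- the form `AA_p` -/
def AA (p : ℕ) (u : H) : ℝ :=
  2 * D.Fq p * (∑ i, D.yy p i u ^ 2 + D.dg p (D.X p).k u)
    - tau * D.a * (D.X p).s * D.al p ^ 2 * D.dg p (D.X p).k u + D.Sp p u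

/-- integrand of `Sij`, also for `i = j` -/
private def BkF (p : ℕ) (i j : Fin (D.X p).n) (c : Fin (D.X p).n → Bool) : ℝ :=
  sg (c i) * sg (c j) *
    ((2 * (D.X p).s * D.d p c + D.a * (D.X p).s * D.d p c ^ 2) * ((D.X p).kap i * (D.X p).kap j)
      + 2 * tau * (D.X p).s * (2 * D.d p c - D.a * D.z p c)
        * ((D.X p).k i / (D.X p).kap i * (D.X p).kap j))

private theorem Bk_term (p : ℕ) (c : Fin (D.X p).n → Bool) (u : H) :
    2 * (D.X p).s * (D.d p c * D.b p c u ^ 2)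
      + 2 * tau * (D.X p).s * ((2 * D.d p c - D.a * D.z p c)
          * D.rr p (D.X p).k c u * D.b p c u)
      + D.a * (D.X p).s * (D.d p c ^ 2 * D.b p c u ^ 2)
    = ∑ i, ∑ j, D.BkF p i j c * (D.yy p i u * D.yy p j u) := by
  have e1 : D.b p c u ^ 2 = ∑ i, ∑ j, sg (c i) * ((D.X p).kap i * D.yy p i u)
      * (sg (c j) * ((D.X p).kap j * D.yy p j u)) := by
    rw [D.b_eq, sq, Finset.sum_mul_sum]
  have e2 : D.rr p (D.X p).k c u * D.b p c u
      = ∑ i, ∑ j, (D.X p).k i / (D.X p).kap i * sg (c i) * D.yy p i u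
      * (sg (c j) * ((D.X p).kap j * D.yy p j u)) := by
    rw [D.b_eq, rr, Finset.sum_mul_sum]
  have e3 : 2 * (D.X p).s * (D.d p c * D.b p c u ^ 2)
      + 2 * tau * (D.X p).s * ((2 * D.d p c - D.a * D.z p c)
          * D.rr p (D.X p).k c u * D.b p c u)
      + D.a * (D.X p).s * (D.d p c ^ 2 * D.b p c u ^ 2)
      = (2 * (D.X p).s * D.d p c + D.a * (D.X p).s * D.d p c ^ 2) * D.b p c u ^ 2
      + (2 * tau * (D.X p).s * (2 * D.d p c - D.a * D.z p c))
        * (D.rr p (D.X p).k c u * D.b p c u) := by ring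
  rw [e3, e1, e2, Finset.mul_sum, Finset.mul_sum, ← Finset.sum_add_distrib]
  refine Finset.sum_congr rfl fun i _ => ?_
  rw [Finset.mul_sum, Finset.mul_sum, ← Finset.sum_add_distrib]
  refine Finset.sum_congr rfl fun j _ => ?_
  unfold BkF
  ring

private theorem Bk_diag {p : ℕ} (hp : p ∈ D.J) (i : Fin (D.X p).n) :
    avg (fun c => D.BkF p i i c) = 2 * D.Fq p * (1 + (D.X p).k i)
      - tau * D.a * (D.X p).s * D.al p ^ 2 * (D.X p).k i := by
  have hk := D.kap_sq hp i
  have hk0 := (D.kap_pos hp i).ne'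
  have h1 : ∀ c, D.BkF p i i c
      = D.d p c * (2 * (D.X p).s * (1 + (D.X p).k i))
        + D.d p c ^ 2 * (D.a * (D.X p).s * (1 + (1 - 2 * tau) * (D.X p).k i))
        + D.z p c * (-(2 * tau * D.a * (D.X p).s * (D.X p).k i)) := by
    intro c
    unfold BkF
    rw [sg_sq, ← sq ((D.X p).kap i), hk, div_mul_cancel₀ _ hk0]
    ring
  have h2 : avg (fun c => D.BkF p i i c)
      = avg (fun c => D.d p c) * (2 * (D.X p).s * (1 + (D.X p).k i))
        + avg (fun c => D.d p c ^ 2) * (D.a * (D.X p).s * (1 + (1 - 2 * tau) * (D.X p).k i))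
        + avg (fun c => D.z p c) * (-(2 * tau * D.a * (D.X p).s * (D.X p).k i)) := by
    simp only [h1]
    unfold avg
    rw [Finset.sum_add_distrib, Finset.sum_add_distrib, ← Finset.sum_mul, ← Finset.sum_mul,
      ← Finset.sum_mul]
    ring
  have h3 := D.avg_d_z p
  have h4 : D.Fq p = (D.X p).s * avg (fun c => D.d p c)
      + 1 / 2 * D.a * (D.X p).s * avg (fun c => D.d p c ^ 2) := rfl
  rw [h2, h4]
  linear_combination (-(2 * tau * D.a * (D.X p).s * (D.X p).k i)) * h3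

theorem AA_eq {p : ℕ} (hp : p ∈ D.J) (u : H) :
    2 * (D.X p).s * avg (fun c => D.d p c * D.b p c u ^ 2)
      + 2 * tau * (D.X p).s * avg (fun c => (2 * D.d p c - D.a * D.z p c)
          * D.rr p (D.X p).k c u * D.b p c u)
      + D.a * (D.X p).s * avg (fun c => D.d p c ^ 2 * D.b p c u ^ 2) = D.AA p u := by
  have h1 : 2 * (D.X p).s * avg (fun c => D.d p c * D.b p c u ^ 2)
      + 2 * tau * (D.X p).s * avg (fun c => (2 * D.d p c - D.a * D.z p c)
          * D.rr p (D.X p).k c u * D.b p c u)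
      + D.a * (D.X p).s * avg (fun c => D.d p c ^ 2 * D.b p c u ^ 2)
      = avg (fun c => 2 * (D.X p).s * (D.d p c * D.b p c u ^ 2)
      + 2 * tau * (D.X p).s * ((2 * D.d p c - D.a * D.z p c)
          * D.rr p (D.X p).k c u * D.b p c u)
      + D.a * (D.X p).s * (D.d p c ^ 2 * D.b p c u ^ 2)) := by
    unfold avg
    rw [Finset.sum_add_distrib, Finset.sum_add_distrib, ← Finset.mul_sum, ← Finset.mul_sum,
      ← Finset.mul_sum]
    ring
  rw [h1]
  simp only [D.Bk_term]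
  rw [Bk_avg_sum]
  simp only [Bk_avg_sum, Bk_avg_mul]
  have h2 : ∀ i : Fin (D.X p).n,
      ∑ j, avg (fun c => D.BkF p i j c) * (D.yy p i u * D.yy p j u)
      = avg (fun c => D.BkF p i i c) * D.yy p i u ^ 2
        + ∑ j, if i = j then 0 else D.Sij p i j * D.yy p i u * D.yy p j u := by
    intro i
    have h3 : ∀ j : Fin (D.X p).n, avg (fun c => D.BkF p i j c) * (D.yy p i u * D.yy p j u)
        = (if i = j then avg (fun c => D.BkF p i i c) * D.yy p i u ^ 2 else 0)
          + (if i = j then 0 else D.Sij p i j * D.yy p i u * D.yy p j u) := by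
      intro j
      by_cases hij : i = j
      · subst hij
        rw [if_pos rfl, if_pos rfl]
        ring
      · rw [if_neg hij, if_neg hij]
        have : D.Sij p i j = avg (fun c => D.BkF p i j c) := rfl
        rw [this]
        ring
    simp only [h3]
    rw [Finset.sum_add_distrib]
    simp
  simp only [h2]
  rw [Finset.sum_add_distrib]
  unfold AA Sp dg
  simp only [D.Bk_diag hp]
  have h5 : ∑ i, (2 * D.Fq p * (1 + (D.X p).k i)
      - tau * D.a * (D.X p).s * D.al p ^ 2 * (D.X p).k i) * D.yy p i u ^ 2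
      = 2 * D.Fq p * (∑ i, D.yy p i u ^ 2 + ∑ i, (D.X p).k i * D.yy p i u ^ 2)
        - tau * D.a * (D.X p).s * D.al p ^ 2 * ∑ i, (D.X p).k i * D.yy p i u ^ 2 := by
    rw [← Finset.sum_add_distrib, Finset.mul_sum, Finset.mul_sum, ← Finset.sum_sub_distrib]
    refine Finset.sum_congr rfl fun i _ => ?_
    ring
  rw [h5]

end PD

end

end QC49
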