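import Pool.Agent.Lib.MP_49c203_an.B.Ba
import Pool.Agent.Lib.MP_49c203_an.B.Bh
import Pool.Agent.Lib.MP_49c203_an.B.Bk

/-! # row qc-Bi : the main term (paper 3.3), assembly

`MM = ∑_p [2a∑ d(θ²b²-ζ²) + 2τaθ∑(2d-az) r(ζ+θb) + a²∑ d²(ζ+θb)²]` by `main_p` and `nZ_sq`, `q_eq`.
For each `p` the bracket is
 `[2aθ²∑ d b² + 2τaθ²∑(2d-az) r b + a²θ²∑ d²b²] + Cp k + Zp`, and the first bracket is the left side of `AA_eq` because `aθ² 2^n = s`
 (`th_sq`, `avg t = (∑ t)/2^n`).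
-/

set_option autoImplicit false

namespace QC49

noncomputable section

open scoped RealInnerProductSpace

variable {H : Type*} [NormedAddCommGroup H] [InnerProductSpace ℝ H]

namespace PD

variable (D : PD H)

theorem MM_eq (u : H) :
    D.MM u = ∑ p ∈ D.J, (D.AA p u + D.Cp p (D.X p).k u + D.Zp p u) := by
  unfold MM
  rw [D.nZ_sq u, ← Finset.sum_add_distrib]
  refine Finset.sum_congr rfl fun p hp => ?_
  rw [D.main_p hp u, ← D.AA_eq hp u]
  have hth := D.th_sq hp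
  have ha := D.ha
  set θ := (D.X p).th D.a with hθ
  have h2 : ((2:ℝ) ^ (D.X p).n) ≠ 0 := by positivity
  have hs : (D.X p).s = D.a * θ ^ 2 * 2 ^ (D.X p).n := by
    rw [← hth]; ring
  have e1 : 2 * (D.X p).s * avg (fun c => D.d p c * D.b p c u ^ 2)
      = 2 * D.a * θ ^ 2 * ∑ c, D.d p c * D.b p c u ^ 2 := by
    unfold avg; rw [hs]; field_simp
  have e2 : 2 * tau * (D.X p).s
        * avg (fun c => (2 * D.d p c - D.a * D.z p c) * D.rr p (D.X p).k c u * D.b p c u)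
      = 2 * tau * D.a * θ ^ 2
        * ∑ c, (2 * D.d p c - D.a * D.z p c) * D.rr p (D.X p).k c u * D.b p c u := by
    unfold avg; rw [hs]; field_simp
  have e3 : D.a * (D.X p).s * avg (fun c => D.d p c ^ 2 * D.b p c u ^ 2)
      = D.a ^ 2 * θ ^ 2 * ∑ c, D.d p c ^ 2 * D.b p c u ^ 2 := by
    unfold avg; rw [hs]; field_simp
  rw [e1, e2, e3]
  unfold Cp Zp
  simp only [D.q_eq]
  simp only [← hθ]
  simp only [Finset.mul_sum, ← Finset.sum_add_distrib]
  refine Finset.sum_congr rfl fun c _ => ?_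
  ring

end PD

end

end QC49
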