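import Pool.Agent.Lib.MP_49c203_an.B.Bb

/-! # row qc-Bj : Hilbert-Schmidt size of `S_p`

`S_ij = kap_i kap_j X1_ij + (k_i/kap_i) kap_j X2_ij` with `X1_ij = avg (c_i c_j t1)`, `t1 = 2 s d + a s d²`,
`X2_ij = avg (c_i c_j t2)`, `t2 = 2τ s (2d - a z)`.
`|kap_i kap_j| ≤ 8/7`, `|k_i/kap_i · kap_j| ≤ (1/7)(1.0802)(1.0691) ≤ 0.166`.
`(x+y)² ≤ (1+ε)x²+(1+1/ε)y²` with `ε = 1/10` : `S_ij² ≤ 1.1 (8/7)² X1² + 11 (0.166)² X2²`.
`sign_bessel` : `∑_{i≠j} X1² ≤ 2 avg t1² ≤ 2 (2.001 s α)²`, `∑_{i≠j} X2² ≤ 2 avg t2² ≤ 2 (0.0626 s α)²` (`dz_abs_le`, `τ = 1/64`).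
Sum `≤ (1.1·1.3062·8.01 + 11·0.0276·0.0079)(sα)² ≤ 11.6 (sα)² ≤ 16 (s α)²`.
-/

set_option autoImplicit false

namespace QC49

noncomputable section

open scoped RealInnerProductSpace

variable {H : Type*} [NormedAddCommGroup H] [InnerProductSpace ℝ H]

theorem Bj_avg_le {n : ℕ} (f : (Fin n → Bool) → ℝ) (B : ℝ) (h : ∀ c, f c ≤ B) : avg f ≤ B := by
  unfold avg
  rw [div_le_iff₀ (by positivity)]
  calc ∑ c, f c ≤ ∑ _c : Fin n → Bool, B := Finset.sum_le_sum fun c _ => h c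
    _ = B * 2 ^ n := by
      simp [Finset.sum_const, Finset.card_univ, mul_comm]

theorem Bj_avg_lin {n : ℕ} (f g : (Fin n → Bool) → ℝ) (x y : ℝ) :
    avg (fun c => f c * x + g c * y) = x * avg f + y * avg g := by
  unfold avg
  rw [Finset.sum_add_distrib, ← Finset.sum_mul, ← Finset.sum_mul]
  ring

namespace PD

variable (D : PD H)

theorem Sij_bound {p : ℕ} (hp : p ∈ D.J) :
    ∑ i, ∑ j, (if i = j then 0 else D.Sij p i j ^ 2) ≤ (4 * ((D.X p).s * D.al p)) ^ 2 := by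
  set s := (D.X p).s with hs
  set α := D.al p with hα
  have hs0 : 0 < s := D.hs p hp
  have hα0 : 0 < α := D.hal p hp
  have hα1 : α ≤ 1 := D.hal' p hp
  have ha0 := D.ha
  have ha1 := D.ha'
  set t1 : (Fin (D.X p).n → Bool) → ℝ := fun c => 2 * s * D.d p c + D.a * s * D.d p c ^ 2 with ht1
  set t2 : (Fin (D.X p).n → Bool) → ℝ := fun c => 2 * tau * s * (2 * D.d p c - D.a * D.z p c)
    with ht2
  set X1 : Fin (D.X p).n → Fin (D.X p).n → ℝ := fun i j => avg (fun c => sg (c i) * sg (c j) * t1 c)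
    with hX1
  set X2 : Fin (D.X p).n → Fin (D.X p).n → ℝ := fun i j => avg (fun c => sg (c i) * sg (c j) * t2 c)
    with hX2
  have hsα : 0 < s * α := mul_pos hs0 hα0
  -- pointwise bounds
  have b1 : ∀ c, t1 c ^ 2 ≤ (2001 / 1000 * (s * α)) ^ 2 := by
    intro c
    have h1 : |D.d p c| ≤ α := D.d_abs_le hp c
    have h2 : D.d p c ^ 2 ≤ α ^ 2 := D.d_sq_le hp c
    have h3 : D.d p c ^ 2 ≤ α := by nlinarith
    apply sq_le_sq'
    · have := (abs_le.1 h1).1
      have h4 : 0 ≤ D.a * s * D.d p c ^ 2 := by positivity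
      have h5 : -(s * α) ≤ s * D.d p c := by nlinarith
      simp only [ht1]
      nlinarith
    · have := (abs_le.1 h1).2
      have h4 : D.a * s * D.d p c ^ 2 ≤ 1 / 1000 * s * α := by
        have : D.a * s ≤ 1 / 1000 * s := by nlinarith
        exact mul_le_mul this h3 (sq_nonneg _) (by positivity)
      have h5 : s * D.d p c ≤ s * α := by nlinarith
      simp only [ht1]
      nlinarith
  have b2 : ∀ c, t2 c ^ 2 ≤ (626 / 10000 * (s * α)) ^ 2 := by
    intro c
    have h1 := abs_le.1 (D.dz_abs_le hp c)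
    have e : t2 c = 1 / 32 * (s * (2 * D.d p c - D.a * D.z p c)) := by
      simp only [ht2, tau_eq]; ring
    rw [e]
    apply sq_le_sq'
    · have h5 : -(s * (20005 / 10000 * α)) ≤ s * (2 * D.d p c - D.a * D.z p c) := by nlinarith [h1.1]
      nlinarith
    · have h5 : s * (2 * D.d p c - D.a * D.z p c) ≤ s * (20005 / 10000 * α) := by nlinarith [h1.2]
      nlinarith
  have s1 := (sign_bessel t1).trans
    (mul_le_mul_of_nonneg_left (Bj_avg_le (fun c => t1 c ^ 2) _ b1) (by norm_num))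
  have s2 := (sign_bessel t2).trans
    (mul_le_mul_of_nonneg_left (Bj_avg_le (fun c => t2 c ^ 2) _ b2) (by norm_num))
  have key : ∀ i j, (if i = j then 0 else D.Sij p i j ^ 2) ≤
      11 / 10 * (8 / 7) ^ 2 * (if i = j then 0 else X1 i j ^ 2)
        + 11 * (4 / 147) * (if i = j then 0 else X2 i j ^ 2) := by
    intro i j
    by_cases hij : i = j
    · simp [hij]
    · rw [if_neg hij, if_neg hij, if_neg hij]
      have e : D.Sij p i j = ((D.X p).kap i * (D.X p).kap j) * X1 i j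
          + ((D.X p).k i / (D.X p).kap i * (D.X p).kap j) * X2 i j := by
        simp only [hX1, hX2]
        rw [← Bj_avg_lin]
        unfold Sij
        congr 1
        funext c
        simp only [ht1, ht2]
        ring
      rw [e]
      have k1 : ((D.X p).kap i * (D.X p).kap j) ^ 2 ≤ (8 / 7) ^ 2 := by
        rw [mul_pow, pow_two (8 / 7 : ℝ)]
        exact mul_le_mul (D.kap_sq_le hp i) (D.kap_sq_le hp j) (sq_nonneg _) (by norm_num)
      have k2 : ((D.X p).k i / (D.X p).kap i * (D.X p).kap j) ^ 2 ≤ 4 / 147 := by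
        rw [mul_pow, div_pow]
        have h1 := D.kap_sq_ge hp i
        have h2 := D.kap_sq_le hp j
        have h3 : (D.X p).k i ^ 2 ≤ (1 / 7) ^ 2 := by
          have := abs_le.1 (D.hk p hp i)
          apply sq_le_sq' <;> linarith [this.1, this.2]
        have h4 : (D.X p).k i ^ 2 / (D.X p).kap i ^ 2 ≤ 1 / 42 := by
          rw [div_le_iff₀ (by linarith)]
          nlinarith
        calc (D.X p).k i ^ 2 / (D.X p).kap i ^ 2 * (D.X p).kap j ^ 2 ≤ 1 / 42 * (8 / 7) :=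
              mul_le_mul h4 h2 (sq_nonneg _) (by norm_num)
          _ = 4 / 147 := by norm_num
      set P := (D.X p).kap i * (D.X p).kap j
      set Q := (D.X p).k i / (D.X p).kap i * (D.X p).kap j
      have h1 : (P * X1 i j + Q * X2 i j) ^ 2
          ≤ 11 / 10 * (P * X1 i j) ^ 2 + 11 * (Q * X2 i j) ^ 2 := by
        nlinarith [sq_nonneg (P * X1 i j / 10 - Q * X2 i j)]
      have h2 : (P * X1 i j) ^ 2 ≤ (8 / 7) ^ 2 * X1 i j ^ 2 := by
        rw [mul_pow]
        exact mul_le_mul_of_nonneg_right k1 (sq_nonneg _)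
      have h3 : (Q * X2 i j) ^ 2 ≤ 4 / 147 * X2 i j ^ 2 := by
        rw [mul_pow]
        exact mul_le_mul_of_nonneg_right k2 (sq_nonneg _)
      linarith
  have tot : ∑ i, ∑ j, (if i = j then 0 else D.Sij p i j ^ 2) ≤
      11 / 10 * (8 / 7) ^ 2 * (∑ i, ∑ j, (if i = j then 0 else X1 i j ^ 2))
        + 11 * (4 / 147) * (∑ i, ∑ j, (if i = j then 0 else X2 i j ^ 2)) := by
    rw [Finset.mul_sum, Finset.mul_sum, ← Finset.sum_add_distrib]
    apply Finset.sum_le_sum
    intro i _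
    rw [Finset.mul_sum, Finset.mul_sum, ← Finset.sum_add_distrib]
    exact Finset.sum_le_sum fun j _ => key i j
  have hfin := sq_nonneg (s * α)
  nlinarith
end PD

end

end QC49
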