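import Pool.Agent.Lib.MP_49c203_an.B.Bg
import Pool.Agent.Lib.MP_49c203_an.B.Bi

/-! # row qc-Bl : splitting `(1+F')² K' = M + Rem` (paper 3.4)

`lam_eq` : `lam p = pp p (1+2FF) - τ a s α²` (`S_mul_pp`).  `lam_ge` : `τ a S α ≤ 1/100`, `|FF| ≤ 10⁻⁶` (`FF_small`).
`sum_lam` : `∑ pp = 1`, `∑ pp·S·a·α = g2`.
`split_main` (exact algebra, with `A² = ‖u‖²`, `Y_p = ∑_i yy²`, `κ = k`): by `MM_eq` and the definition of `AA`
 `A²+⟪Ku,u⟫+MM+2∑Fq⟪u,D_pu⟫ - (1+FF)²A² = ∑ lam dg(k) + ∑Sp + ∑Cp(k) + ∑Zp + 2∑Fq(⟪u,D_pu⟫ - (A²-Y_p)) - FF²A² + E2`, where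
 `E2 = ∑ pp(⟪Ku,u⟫-dg(k)) + ∑ 2Fq(dg(k)-⟪Ku,u⟫) + 2FF(⟪Ku,u⟫ - ∑ pp dg(k))`.
`E2_bound` : `|⟪Ku,u⟫ - dg_p(k)| = |⟪(K-K_p)u,u⟫| ≤ ηA²` (`Kp_form`, `hKp`), `∑pp = 1`, `∑|Fq| ≤ 1.001 S`: `|E2| ≤ (1+4.004 S)ηA² ≤ 1.1ηA²`.
`dg`, `Cp` are linear in `κ`: `k = rk + qk`.
`rem_bound` : combine with `E1_bound`: `(1+FF)² K'(u) = G' - (1+FF)²A²` (`1+FF ≠ 0`).
-/

set_option autoImplicit false

namespace QC49

noncomputable section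

open scoped RealInnerProductSpace

variable {H : Type*} [NormedAddCommGroup H] [InnerProductSpace ℝ H]

namespace PD

variable (D : PD H)

theorem lam_eq (p : ℕ) :
    D.lam p = D.pp p * (1 + 2 * D.FF) - tau * D.a * (D.X p).s * D.al p ^ 2 := by
  have h := D.S_mul_pp p
  unfold lam
  linear_combination (-(tau * D.a * D.al p)) * h

theorem lam_ge {p : ℕ} (hp : p ∈ D.J) : 9 / 10 * D.pp p ≤ D.lam p := by
  have h1 := D.pp_pos hp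
  have h2 := abs_le.1 D.FF_small
  have h3 := D.S_pos
  have h4 := D.S_le_num
  have h5 := D.hal p hp
  have h6 := D.hal' p hp
  have h7 := D.ha
  have h8 := D.ha'
  have h9 : D.a * D.S ≤ 1 / 1000 * (2 / 10 ^ 13) := mul_le_mul h8 h4 h3.le (by norm_num)
  have h10 : 0 ≤ D.a * D.S := by positivity
  have h11 : D.a * D.S * D.al p ≤ 1 / 1000 * (2 / 10 ^ 13) * 1 :=
    mul_le_mul h9 h6 h5.le (by norm_num)
  unfold lam
  rw [mul_comm (9 / 10 : ℝ)]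
  apply mul_le_mul_of_nonneg_left _ h1.le
  rw [tau_eq]
  linarith [h2.1]

theorem lam_le {p : ℕ} (hp : p ∈ D.J) : D.lam p ≤ 101 / 100 * D.pp p := by
  have h1 := D.pp_pos hp
  have h2 := abs_le.1 D.FF_small
  have h3 := D.S_pos
  have h5 := D.hal p hp
  have h7 := D.ha
  have h11 : 0 ≤ D.a * D.S * D.al p := by positivity
  unfold lam
  rw [mul_comm (101 / 100 : ℝ)]
  apply mul_le_mul_of_nonneg_left _ h1.le
  rw [tau_eq]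
  linarith [h2.2]

theorem sum_lam : ∑ p ∈ D.J, D.lam p = 1 + 2 * D.FF - tau * D.g2 := by
  have h : ∑ p ∈ D.J, D.lam p
      = ∑ p ∈ D.J, (D.pp p * (1 + 2 * D.FF) - tau * (D.a * (D.X p).s * D.al p ^ 2)) :=
    Finset.sum_congr rfl fun p _ => by rw [D.lam_eq p]; ring
  rw [h, Finset.sum_sub_distrib, ← Finset.sum_mul, D.sum_pp, ← Finset.mul_sum]
  unfold g2
  ring

theorem one_add_FF_pos : 0 < 1 + D.FF := by
  have h2 := abs_le.1 D.FF_small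
  linarith [h2.1]

theorem dg_split (w : ℝ) (p : ℕ) (u : H) :
    D.dg p (D.X p).k u = D.dg p (D.rk w p) u + D.dg p (D.qk w p) u := by
  unfold dg qk
  rw [← Finset.sum_add_distrib]
  exact Finset.sum_congr rfl fun i _ => by ring

theorem Cp_split (w : ℝ) (p : ℕ) (u : H) :
    D.Cp p (D.X p).k u = D.Cp p (D.rk w p) u + D.Cp p (D.qk w p) u := by
  have h : ∀ c, D.rr p (D.X p).k c u = D.rr p (D.rk w p) c u + D.rr p (D.qk w p) c u := by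
    intro c
    unfold rr qk
    rw [← Finset.sum_add_distrib]
    exact Finset.sum_congr rfl fun i _ => by ring
  unfold Cp
  rw [← mul_add, ← Finset.sum_add_distrib]
  congr 1
  exact Finset.sum_congr rfl fun c _ => by rw [h c]; ring

def E2 (u : H) : ℝ :=
  ∑ p ∈ D.J, D.pp p * (⟪D.K u, u⟫ - D.dg p (D.X p).k u)
    + ∑ p ∈ D.J, 2 * D.Fq p * (D.dg p (D.X p).k u - ⟪D.K u, u⟫)
    + 2 * D.FF * (⟪D.K u, u⟫ - ∑ p ∈ D.J, D.pp p * D.dg p (D.X p).k u)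

theorem split_main (u : H) :
    ‖u‖ ^ 2 + ⟪D.K u, u⟫ + D.MM u + 2 * ∑ p ∈ D.J, D.Fq p * ⟪u, D.Dp p u⟫ - (1 + D.FF) ^ 2 * ‖u‖ ^ 2
      = ∑ p ∈ D.J, D.lam p * D.dg p (D.X p).k u + ∑ p ∈ D.J, D.Sp p u
        + ∑ p ∈ D.J, D.Cp p (D.X p).k u + ∑ p ∈ D.J, D.Zp p u
        + 2 * ∑ p ∈ D.J, D.Fq p * (⟪u, D.Dp p u⟫ - (‖u‖ ^ 2 - ∑ i, D.yy p i u ^ 2))
        - D.FF ^ 2 * ‖u‖ ^ 2 + D.E2 u := by
  have hFF : ∑ p ∈ D.J, D.Fq p = D.FF := rfl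
  have h1 : D.MM u = 2 * ∑ p ∈ D.J, D.Fq p * ∑ i, D.yy p i u ^ 2
      + 2 * ∑ p ∈ D.J, D.Fq p * D.dg p (D.X p).k u
      - ∑ p ∈ D.J, tau * D.a * (D.X p).s * D.al p ^ 2 * D.dg p (D.X p).k u
      + ∑ p ∈ D.J, D.Sp p u + ∑ p ∈ D.J, D.Cp p (D.X p).k u + ∑ p ∈ D.J, D.Zp p u := by
    rw [D.MM_eq u]
    simp only [Finset.mul_sum, ← Finset.sum_add_distrib, ← Finset.sum_sub_distrib]
    refine Finset.sum_congr rfl fun p _ => ?_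
    unfold AA
    rw [← Finset.mul_sum, ← Finset.mul_sum]
    ring
  have h2 : ∑ p ∈ D.J, D.lam p * D.dg p (D.X p).k u
      = (1 + 2 * D.FF) * ∑ p ∈ D.J, D.pp p * D.dg p (D.X p).k u
        - ∑ p ∈ D.J, tau * D.a * (D.X p).s * D.al p ^ 2 * D.dg p (D.X p).k u := by
    rw [Finset.mul_sum, ← Finset.sum_sub_distrib]
    exact Finset.sum_congr rfl fun p _ => by rw [D.lam_eq p]; ring
  have h3 : ∑ p ∈ D.J, D.Fq p * (⟪u, D.Dp p u⟫ - (‖u‖ ^ 2 - ∑ i, D.yy p i u ^ 2))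
      = ∑ p ∈ D.J, D.Fq p * ⟪u, D.Dp p u⟫ - D.FF * ‖u‖ ^ 2
        + ∑ p ∈ D.J, D.Fq p * ∑ i, D.yy p i u ^ 2 := by
    rw [← hFF, Finset.sum_mul, ← Finset.sum_sub_distrib, ← Finset.sum_add_distrib]
    exact Finset.sum_congr rfl fun p _ => by ring
  have h4 : ∑ p ∈ D.J, D.pp p * (⟪D.K u, u⟫ - D.dg p (D.X p).k u)
      = ⟪D.K u, u⟫ - ∑ p ∈ D.J, D.pp p * D.dg p (D.X p).k u := by
    have e : ⟪D.K u, u⟫ = ∑ p ∈ D.J, D.pp p * ⟪D.K u, u⟫ := by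
      rw [← Finset.sum_mul, D.sum_pp, one_mul]
    rw [e, ← Finset.sum_sub_distrib]
    exact Finset.sum_congr rfl fun p _ => by rw [← e]; ring
  have h5 : ∑ p ∈ D.J, 2 * D.Fq p * (D.dg p (D.X p).k u - ⟪D.K u, u⟫)
      = 2 * ∑ p ∈ D.J, D.Fq p * D.dg p (D.X p).k u - 2 * D.FF * ⟪D.K u, u⟫ := by
    rw [← hFF, Finset.mul_sum, Finset.mul_sum, Finset.sum_mul, ← Finset.sum_sub_distrib]
    exact Finset.sum_congr rfl fun p _ => by ring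
  unfold E2
  rw [h1, h2, h3, h4, h5]
  ring

theorem E2_bound (u : H) : |D.E2 u| ≤ 11 / 10 * D.η * ‖u‖ ^ 2 := by
  have hu : 0 ≤ ‖u‖ ^ 2 := by positivity
  have hη := D.hη
  have hb : 0 ≤ D.η * ‖u‖ ^ 2 := mul_nonneg hη hu
  have h1 : ∀ p ∈ D.J, |⟪D.K u, u⟫ - D.dg p (D.X p).k u| ≤ D.η * ‖u‖ ^ 2 := by
    intro p hp
    rw [← D.Kp_form p u, ← inner_sub_left]
    calc |⟪D.K u - (D.X p).Kp u, u⟫| ≤ ‖D.K u - (D.X p).Kp u‖ * ‖u‖ := abs_real_inner_le_norm _ _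
      _ ≤ D.η * ‖u‖ * ‖u‖ := mul_le_mul_of_nonneg_right (D.hKp p hp u) (norm_nonneg _)
      _ = D.η * ‖u‖ ^ 2 := by ring
  have h2 : |∑ p ∈ D.J, D.pp p * (⟪D.K u, u⟫ - D.dg p (D.X p).k u)| ≤ D.η * ‖u‖ ^ 2 := by
    refine (Finset.abs_sum_le_sum_abs _ _).trans ?_
    calc ∑ p ∈ D.J, |D.pp p * (⟪D.K u, u⟫ - D.dg p (D.X p).k u)|
        ≤ ∑ p ∈ D.J, D.pp p * (D.η * ‖u‖ ^ 2) := by
          refine Finset.sum_le_sum fun p hp => ?_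
          rw [abs_mul, abs_of_nonneg (D.pp_nonneg hp)]
          exact mul_le_mul_of_nonneg_left (h1 p hp) (D.pp_nonneg hp)
      _ = D.η * ‖u‖ ^ 2 := by rw [← Finset.sum_mul, D.sum_pp, one_mul]
  have h3 : |∑ p ∈ D.J, 2 * D.Fq p * (D.dg p (D.X p).k u - ⟪D.K u, u⟫)|
      ≤ 2 * (1001 / 1000 * D.S) * (D.η * ‖u‖ ^ 2) := by
    refine (Finset.abs_sum_le_sum_abs _ _).trans ?_
    calc ∑ p ∈ D.J, |2 * D.Fq p * (D.dg p (D.X p).k u - ⟪D.K u, u⟫)|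
        ≤ ∑ p ∈ D.J, 2 * |D.Fq p| * (D.η * ‖u‖ ^ 2) := by
          refine Finset.sum_le_sum fun p hp => ?_
          rw [abs_mul, abs_mul, abs_two, abs_sub_comm]
          exact mul_le_mul_of_nonneg_left (h1 p hp) (by positivity)
      _ = 2 * (∑ p ∈ D.J, |D.Fq p|) * (D.η * ‖u‖ ^ 2) := by
          rw [← Finset.sum_mul, ← Finset.mul_sum]
      _ ≤ 2 * (1001 / 1000 * D.S) * (D.η * ‖u‖ ^ 2) :=
          mul_le_mul_of_nonneg_right (mul_le_mul_of_nonneg_left D.sum_Fq_le (by norm_num)) hb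
  have h4 : ⟪D.K u, u⟫ - ∑ p ∈ D.J, D.pp p * D.dg p (D.X p).k u
      = ∑ p ∈ D.J, D.pp p * (⟪D.K u, u⟫ - D.dg p (D.X p).k u) := by
    have e : ⟪D.K u, u⟫ = ∑ p ∈ D.J, D.pp p * ⟪D.K u, u⟫ := by
      rw [← Finset.sum_mul, D.sum_pp, one_mul]
    rw [e, ← Finset.sum_sub_distrib]
    exact Finset.sum_congr rfl fun p _ => by rw [← e]; ring
  have h5 : |2 * D.FF * (⟪D.K u, u⟫ - ∑ p ∈ D.J, D.pp p * D.dg p (D.X p).k u)|
      ≤ 2 * (1001 / 1000 * D.S) * (D.η * ‖u‖ ^ 2) := by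
    rw [h4, abs_mul, abs_mul, abs_two]
    have := D.S_pos
    exact mul_le_mul (mul_le_mul_of_nonneg_left D.FF_le (by norm_num)) h2 (abs_nonneg _)
      (by positivity)
  have h6 : D.S * (D.η * ‖u‖ ^ 2) ≤ 2 / 10 ^ 13 * (D.η * ‖u‖ ^ 2) :=
    mul_le_mul_of_nonneg_right D.S_le_num hb
  unfold E2
  refine (abs_add_three _ _ _).trans ?_
  linarith

/-- the remainder without the small errors -/
def Rem0 (w : ℝ) (u : H) : ℝ :=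
  ∑ p ∈ D.J, D.lam p * D.dg p (D.rk w p) u + ∑ p ∈ D.J, D.Cp p (D.rk w p) u
    + ∑ p ∈ D.J, D.Zp p u
    + 2 * ∑ p ∈ D.J, D.Fq p * (⟪u, D.Dp p u⟫ - (‖u‖ ^ 2 - ∑ i, D.yy p i u ^ 2))
    - D.FF ^ 2 * ‖u‖ ^ 2

theorem rem_bound (w : ℝ) (u : H) :
    |(1 + D.FF) ^ 2 * D.K' u - D.M w u - D.Rem0 w u|
      ≤ 41 / 10 * D.η * ‖u‖ ^ 2 + 2 * ‖D.nZ u‖ * ‖D.no u‖ + 8 / 7 * ‖D.no u‖ ^ 2 := by
  have h0 := D.one_add_FF_pos
  have h1 : (1 + D.FF) ^ 2 * D.K' u = D.G' u - (1 + D.FF) ^ 2 * ‖u‖ ^ 2 := by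
    unfold K' G'
    have : (1 + D.FF) ^ 2 ≠ 0 := by positivity
    field_simp
  have h2 := D.split_main u
  have h3 : ∑ p ∈ D.J, D.lam p * D.dg p (D.X p).k u
      = ∑ p ∈ D.J, D.lam p * D.dg p (D.rk w p) u + ∑ p ∈ D.J, D.lam p * D.dg p (D.qk w p) u := by
    rw [← Finset.sum_add_distrib]
    exact Finset.sum_congr rfl fun p _ => by rw [D.dg_split w p u]; ring
  have h4 : ∑ p ∈ D.J, D.Cp p (D.X p).k u
      = ∑ p ∈ D.J, D.Cp p (D.rk w p) u + ∑ p ∈ D.J, D.Cp p (D.qk w p) u := by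
    rw [← Finset.sum_add_distrib]
    exact Finset.sum_congr rfl fun p _ => D.Cp_split w p u
  have h5 := D.E1_bound u
  have h6 := D.E2_bound u
  rw [h3, h4] at h2
  have h7 : (1 + D.FF) ^ 2 * D.K' u - D.M w u - D.Rem0 w u
      = (D.G' u - (‖u‖ ^ 2 + ⟪D.K u, u⟫ + D.MM u + 2 * ∑ p ∈ D.J, D.Fq p * ⟪u, D.Dp p u⟫))
        + D.E2 u := by
    rw [h1]
    unfold M Rem0
    linarith
  rw [h7]
  refine (abs_add_le _ _).trans ?_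
  linarith

end PD

end

end QC49
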