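import Pool.Agent.Lib.MP_49c203_an.B.Bl

/-! # row qc-Bm : the `R` and `D` terms (paper 3.5)

`u = u1 + ẑ`, `ẑ = PZ u`, `u1 = u - PZ u`, `A² = ‖u1‖² + ‖ẑ‖²` (`PZ_pyth`).
`v_PZ` : `R_p ẑ := ∑ rk_i y_i(ẑ) v_i` has `‖R_pẑ‖² = ∑ rk_i² y_i(ẑ)² ≤ ∑ k_i² y_i(ẑ)² = ‖K_pẑ‖²` (`|rk| ≤ |k|`, as `w ≥ 0`), and
 `‖K_pẑ‖ ≤ ‖Kẑ‖ + η‖ẑ‖ ≤ 2η‖ẑ‖` (`K_PZ_le`, `hKp`).
`dg_rk_le` : `dg(rk)(u) = dg(rk)(u1) + 2 ∑ rk_i y_i(ẑ) y_i(u1) + ∑ rk_i y_i(ẑ)²`; `|rk_i| ≤ w`; Cauchy-Schwarz: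
 `|..| ≤ w ∑ y_i(u1)² + 2·2η‖ẑ‖‖u1‖ + 2η‖ẑ‖² ≤ w∑ y_i(u1)² + 3.24 ηA²`   (`4zx+2z² ≤ 3.24(x²+z²)`).
`defect_le` : `Y^⊥_p(u) := ‖u‖²-∑yy² = ‖u - Pr u‖²` (`sub_Pr_sq`), `≤ 2‖u1-Pr u1‖² + 2‖ẑ - Pr ẑ‖² ≤ 2 Y^⊥_p(u1) + 2‖ẑ‖²`.
`RD_bound` : per `p`: `lam dg(rk) ≤ lam w ∑y_i(u1)² + 3.24 lam ηA²`, `2|Fq||⟪u,D_pu⟫ - Y^⊥| ≤ 6|Fq|Y^⊥(u)` (`Dp_form`)
 `≤ 6·1.001·S·pp·(2Y^⊥(u1)+2‖ẑ‖²) ≤ 12.1 S pp Y^⊥(u1) + 12.1 S pp ‖ẑ‖²` and `12.1 S pp ≤ lam w`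
 (`lam ≥ 0.9 pp`, `w ≥ 1000a`, `S ≤ 2a³/10⁴`), so sum `≤ lam w‖u1‖² + 12.1 S pp‖ẑ‖² + 3.24 lam ηA²`; sum over `p` with `sum_lam ≤ 1.01`.
-/

set_option autoImplicit false

namespace QC49

noncomputable section

open scoped RealInnerProductSpace

variable {H : Type*} [NormedAddCommGroup H] [InnerProductSpace ℝ H]

namespace PD

variable (D : PD H)

theorem Kp_PZ_le {p : ℕ} (hp : p ∈ D.J) (u : H) :
    ‖(D.X p).Kp (D.PZ u)‖ ≤ 2 * D.η * ‖D.PZ u‖ := by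
  have h1 := D.K_PZ_le u
  have h2 := D.hKp p hp (D.PZ u)
  have h3 : (D.X p).Kp (D.PZ u) = D.K (D.PZ u) - (D.K (D.PZ u) - (D.X p).Kp (D.PZ u)) := by abel
  have h4 : ‖(D.X p).Kp (D.PZ u)‖ ≤ ‖D.K (D.PZ u)‖ + ‖D.K (D.PZ u) - (D.X p).Kp (D.PZ u)‖ := by
    conv_lhs => rw [h3]
    exact norm_sub_le _ _
  linarith

theorem rk_abs_le {w : ℝ} (hw : 0 ≤ w) (p : ℕ) (i : Fin (D.X p).n) : |D.rk w p i| ≤ w := by
  unfold rk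
  rw [abs_le]
  exact ⟨le_max_left _ _, max_le (by linarith) (min_le_left _ _)⟩

theorem rk_abs_le_k {w : ℝ} (hw : 0 ≤ w) (p : ℕ) (i : Fin (D.X p).n) :
    |D.rk w p i| ≤ |(D.X p).k i| := by
  unfold rk
  rw [abs_le]
  constructor
  · refine le_max_of_le_right (le_min ?_ (neg_abs_le _))
    have := abs_nonneg ((D.X p).k i)
    linarith
  · refine max_le ?_ ((min_le_right _ _).trans (le_abs_self _))
    have := abs_nonneg ((D.X p).k i)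
    linarith

theorem rk_PZ {w : ℝ} (hw : 0 ≤ w) {p : ℕ} (hp : p ∈ D.J) (u : H) :
    √(∑ i, (D.rk w p i * D.yy p i (D.PZ u)) ^ 2) ≤ 2 * D.η * ‖D.PZ u‖ := by
  refine le_trans ?_ (D.Kp_PZ_le hp u)
  have h1 : (D.X p).Kp (D.PZ u)
      = ∑ i, ((D.X p).k i * D.yy p i (D.PZ u)) • (D.X p).v i := by
    rw [D.Kp_apply]
    exact Finset.sum_congr rfl fun i _ => by rw [smul_smul]
  have h2 : ‖(D.X p).Kp (D.PZ u)‖ ^ 2 = ∑ i, ((D.X p).k i * D.yy p i (D.PZ u)) ^ 2 := by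
    rw [h1]; exact D.v_sum_sq hp _
  rw [Real.sqrt_le_left (norm_nonneg _), h2]
  refine Finset.sum_le_sum fun i _ => ?_
  rw [mul_pow, mul_pow]
  refine mul_le_mul_of_nonneg_right ?_ (sq_nonneg _)
  rw [← sq_abs (D.rk w p i), ← sq_abs ((D.X p).k i)]
  exact pow_le_pow_left₀ (abs_nonneg _) (D.rk_abs_le_k hw p i) 2

theorem dg_rk_le {w : ℝ} (hw : 0 ≤ w) {p : ℕ} (hp : p ∈ D.J) (u : H) :
    |D.dg p (D.rk w p) u|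
      ≤ w * ∑ i, D.yy p i (u - D.PZ u) ^ 2 + 324 / 100 * D.η * ‖u‖ ^ 2 := by
  set x := u - D.PZ u with hx
  set z := D.PZ u with hz
  have hu : u = x + z := by rw [hx]; abel
  have hyy : ∀ i, D.yy p i u = D.yy p i x + D.yy p i z := by
    intro i
    unfold yy
    rw [← inner_add_right, ← hu]
  have hexp : D.dg p (D.rk w p) u = ∑ i, D.rk w p i * D.yy p i x ^ 2
      + 2 * ∑ i, (D.rk w p i * D.yy p i z) * D.yy p i x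
      + ∑ i, (D.rk w p i * D.yy p i z) * D.yy p i z := by
    unfold dg
    rw [Finset.mul_sum, ← Finset.sum_add_distrib, ← Finset.sum_add_distrib]
    refine Finset.sum_congr rfl fun i _ => ?_
    rw [hyy i]; ring
  have hR := D.rk_PZ hw hp u
  rw [← hz] at hR
  have hcs : ∀ t : Fin (D.X p).n → ℝ, |∑ i, (D.rk w p i * D.yy p i z) * t i|
      ≤ √(∑ i, (D.rk w p i * D.yy p i z) ^ 2) * √(∑ i, t i ^ 2) := by
    intro t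
    rw [← Real.sqrt_mul (Finset.sum_nonneg fun i _ => sq_nonneg _)]
    refine Real.abs_le_sqrt ?_
    exact Finset.sum_mul_sq_le_sq_mul_sq _ _ _
  have hsx : √(∑ i, D.yy p i x ^ 2) ≤ ‖x‖ := by
    rw [Real.sqrt_le_left (norm_nonneg _)]; exact D.yy_bessel hp x
  have hsz : √(∑ i, D.yy p i z ^ 2) ≤ ‖z‖ := by
    rw [Real.sqrt_le_left (norm_nonneg _)]; exact D.yy_bessel hp z
  have hη := D.hη
  have h2ez : 0 ≤ 2 * D.η * ‖z‖ := by positivity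
  have h1 : |∑ i, D.rk w p i * D.yy p i x ^ 2| ≤ w * ∑ i, D.yy p i x ^ 2 := by
    rw [Finset.mul_sum]
    refine (Finset.abs_sum_le_sum_abs _ _).trans (Finset.sum_le_sum fun i _ => ?_)
    rw [abs_mul, abs_of_nonneg (sq_nonneg (D.yy p i x))]
    exact mul_le_mul_of_nonneg_right (D.rk_abs_le hw p i) (sq_nonneg _)
  have h2 : |∑ i, (D.rk w p i * D.yy p i z) * D.yy p i x| ≤ 2 * D.η * ‖z‖ * ‖x‖ :=
    (hcs _).trans (mul_le_mul hR hsx (Real.sqrt_nonneg _) h2ez)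
  have h3 : |∑ i, (D.rk w p i * D.yy p i z) * D.yy p i z| ≤ 2 * D.η * ‖z‖ * ‖z‖ :=
    (hcs _).trans (mul_le_mul hR hsz (Real.sqrt_nonneg _) h2ez)
  have h4 : ‖u‖ ^ 2 = ‖x‖ ^ 2 + ‖z‖ ^ 2 := D.PZ_pyth u
  have h5 : 4 * (‖z‖ * ‖x‖) + 2 * ‖z‖ ^ 2 ≤ 324 / 100 * ‖u‖ ^ 2 := by
    rw [h4]
    nlinarith [sq_nonneg (324 * ‖x‖ - 200 * ‖z‖), sq_nonneg ‖z‖]
  have h6 : 4 * (D.η * ‖z‖ * ‖x‖) + 2 * D.η * ‖z‖ ^ 2 ≤ 324 / 100 * D.η * ‖u‖ ^ 2 := by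
    have := mul_le_mul_of_nonneg_left h5 hη
    nlinarith [this]
  rw [hexp]
  have h7 : |∑ i, D.rk w p i * D.yy p i x ^ 2
      + 2 * ∑ i, (D.rk w p i * D.yy p i z) * D.yy p i x
      + ∑ i, (D.rk w p i * D.yy p i z) * D.yy p i z|
      ≤ |∑ i, D.rk w p i * D.yy p i x ^ 2| + 2 * |∑ i, (D.rk w p i * D.yy p i z) * D.yy p i x|
      + |∑ i, (D.rk w p i * D.yy p i z) * D.yy p i z| := by
    refine (abs_add_le _ _).trans (add_le_add_left ?_ _)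
    refine (abs_add_le _ _).trans (add_le_add_right (le_of_eq ?_) _)
    rw [abs_mul, abs_of_pos (by norm_num : (0 : ℝ) < 2)]
  nlinarith [h7, h1, h2, h3, h6]

theorem defect_le {p : ℕ} (hp : p ∈ D.J) (u : H) :
    ‖u‖ ^ 2 - ∑ i, D.yy p i u ^ 2
      ≤ 2 * (‖u - D.PZ u‖ ^ 2 - ∑ i, D.yy p i (u - D.PZ u) ^ 2) + 2 * ‖D.PZ u‖ ^ 2 := by
  rw [← D.sub_Pr_sq hp u, ← D.sub_Pr_sq hp (u - D.PZ u)]
  have h1 : u - (D.X p).Pr u = (u - D.PZ u - (D.X p).Pr (u - D.PZ u))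
      + (D.PZ u - (D.X p).Pr (D.PZ u)) := by
    rw [map_sub]; abel
  have h2 : ‖D.PZ u - (D.X p).Pr (D.PZ u)‖ ^ 2 ≤ ‖D.PZ u‖ ^ 2 := by
    rw [D.sub_Pr_sq hp]
    have : 0 ≤ ∑ i, D.yy p i (D.PZ u) ^ 2 := Finset.sum_nonneg fun i _ => sq_nonneg _
    linarith
  have h3 := norm_add_le (u - D.PZ u - (D.X p).Pr (u - D.PZ u)) (D.PZ u - (D.X p).Pr (D.PZ u))
  rw [← h1] at h3
  have h4 := pow_le_pow_left₀ (norm_nonneg _) h3 2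
  nlinarith [h4, h2, sq_nonneg (‖u - D.PZ u - (D.X p).Pr (u - D.PZ u)‖
    - ‖D.PZ u - (D.X p).Pr (D.PZ u)‖)]

theorem RD_bound {w : ℝ} (hw : 1000 * D.a ≤ w) (u : H) :
    |∑ p ∈ D.J, D.lam p * D.dg p (D.rk w p) u
        + 2 * ∑ p ∈ D.J, D.Fq p * (⟪u, D.Dp p u⟫ - (‖u‖ ^ 2 - ∑ i, D.yy p i u ^ 2))|
      ≤ (1 + 2 * D.FF - tau * D.g2) * w * ‖u - D.PZ u‖ ^ 2 + 121 / 10 * D.S * ‖D.PZ u‖ ^ 2
        + 4 * D.η * ‖u‖ ^ 2 := by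
  have ha := D.ha
  have ha' := D.ha'
  have hη := D.hη
  have hw0 : 0 ≤ w := le_trans (by positivity) hw
  set x := u - D.PZ u with hx
  set z := D.PZ u with hz
  have hS := D.S_le
  have hSp := D.S_pos
  have key : ∀ p ∈ D.J, |D.lam p * D.dg p (D.rk w p) u
      + 2 * (D.Fq p * (⟪u, D.Dp p u⟫ - (‖u‖ ^ 2 - ∑ i, D.yy p i u ^ 2)))|
      ≤ D.lam p * w * ‖x‖ ^ 2 + 121 / 10 * D.S * D.pp p * ‖z‖ ^ 2
        + 4 * D.pp p * D.η * ‖u‖ ^ 2 := by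
    intro p hp
    have hpp := D.pp_nonneg hp
    have hl1 := D.lam_ge hp
    have hl2 := D.lam_le hp
    have hl0 : 0 ≤ D.lam p := by linarith
    have hY1 : ∑ i, D.yy p i x ^ 2 ≤ ‖x‖ ^ 2 := D.yy_bessel hp x
    have h1 := D.dg_rk_le hw0 hp u
    have h2 := D.Dp_form hp u
    have h3 := D.defect_le hp u
    rw [← hx] at h1 h3
    rw [← hz] at h3
    have h4 := D.Fq_le hp
    rw [← D.S_mul_pp p] at h4
    have hd0 : 0 ≤ ‖u‖ ^ 2 - ∑ i, D.yy p i u ^ 2 := by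
      have := D.yy_bessel hp u
      linarith
    set Y1 := ∑ i, D.yy p i x ^ 2 with hY1d
    set dfc := ‖u‖ ^ 2 - ∑ i, D.yy p i u ^ 2 with hdfc
    have h5 : |⟪u, D.Dp p u⟫ - dfc| ≤ 3 * dfc := by
      rw [abs_le] at h2 ⊢
      constructor <;> linarith [h2.1, h2.2]
    have h6 : |D.Fq p * (⟪u, D.Dp p u⟫ - dfc)| ≤ 1001 / 1000 * (D.S * D.pp p) * (3 * dfc) := by
      rw [abs_mul]
      exact mul_le_mul h4 h5 (abs_nonneg _) (by positivity)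
    have h7 : |D.lam p * D.dg p (D.rk w p) u|
        ≤ D.lam p * (w * Y1 + 324 / 100 * D.η * ‖u‖ ^ 2) := by
      rw [abs_mul, abs_of_nonneg hl0]
      exact mul_le_mul_of_nonneg_left h1 hl0
    have h8 : |D.lam p * D.dg p (D.rk w p) u + 2 * (D.Fq p * (⟪u, D.Dp p u⟫ - dfc))|
        ≤ |D.lam p * D.dg p (D.rk w p) u| + 2 * |D.Fq p * (⟪u, D.Dp p u⟫ - dfc)| := by
      refine (abs_add_le _ _).trans (add_le_add_right (le_of_eq ?_) _)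
      rw [abs_mul, abs_of_pos (by norm_num : (0 : ℝ) < 2)]
    -- replace the defect
    have hSpp : 0 ≤ D.S * D.pp p := by positivity
    have h9 : 1001 / 1000 * (D.S * D.pp p) * (3 * dfc)
        ≤ 1001 / 1000 * (D.S * D.pp p) * (3 * (2 * (‖x‖ ^ 2 - Y1) + 2 * ‖z‖ ^ 2)) := by
      refine mul_le_mul_of_nonneg_left ?_ (by positivity)
      linarith
    have h10 : 121 / 10 * (D.S * D.pp p) ≤ D.lam p * w := by
      have e1 : 121 / 10 * D.S ≤ 900 * D.a := by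
        have : D.a ^ 3 ≤ D.a * 1 := by nlinarith [sq_nonneg D.a, mul_pos ha ha]
        linarith
      have e2 : 9 / 10 * D.pp p * (1000 * D.a) ≤ D.lam p * w :=
        mul_le_mul hl1 hw (by positivity) hl0
      have e3 : D.pp p * (121 / 10 * D.S) ≤ D.pp p * (900 * D.a) :=
        mul_le_mul_of_nonneg_left e1 hpp
      linarith
    have h11 : 121 / 10 * (D.S * D.pp p) * (‖x‖ ^ 2 - Y1) ≤ D.lam p * w * (‖x‖ ^ 2 - Y1) :=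
      mul_le_mul_of_nonneg_right h10 (by linarith)
    have h12 : D.lam p * (324 / 100 * D.η * ‖u‖ ^ 2) ≤ 4 * D.pp p * D.η * ‖u‖ ^ 2 := by
      have e1 : 0 ≤ D.η * ‖u‖ ^ 2 := by positivity
      nlinarith [mul_le_mul_of_nonneg_right hl2 e1, mul_nonneg hpp e1]
    have h13 : 0 ≤ D.S * D.pp p * (‖x‖ ^ 2 - Y1) := mul_nonneg hSpp (by linarith)
    have h14 : 0 ≤ D.S * D.pp p * ‖z‖ ^ 2 := by positivity
    nlinarith [h6, h7, h8, h9, h11, h12, h13, h14]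
  have hsum : |∑ p ∈ D.J, D.lam p * D.dg p (D.rk w p) u
        + 2 * ∑ p ∈ D.J, D.Fq p * (⟪u, D.Dp p u⟫ - (‖u‖ ^ 2 - ∑ i, D.yy p i u ^ 2))|
      ≤ ∑ p ∈ D.J, (D.lam p * w * ‖x‖ ^ 2 + 121 / 10 * D.S * D.pp p * ‖z‖ ^ 2
        + 4 * D.pp p * D.η * ‖u‖ ^ 2) := by
    rw [Finset.mul_sum, ← Finset.sum_add_distrib]
    exact (Finset.abs_sum_le_sum_abs _ _).trans (Finset.sum_le_sum key)
  refine hsum.trans (le_of_eq ?_)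
  rw [Finset.sum_add_distrib, Finset.sum_add_distrib, ← Finset.sum_mul, ← Finset.sum_mul,
    ← Finset.sum_mul, ← Finset.sum_mul, ← Finset.sum_mul, ← Finset.mul_sum, ← Finset.mul_sum,
    D.sum_lam, D.sum_pp]
  ring

end PD

end

end QC49
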