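import Pool.Agent.Lib.MP_49c203_an.B.Bm
import Pool.Agent.Lib.MP_49c203_an.B.Bn

/-! # row qc-Bo : the terms `C_p^R` and `Z_p` (paper 3.5)

`CR_bound` : `rr p rk c u = rr p rk c u1 + rr p rk c ẑ`.  `∑_c rr(u1)² = 2^n ∑ (rk_i/kap_i)² y_i(u1)² ≤ 2^n (1.0802 w)² ‖u1‖²` (`sum_rr_sq`,
 `yy_bessel`), `∑_c rr(ẑ)² ≤ 2^n (1.0802)² ∑ (rk_i y_i(ẑ))² ≤ 2^n(1.0802·2η‖ẑ‖)²` (`rk_PZ`).  So by Cauchy-Schwarz, `dz_abs_le`, `aθ√(2^n) = √(a s)`:
 `|Cp p rk u| ≤ 2τ·2.0005·1.0802·α√(a s)(w‖u1‖ + 2η‖ẑ‖) √zz_p ≤ 4.3219 τ α√(a s)√zz_p (w‖u1‖+2η‖ẑ‖)`.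
 Sum over `p` by Cauchy-Schwarz: `≤ 4.3219 τ g ‖ẑ‖ (w‖u1‖+2η‖ẑ‖)`, and
 `4.3219 τ w g‖ẑ‖‖u1‖ ≤ w(½τ g²‖u1‖² + ½·4.3219²·τ‖ẑ‖²)`, `½·18.679/64 = 0.1460 ≤ 0.147`; the `η` term is `≤ 0.1η‖u‖²` (`g_le_num`).
`Zp_bound` : `|2a∑dζ²| ≤ 2a zz`, `|a²∑d²ζ²| ≤ a² zz`, `|2a²θ∑d²bζ| ≤ 2a²θα² √(∑b²)√zz ≤ 2a²α²√(8/7)√(s/a)‖u‖√zz ≤ 2.14 a·α√(a s)‖u‖√zz` (`th_b_sq`, `α² ≤ α`,
 `a√(s/a) = √(a s)`); sum over `p` by Cauchy-Schwarz.
-/

set_option autoImplicit false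

namespace QC49

noncomputable section

open scoped RealInnerProductSpace

variable {H : Type*} [NormedAddCommGroup H] [InnerProductSpace ℝ H]

namespace PD

variable (D : PD H)

private theorem Bo_rr_add (p : ℕ) (κ : Fin (D.X p).n → ℝ) (c : Fin (D.X p).n → Bool) (u v : H) :
    D.rr p κ c (u + v) = D.rr p κ c u + D.rr p κ c v := by
  unfold rr yy
  rw [← Finset.sum_add_distrib]
  apply Finset.sum_congr rfl
  intro i _
  rw [inner_add_right]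
  ring

/-- `a θ √(2^n) = √(a s)` -/
private theorem Bo_ath {p : ℕ} (hp : p ∈ D.J) :
    D.a * (D.X p).th D.a * √(2 ^ (D.X p).n) = √(D.a * (D.X p).s) := by
  have ha := D.ha
  have hs := D.hs p hp
  have h2 : (0 : ℝ) < 2 ^ (D.X p).n := by positivity
  unfold Pk.th
  have e1 : D.a * √((D.X p).s / (D.a * 2 ^ (D.X p).n))
      = √(D.a ^ 2 * ((D.X p).s / (D.a * 2 ^ (D.X p).n))) := by
    rw [Real.sqrt_mul (sq_nonneg _), Real.sqrt_sq ha.le]
  rw [e1, ← Real.sqrt_mul (by positivity)]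
  congr 1
  field_simp

/-- `a √(s/a) = √(a s)` -/
private theorem Bo_asa {p : ℕ} (hp : p ∈ D.J) :
    D.a * √((D.X p).s / D.a) = √(D.a * (D.X p).s) := by
  have ha := D.ha
  have hs := D.hs p hp
  have h1 : D.a * (D.X p).s = D.a ^ 2 * ((D.X p).s / D.a) := by field_simp
  rw [h1, Real.sqrt_mul (by positivity), Real.sqrt_sq ha.le]

theorem sum_g_zz (u : H) :
    ∑ p ∈ D.J, D.al p * √(D.a * (D.X p).s) * √(D.zz p u) ≤ √D.g2 * ‖D.PZ u‖ := by
  have h := Real.sum_mul_le_sqrt_mul_sqrt D.J (fun p => D.al p * √(D.a * (D.X p).s))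
    (fun p => √(D.zz p u))
  have h1 : ∑ p ∈ D.J, (D.al p * √(D.a * (D.X p).s)) ^ 2 = D.g2 := by
    unfold g2
    apply Finset.sum_congr rfl
    intro p hp
    have hs := D.hs p hp
    have ha := D.ha
    rw [mul_pow, Real.sq_sqrt (by positivity)]
    ring
  have h2 : ∑ p ∈ D.J, √(D.zz p u) ^ 2 = ‖D.PZ u‖ ^ 2 := by
    rw [D.PZ_sq]
    apply Finset.sum_congr rfl
    intro p _
    rw [Real.sq_sqrt (D.zz_nonneg p u)]
  rw [h1, h2, Real.sqrt_sq (norm_nonneg _)] at h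
  exact h

/-- bound for the sum over the signs of the squares of `rr` -/
private theorem Bo_rr_le {w : ℝ} {p : ℕ} (hp : p ∈ D.J) (x : H) {B : ℝ} (hB : 0 ≤ B)
    (h : ∑ i, (D.rk w p i * D.yy p i x) ^ 2 ≤ B ^ 2) :
    √(∑ c, D.rr p (D.rk w p) c x ^ 2) ≤ √(2 ^ (D.X p).n) * (10802 / 10000 * B) := by
  rw [D.sum_rr_sq, Real.sqrt_mul (by positivity)]
  apply mul_le_mul_of_nonneg_left _ (Real.sqrt_nonneg _)
  apply Real.sqrt_le_iff.2
  refine ⟨by positivity, ?_⟩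
  have h1 : ∀ i ∈ (Finset.univ : Finset (Fin (D.X p).n)),
      (D.rk w p i / (D.X p).kap i) ^ 2 * D.yy p i x ^ 2
        ≤ (10802 / 10000) ^ 2 * (D.rk w p i * D.yy p i x) ^ 2 := by
    intro i _
    have hk := D.kap_inv_le hp i
    have hk0 := D.kap_pos hp i
    have hk1 : 0 < ((D.X p).kap i)⁻¹ := inv_pos.2 hk0
    have hk2 : ((D.X p).kap i)⁻¹ ^ 2 ≤ (10802 / 10000 : ℝ) ^ 2 := pow_le_pow_left₀ hk1.le hk 2
    have : (D.rk w p i / (D.X p).kap i) ^ 2 * D.yy p i x ^ 2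
        = ((D.X p).kap i)⁻¹ ^ 2 * (D.rk w p i * D.yy p i x) ^ 2 := by
      rw [div_eq_mul_inv]; ring
    rw [this]
    exact mul_le_mul_of_nonneg_right hk2 (sq_nonneg _)
  calc ∑ i, (D.rk w p i / (D.X p).kap i) ^ 2 * D.yy p i x ^ 2
      ≤ ∑ i, (10802 / 10000) ^ 2 * (D.rk w p i * D.yy p i x) ^ 2 := Finset.sum_le_sum h1
    _ = (10802 / 10000) ^ 2 * ∑ i, (D.rk w p i * D.yy p i x) ^ 2 := by rw [Finset.mul_sum]
    _ ≤ (10802 / 10000) ^ 2 * B ^ 2 := mul_le_mul_of_nonneg_left h (by positivity)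
    _ = (10802 / 10000 * B) ^ 2 := by ring

private theorem Bo_rr_u1 {w : ℝ} (hw : 0 ≤ w) {p : ℕ} (hp : p ∈ D.J) (x : H) :
    √(∑ c, D.rr p (D.rk w p) c x ^ 2) ≤ √(2 ^ (D.X p).n) * (10802 / 10000 * (w * ‖x‖)) := by
  apply D.Bo_rr_le hp x (by positivity)
  calc ∑ i, (D.rk w p i * D.yy p i x) ^ 2
      ≤ ∑ i, w ^ 2 * D.yy p i x ^ 2 := by
        apply Finset.sum_le_sum
        intro i _
        rw [mul_pow]
        apply mul_le_mul_of_nonneg_right _ (sq_nonneg _)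
        rw [← sq_abs]
        exact pow_le_pow_left₀ (abs_nonneg _) (D.rk_abs_le hw p i) 2
    _ = w ^ 2 * ∑ i, D.yy p i x ^ 2 := by rw [Finset.mul_sum]
    _ ≤ w ^ 2 * ‖x‖ ^ 2 := mul_le_mul_of_nonneg_left (D.yy_bessel hp x) (sq_nonneg _)
    _ = (w * ‖x‖) ^ 2 := by ring

private theorem Bo_rr_z {w : ℝ} (hw : 0 ≤ w) {p : ℕ} (hp : p ∈ D.J) (u : H) :
    √(∑ c, D.rr p (D.rk w p) c (D.PZ u) ^ 2)
      ≤ √(2 ^ (D.X p).n) * (10802 / 10000 * (2 * D.η * ‖D.PZ u‖)) := by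
  have hη := D.hη
  apply D.Bo_rr_le hp _ (by positivity)
  have h := D.rk_PZ hw hp u
  have h0 : 0 ≤ ∑ i, (D.rk w p i * D.yy p i (D.PZ u)) ^ 2 :=
    Finset.sum_nonneg fun i _ => sq_nonneg _
  calc ∑ i, (D.rk w p i * D.yy p i (D.PZ u)) ^ 2
      = √(∑ i, (D.rk w p i * D.yy p i (D.PZ u)) ^ 2) ^ 2 := (Real.sq_sqrt h0).symm
    _ ≤ (2 * D.η * ‖D.PZ u‖) ^ 2 := pow_le_pow_left₀ (Real.sqrt_nonneg _) h 2

/-- Cauchy-Schwarz with absolute values -/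
private theorem Bo_cs (p : ℕ) (f : (Fin (D.X p).n → Bool) → ℝ) (u : H) :
    ∑ c, |f c| * |D.ze p c u| ≤ √(∑ c, f c ^ 2) * √(D.zz p u) := by
  have h := Real.sum_mul_le_sqrt_mul_sqrt (Finset.univ : Finset (Fin (D.X p).n → Bool))
    (fun c => |f c|) (fun c => |D.ze p c u|)
  simp only [sq_abs] at h
  exact h

theorem CpR_le {w : ℝ} (hw : 0 ≤ w) {p : ℕ} (hp : p ∈ D.J) (u : H) :
    |D.Cp p (D.rk w p) u| ≤ 4322 / 1000 * tau * (D.al p * √(D.a * (D.X p).s) * √(D.zz p u))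
      * (w * ‖u - D.PZ u‖ + 2 * D.η * ‖D.PZ u‖) := by
  have ha := D.ha
  have hal := D.hal p hp
  have hη := D.hη
  have hth := D.th_nonneg p
  have htau : (0 : ℝ) < tau := by rw [tau_eq]; norm_num
  set u1 := u - D.PZ u with hu1
  set zh := D.PZ u with hzh
  set A := w * ‖u1‖ + 2 * D.η * ‖zh‖ with hA
  have hA0 : 0 ≤ A := by positivity
  have hsum : ∑ c, |D.rr p (D.rk w p) c u| * |D.ze p c u|
      ≤ √(2 ^ (D.X p).n) * (10802 / 10000 * A) * √(D.zz p u) := by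
    have e1 : ∀ c, |D.rr p (D.rk w p) c u| * |D.ze p c u|
        ≤ |D.rr p (D.rk w p) c u1| * |D.ze p c u| + |D.rr p (D.rk w p) c zh| * |D.ze p c u| := by
      intro c
      have e2 : D.rr p (D.rk w p) c u = D.rr p (D.rk w p) c u1 + D.rr p (D.rk w p) c zh := by
        rw [← D.Bo_rr_add]
        congr 1
        rw [hu1, hzh]; abel
      rw [e2, ← add_mul]
      exact mul_le_mul_of_nonneg_right (abs_add_le _ _) (abs_nonneg _)
    have e3 := D.Bo_cs p (fun c => D.rr p (D.rk w p) c u1) u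
    have e4 := D.Bo_cs p (fun c => D.rr p (D.rk w p) c zh) u
    have e5 := D.Bo_rr_u1 hw hp u1
    have e6 := D.Bo_rr_z hw hp u
    rw [← hzh] at e6
    have hz0 : 0 ≤ √(D.zz p u) := Real.sqrt_nonneg _
    calc ∑ c, |D.rr p (D.rk w p) c u| * |D.ze p c u|
        ≤ ∑ c, (|D.rr p (D.rk w p) c u1| * |D.ze p c u|
            + |D.rr p (D.rk w p) c zh| * |D.ze p c u|) := Finset.sum_le_sum fun c _ => e1 c
      _ = ∑ c, |D.rr p (D.rk w p) c u1| * |D.ze p c u|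
            + ∑ c, |D.rr p (D.rk w p) c zh| * |D.ze p c u| := Finset.sum_add_distrib
      _ ≤ √(∑ c, D.rr p (D.rk w p) c u1 ^ 2) * √(D.zz p u)
            + √(∑ c, D.rr p (D.rk w p) c zh ^ 2) * √(D.zz p u) := add_le_add e3 e4
      _ ≤ √(2 ^ (D.X p).n) * (10802 / 10000 * (w * ‖u1‖)) * √(D.zz p u)
            + √(2 ^ (D.X p).n) * (10802 / 10000 * (2 * D.η * ‖zh‖)) * √(D.zz p u) :=
          add_le_add (mul_le_mul_of_nonneg_right e5 hz0) (mul_le_mul_of_nonneg_right e6 hz0)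
      _ = √(2 ^ (D.X p).n) * (10802 / 10000 * A) * √(D.zz p u) := by rw [hA]; ring
  have hC : |∑ c, (2 * D.d p c - D.a * D.z p c) * D.rr p (D.rk w p) c u * D.ze p c u|
      ≤ 20005 / 10000 * D.al p * (√(2 ^ (D.X p).n) * (10802 / 10000 * A) * √(D.zz p u)) := by
    calc |∑ c, (2 * D.d p c - D.a * D.z p c) * D.rr p (D.rk w p) c u * D.ze p c u|
        ≤ ∑ c, |(2 * D.d p c - D.a * D.z p c) * D.rr p (D.rk w p) c u * D.ze p c u| :=
          Finset.abs_sum_le_sum_abs _ _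
      _ ≤ ∑ c, 20005 / 10000 * D.al p * (|D.rr p (D.rk w p) c u| * |D.ze p c u|) := by
          apply Finset.sum_le_sum
          intro c _
          rw [abs_mul, abs_mul, mul_assoc]
          exact mul_le_mul_of_nonneg_right (D.dz_abs_le hp c) (by positivity)
      _ = 20005 / 10000 * D.al p * ∑ c, (|D.rr p (D.rk w p) c u| * |D.ze p c u|) := by
          rw [Finset.mul_sum]
      _ ≤ _ := mul_le_mul_of_nonneg_left hsum (by positivity)
  have hpre : 0 ≤ 2 * tau * D.a * (D.X p).th D.a := by positivity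
  have hath := D.Bo_ath hp
  have hQ0 : 0 ≤ D.al p * √(D.a * (D.X p).s) * √(D.zz p u) * A := by positivity
  calc |D.Cp p (D.rk w p) u|
      = 2 * tau * D.a * (D.X p).th D.a
        * |∑ c, (2 * D.d p c - D.a * D.z p c) * D.rr p (D.rk w p) c u * D.ze p c u| := by
        unfold Cp
        rw [abs_mul, abs_of_nonneg hpre]
    _ ≤ 2 * tau * D.a * (D.X p).th D.a
        * (20005 / 10000 * D.al p * (√(2 ^ (D.X p).n) * (10802 / 10000 * A) * √(D.zz p u))) :=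
        mul_le_mul_of_nonneg_left hC hpre
    _ = (2 * (20005 / 10000) * (10802 / 10000)) * tau
        * (D.al p * (D.a * (D.X p).th D.a * √(2 ^ (D.X p).n)) * √(D.zz p u) * A) := by ring
    _ = (2 * (20005 / 10000) * (10802 / 10000)) * tau
        * (D.al p * √(D.a * (D.X p).s) * √(D.zz p u) * A) := by rw [hath]
    _ ≤ 4322 / 1000 * tau * (D.al p * √(D.a * (D.X p).s) * √(D.zz p u) * A) := by
        apply mul_le_mul_of_nonneg_right _ hQ0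
        apply mul_le_mul_of_nonneg_right _ htau.le
        norm_num
    _ = 4322 / 1000 * tau * (D.al p * √(D.a * (D.X p).s) * √(D.zz p u)) * A := by ring

theorem CR_bound {w : ℝ} (hw : 0 ≤ w) (u : H) :
    |∑ p ∈ D.J, D.Cp p (D.rk w p) u|
      ≤ w * (1 / 2 * tau * D.g2 * ‖u - D.PZ u‖ ^ 2 + 147 / 1000 * ‖D.PZ u‖ ^ 2)
        + 1 / 10 * D.η * ‖u‖ ^ 2 := by
  have hη := D.hη
  have hg0 := D.g_pos
  have hg2 := D.g_sq
  have hgn := D.g_le_num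
  have hz := D.PZ_le u
  have hsum := D.sum_g_zz u
  set g := √D.g2 with hg
  set x := ‖u - D.PZ u‖ with hx
  set z := ‖D.PZ u‖ with hzz
  have hx0 : 0 ≤ x := norm_nonneg _
  have hz0 : 0 ≤ z := norm_nonneg _
  set A := w * x + 2 * D.η * z with hA
  have hA0 : 0 ≤ A := by positivity
  have h1 : |∑ p ∈ D.J, D.Cp p (D.rk w p) u| ≤ 4322 / 1000 * tau * (g * z) * A := by
    calc |∑ p ∈ D.J, D.Cp p (D.rk w p) u|
        ≤ ∑ p ∈ D.J, |D.Cp p (D.rk w p) u| := Finset.abs_sum_le_sum_abs _ _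
      _ ≤ ∑ p ∈ D.J, 4322 / 1000 * tau * (D.al p * √(D.a * (D.X p).s) * √(D.zz p u)) * A :=
          Finset.sum_le_sum fun p hp => D.CpR_le hw hp u
      _ = 4322 / 1000 * tau * (∑ p ∈ D.J, D.al p * √(D.a * (D.X p).s) * √(D.zz p u)) * A := by
          rw [← Finset.sum_mul, ← Finset.mul_sum]
      _ ≤ 4322 / 1000 * tau * (g * z) * A := by
          apply mul_le_mul_of_nonneg_right _ hA0
          apply mul_le_mul_of_nonneg_left hsum
          rw [tau_eq]; norm_num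
  rw [tau_eq] at h1 ⊢
  have h2 : 4322 / 1000 * (1 / 64) * (g * z) * (w * x)
      ≤ w * (1 / 2 * (1 / 64) * D.g2 * x ^ 2 + 147 / 1000 * z ^ 2) := by
    rw [← hg2]
    have h3 : 4322 / 1000 * (1 / 64) * (g * z) * x
        ≤ 1 / 2 * (1 / 64) * g ^ 2 * x ^ 2 + 147 / 1000 * z ^ 2 := by
      nlinarith [sq_nonneg (g * x - 4322 / 1000 * z), sq_nonneg z]
    calc 4322 / 1000 * (1 / 64) * (g * z) * (w * x)
        = w * (4322 / 1000 * (1 / 64) * (g * z) * x) := by ring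
      _ ≤ _ := mul_le_mul_of_nonneg_left h3 hw
  have h4 : 4322 / 1000 * (1 / 64) * (g * z) * (2 * D.η * z) ≤ 1 / 10 * D.η * ‖u‖ ^ 2 := by
    have h5 : z ^ 2 ≤ ‖u‖ ^ 2 := pow_le_pow_left₀ hz0 hz 2
    have h6 : 4322 / 1000 * (1 / 64) * 2 * g ≤ 1 / 10 := by linarith
    calc 4322 / 1000 * (1 / 64) * (g * z) * (2 * D.η * z)
        = (4322 / 1000 * (1 / 64) * 2 * g) * (D.η * z ^ 2) := by ring
      _ ≤ 1 / 10 * (D.η * z ^ 2) := mul_le_mul_of_nonneg_right h6 (by positivity)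
      _ ≤ 1 / 10 * (D.η * ‖u‖ ^ 2) := by
          apply mul_le_mul_of_nonneg_left _ (by norm_num)
          exact mul_le_mul_of_nonneg_left h5 hη
      _ = 1 / 10 * D.η * ‖u‖ ^ 2 := by ring
  calc |∑ p ∈ D.J, D.Cp p (D.rk w p) u| ≤ 4322 / 1000 * (1 / 64) * (g * z) * A := h1
    _ = 4322 / 1000 * (1 / 64) * (g * z) * (w * x)
        + 4322 / 1000 * (1 / 64) * (g * z) * (2 * D.η * z) := by rw [hA]; ring
    _ ≤ _ := add_le_add h2 h4

private theorem Bo_Zp_le {p : ℕ} (hp : p ∈ D.J) (u : H) :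
    |D.Zp p u| ≤ (2 * D.a + D.a ^ 2) * D.zz p u
      + 214 / 100 * D.a * ‖u‖ * (D.al p * √(D.a * (D.X p).s) * √(D.zz p u)) := by
  have ha := D.ha
  have hal := D.hal p hp
  have hal' := D.hal' p hp
  have hs := D.hs p hp
  have hth := D.th_nonneg p
  have hzz := D.zz_nonneg p u
  have hal2 : D.al p ^ 2 ≤ D.al p := by nlinarith
  -- first term
  have t1 : |-2 * D.a * ∑ c, D.d p c * D.ze p c u ^ 2| ≤ 2 * D.a * D.zz p u := by
    rw [abs_mul]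
    have e1 : |-2 * D.a| = 2 * D.a := by
      rw [abs_mul, abs_neg, abs_two, abs_of_pos ha]
    rw [e1]
    apply mul_le_mul_of_nonneg_left _ (by positivity)
    calc |∑ c, D.d p c * D.ze p c u ^ 2| ≤ ∑ c, |D.d p c * D.ze p c u ^ 2| :=
          Finset.abs_sum_le_sum_abs _ _
      _ ≤ ∑ c, D.ze p c u ^ 2 := by
          apply Finset.sum_le_sum
          intro c _
          rw [abs_mul, abs_of_nonneg (sq_nonneg (D.ze p c u))]
          have := D.d_abs_le hp c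
          calc |D.d p c| * D.ze p c u ^ 2 ≤ 1 * D.ze p c u ^ 2 :=
                mul_le_mul_of_nonneg_right (this.trans hal') (sq_nonneg _)
            _ = _ := one_mul _
      _ = D.zz p u := rfl
  -- third term
  have t3 : |D.a ^ 2 * ∑ c, D.d p c ^ 2 * D.ze p c u ^ 2| ≤ D.a ^ 2 * D.zz p u := by
    rw [abs_mul, abs_of_nonneg (sq_nonneg D.a)]
    apply mul_le_mul_of_nonneg_left _ (by positivity)
    rw [abs_of_nonneg (Finset.sum_nonneg fun c _ => by positivity)]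
    calc ∑ c, D.d p c ^ 2 * D.ze p c u ^ 2 ≤ ∑ c, D.ze p c u ^ 2 := by
          apply Finset.sum_le_sum
          intro c _
          have h1 := D.d_sq_le hp c
          calc D.d p c ^ 2 * D.ze p c u ^ 2 ≤ 1 * D.ze p c u ^ 2 :=
                mul_le_mul_of_nonneg_right (h1.trans (hal2.trans hal')) (sq_nonneg _)
            _ = _ := one_mul _
      _ = D.zz p u := rfl
  -- second term
  have hb : (D.X p).th D.a * √(∑ c, D.b p c u ^ 2)
      ≤ 107 / 100 * √((D.X p).s / D.a) * ‖u‖ := by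
    have h1 := D.th_b_sq hp u
    have h2 : (D.X p).th D.a * √(∑ c, D.b p c u ^ 2)
        = √((D.X p).th D.a ^ 2 * ∑ c, D.b p c u ^ 2) := by
      rw [Real.sqrt_mul (sq_nonneg _), Real.sqrt_sq hth]
    rw [h2]
    apply Real.sqrt_le_iff.2
    refine ⟨by positivity, h1.trans ?_⟩
    have h3 : √((D.X p).s / D.a) ^ 2 = (D.X p).s / D.a := Real.sq_sqrt (by positivity)
    have h4 : (107 / 100 * √((D.X p).s / D.a) * ‖u‖) ^ 2
        = (107 / 100) ^ 2 * ((D.X p).s / D.a) * ‖u‖ ^ 2 := by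
      rw [mul_pow, mul_pow, h3]
    rw [h4]
    apply mul_le_mul_of_nonneg_right _ (sq_nonneg _)
    apply mul_le_mul_of_nonneg_right _ (by positivity)
    norm_num
  have t2 : |2 * D.a ^ 2 * (D.X p).th D.a * ∑ c, D.d p c ^ 2 * D.b p c u * D.ze p c u|
      ≤ 214 / 100 * D.a * ‖u‖ * (D.al p * √(D.a * (D.X p).s) * √(D.zz p u)) := by
    have h1 : |∑ c, D.d p c ^ 2 * D.b p c u * D.ze p c u|
        ≤ D.al p * (√(∑ c, D.b p c u ^ 2) * √(D.zz p u)) := by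
      calc |∑ c, D.d p c ^ 2 * D.b p c u * D.ze p c u|
          ≤ ∑ c, |D.d p c ^ 2 * D.b p c u * D.ze p c u| := Finset.abs_sum_le_sum_abs _ _
        _ ≤ ∑ c, D.al p * (|D.b p c u| * |D.ze p c u|) := by
            apply Finset.sum_le_sum
            intro c _
            rw [abs_mul, abs_mul, mul_assoc, abs_of_nonneg (sq_nonneg (D.d p c))]
            exact mul_le_mul_of_nonneg_right ((D.d_sq_le hp c).trans hal2) (by positivity)
        _ = D.al p * ∑ c, |D.b p c u| * |D.ze p c u| := by rw [Finset.mul_sum]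
        _ ≤ _ := mul_le_mul_of_nonneg_left (D.Bo_cs p (fun c => D.b p c u) u) hal.le
    have h0 : 0 ≤ 2 * D.a ^ 2 * (D.X p).th D.a := by positivity
    rw [abs_mul, abs_of_nonneg h0]
    have hasa := D.Bo_asa hp
    calc 2 * D.a ^ 2 * (D.X p).th D.a * |∑ c, D.d p c ^ 2 * D.b p c u * D.ze p c u|
        ≤ 2 * D.a ^ 2 * (D.X p).th D.a * (D.al p * (√(∑ c, D.b p c u ^ 2) * √(D.zz p u))) :=
          mul_le_mul_of_nonneg_left h1 h0
      _ = 2 * D.a ^ 2 * D.al p * √(D.zz p u) * ((D.X p).th D.a * √(∑ c, D.b p c u ^ 2)) := by ring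
      _ ≤ 2 * D.a ^ 2 * D.al p * √(D.zz p u) * (107 / 100 * √((D.X p).s / D.a) * ‖u‖) :=
          mul_le_mul_of_nonneg_left hb (by positivity)
      _ = 214 / 100 * D.a * ‖u‖ * (D.al p * (D.a * √((D.X p).s / D.a)) * √(D.zz p u)) := by ring
      _ = 214 / 100 * D.a * ‖u‖ * (D.al p * √(D.a * (D.X p).s) * √(D.zz p u)) := by rw [hasa]
  unfold Zp
  calc |-2 * D.a * ∑ c, D.d p c * D.ze p c u ^ 2
        + 2 * D.a ^ 2 * (D.X p).th D.a * ∑ c, D.d p c ^ 2 * D.b p c u * D.ze p c u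
        + D.a ^ 2 * ∑ c, D.d p c ^ 2 * D.ze p c u ^ 2|
      ≤ |-2 * D.a * ∑ c, D.d p c * D.ze p c u ^ 2
        + 2 * D.a ^ 2 * (D.X p).th D.a * ∑ c, D.d p c ^ 2 * D.b p c u * D.ze p c u|
        + |D.a ^ 2 * ∑ c, D.d p c ^ 2 * D.ze p c u ^ 2| := abs_add_le _ _
    _ ≤ (|-2 * D.a * ∑ c, D.d p c * D.ze p c u ^ 2|
        + |2 * D.a ^ 2 * (D.X p).th D.a * ∑ c, D.d p c ^ 2 * D.b p c u * D.ze p c u|)
        + |D.a ^ 2 * ∑ c, D.d p c ^ 2 * D.ze p c u ^ 2| := by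
        have := abs_add_le (-2 * D.a * ∑ c, D.d p c * D.ze p c u ^ 2)
          (2 * D.a ^ 2 * (D.X p).th D.a * ∑ c, D.d p c ^ 2 * D.b p c u * D.ze p c u)
        linarith
    _ ≤ _ := by linarith

theorem Zp_bound (u : H) :
    |∑ p ∈ D.J, D.Zp p u|
      ≤ (2 * D.a + D.a ^ 2) * ‖D.PZ u‖ ^ 2 + 214 / 100 * D.a * √D.g2 * ‖D.PZ u‖ * ‖u‖ := by
  have ha := D.ha
  have hsum := D.sum_g_zz u
  calc |∑ p ∈ D.J, D.Zp p u| ≤ ∑ p ∈ D.J, |D.Zp p u| := Finset.abs_sum_le_sum_abs _ _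
    _ ≤ ∑ p ∈ D.J, ((2 * D.a + D.a ^ 2) * D.zz p u
      + 214 / 100 * D.a * ‖u‖ * (D.al p * √(D.a * (D.X p).s) * √(D.zz p u))) :=
        Finset.sum_le_sum fun p hp => D.Bo_Zp_le hp u
    _ = (2 * D.a + D.a ^ 2) * ∑ p ∈ D.J, D.zz p u
      + 214 / 100 * D.a * ‖u‖ * ∑ p ∈ D.J, (D.al p * √(D.a * (D.X p).s) * √(D.zz p u)) := by
        rw [Finset.sum_add_distrib, Finset.mul_sum, Finset.mul_sum]
    _ ≤ (2 * D.a + D.a ^ 2) * ‖D.PZ u‖ ^ 2
      + 214 / 100 * D.a * ‖u‖ * (√D.g2 * ‖D.PZ u‖) := by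
        rw [← D.PZ_sq]
        have := mul_le_mul_of_nonneg_left hsum (show 0 ≤ 214 / 100 * D.a * ‖u‖ by positivity)
        linarith
    _ = _ := by ring

end PD

end

end QC49
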