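import Pool.Agent.Lib.MP_49c203_an.B.Bo

/-! # row qc-Bq : the bound for the remainder (paper 3.5, end)

Notation `A=‖u‖`, `x=‖u-PZ u‖`, `z=‖PZ u‖`, `A²=x²+z²`, `g=√g2`, `F=FF`.  Collect `rem_bound`, `RD_bound`, `CR_bound`, `Zp_bound`, `FF² ≤ 1.003 S²` (`FF_le`),
`nZ_le`, `no_le`.
`prod_bound` : `2‖nZ‖‖no‖+(8/7)‖no‖² ≤ (3.3ag+2.8g²)z² + (9.7aS+3.6g²)zA + (10.3gS+23.6S²)A²`
  [`2(1.5az+1.6gA)(1.1gz+3.21SA)` and `(8/7)(1.1gz+3.21SA)² ≤ (16/7)(1.21g²z²+10.31S²A²)`].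
`real_ineq` : pure inequality between real numbers, state it as a separate lemma on reals:
 zA terms: `(2.14ag+9.7aS+3.6g²)zA ≤ 2.2ag zA` (`S ≤ 0.0283ag`, `g ≤ 0.01415a²`, `a ≤ 10⁻³`) `≤ ¼τg²wA² + 4.84a²z²/(τw) ≤ ¼τg²wA² + 0.31a z²` (`w ≥ 1000a`);
 A² terms: `10.3gS+23.6S²+1.003S² ≤ ⅛τ g² w` since `gS ≤ 0.0283ag²`, `S² ≤ 0.0009a²g²`, `⅛τw ≥ 1.95a`;
 `x²` coefficient total `w(1+2F-τg²+½τg²+¼τg²+⅛τg²) ≤ w(1+2F) ≤ w(1+F)²`; `z²` coefficient total `≤ 0.147w + 12.1S+2a+a²+0.31a+3.3ag+2.8g²+τg²w ≤ 0.2w ≤ (1+F)²w`;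
 `η` total `4+0.1+4.1 = 8.2 ≤ 8.5`.
-/

set_option autoImplicit false

namespace QC49

noncomputable section

open scoped RealInnerProductSpace

variable {H : Type*} [NormedAddCommGroup H] [InnerProductSpace ℝ H]

private theorem Bq_q (t z : ℝ) : 0 ≤ 390625 / 100000 * t ^ 2 - 22 / 10 * t * z + 31 / 100 * z ^ 2 := by
  nlinarith only [sq_nonneg (390625 / 100000 * t - 11 / 10 * z), sq_nonneg z]

private theorem Bq_F {F S : ℝ} (hFS : |F| ≤ 1001 / 1000 * S) : F ^ 2 ≤ 1003 / 1000 * S ^ 2 := by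
  have h1 : F ^ 2 = |F| ^ 2 := (sq_abs F).symm
  have h2 : |F| ^ 2 ≤ (1001 / 1000 * S) ^ 2 := pow_le_pow_left₀ (abs_nonneg F) hFS 2
  have h3 : 0 ≤ S ^ 2 := sq_nonneg S
  have h4 : (1001 / 1000 * S) ^ 2 = 1002001 / 1000000 * S ^ 2 := by ring
  rw [h1]
  rw [h4] at h2
  linarith only [h2, h3]

private theorem Bq_F2 {F : ℝ} (hF : |F| ≤ 1 / 10 ^ 6) : 2 / 10 ≤ (1 + F) ^ 2 := by
  have h := abs_le.1 hF
  nlinarith only [h.1, h.2, sq_nonneg F]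

/-- the pure inequality between real numbers -/
theorem Bq_real {a S g w x z A F η : ℝ} (ha : 0 < a) (ha' : a ≤ 1 / 1000) (hg : 0 ≤ g)
    (hz : 0 ≤ z) (hA : 0 ≤ A) (hη : 0 ≤ η) (hw : 1000 * a ≤ w)
    (hpy : A ^ 2 = x ^ 2 + z ^ 2) (hSg : S ≤ 283 / 10000 * (a * g)) (hga : g ≤ 1415 / 100000 * a ^ 2)
    (hSS : S ^ 2 ≤ 8 / 10 ^ 4 * a ^ 2 * g ^ 2) (hF : |F| ≤ 1 / 10 ^ 6)
    (hFS : |F| ≤ 1001 / 1000 * S) :
    (1 + 2 * F - tau * g ^ 2) * w * x ^ 2 + 121 / 10 * S * z ^ 2 + 4 * η * A ^ 2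
      + (w * (1 / 2 * tau * g ^ 2 * x ^ 2 + 147 / 1000 * z ^ 2) + 1 / 10 * η * A ^ 2)
      + ((2 * a + a ^ 2) * z ^ 2 + 214 / 100 * a * g * z * A)
      + F ^ 2 * A ^ 2
      + (41 / 10 * η * A ^ 2 + ((33 / 10 * a * g + 28 / 10 * g ^ 2) * z ^ 2
        + (97 / 10 * a * S + 36 / 10 * g ^ 2) * (z * A)
        + (103 / 10 * g * S + 236 / 10 * S ^ 2) * A ^ 2))
      ≤ (1 + F) ^ 2 * w * A ^ 2 + 85 / 10 * η * A ^ 2 := by
  have hw0 : 0 < w := by linarith only [ha, hw]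
  have hag : 0 ≤ a * g := mul_nonneg ha.le hg
  have hg2 : 0 ≤ g ^ 2 := sq_nonneg g
  have hz2 : 0 ≤ z ^ 2 := sq_nonneg z
  have hx2 : 0 ≤ x ^ 2 := sq_nonneg x
  have hA2 : 0 ≤ A ^ 2 := sq_nonneg A
  have hzA : 0 ≤ z * A := mul_nonneg hz hA
  have hηA : 0 ≤ η * A ^ 2 := mul_nonneg hη hA2
  have ha2 : a ^ 2 ≤ a / 1000 := by
    have := mul_le_mul_of_nonneg_left ha' ha.le
    linarith only [this]
  -- (i)
  have haS : a * S ≤ 283 / 10000 * (a * (a * g)) := by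
    have := mul_le_mul_of_nonneg_left hSg ha.le
    linarith only [this]
  have haag : a * (a * g) ≤ 1 / 1000 * (a * g) := mul_le_mul_of_nonneg_right ha' hag
  have hgg : g ^ 2 ≤ 1415 / 100000 * (a * (a * g)) := by
    have := mul_le_mul_of_nonneg_right hga hg
    linarith only [this]
  have hi : 214 / 100 * a * g + 97 / 10 * a * S + 36 / 10 * g ^ 2 ≤ 22 / 10 * (a * g) := by
    linarith only [hgg, haag, haS, hag]
  have hi' : 214 / 100 * a * g * z * A + (97 / 10 * a * S + 36 / 10 * g ^ 2) * (z * A)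
      ≤ 22 / 10 * (a * g) * (z * A) := by
    have := mul_le_mul_of_nonneg_right hi hzA
    linarith only [this]
  -- (ii)
  have hgA : 0 ≤ (g * A) ^ 2 := sq_nonneg _
  have hii : 22 / 10 * (a * g) * (z * A) ≤ 1 / 256 * (g ^ 2 * w * A ^ 2) + 31 / 100 * a * z ^ 2 := by
    have h2 := mul_nonneg ha.le (Bq_q (g * A) z)
    have h3 : 1000 * a * (g * A) ^ 2 ≤ w * (g * A) ^ 2 := mul_le_mul_of_nonneg_right hw hgA
    linarith only [h2, h3]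
  -- (iii)
  have hF2 := Bq_F hFS
  have hgS : g * S ≤ 283 / 10000 * (a * g ^ 2) := by
    have := mul_le_mul_of_nonneg_left hSg hg
    linarith only [this]
  have hag2 : 0 ≤ a * g ^ 2 := mul_nonneg ha.le hg2
  have hSS' : S ^ 2 ≤ 8 / 10 ^ 7 * (a * g ^ 2) := by
    have := mul_le_mul_of_nonneg_right ha2 hg2
    linarith only [this, hSS]
  have hwg : 1000 * a * g ^ 2 ≤ w * g ^ 2 := mul_le_mul_of_nonneg_right hw hg2
  have hiii : 103 / 10 * g * S + 236 / 10 * S ^ 2 + F ^ 2 ≤ 1 / 512 * (g ^ 2 * w) := by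
    linarith only [hwg, hF2, hgS, hSS', hag2]
  have hiii' : F ^ 2 * A ^ 2 + (103 / 10 * g * S + 236 / 10 * S ^ 2) * A ^ 2
      ≤ 1 / 512 * (g ^ 2 * w * A ^ 2) := by
    have := mul_le_mul_of_nonneg_right hiii hA2
    linarith only [this]
  -- (iv)
  have haga : a * g ≤ 1 / 1000 * g := mul_le_mul_of_nonneg_right ha' hg
  have hgn : g ≤ 1 / 1000 * a := by linarith only [hga, ha2, ha]
  have hSa : S ≤ 1 / 1000 * a := by linarith only [hSg, haga, hgn, ha]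
  have hag' : a * g ≤ 1 / 1000 * a := by linarith only [haga, hgn, ha]
  have hg2a : g ^ 2 ≤ 1 / 1000 * a := by linarith only [hgg, haag, hag', ha]
  have hg2n : g ^ 2 ≤ 1 / 100 := by linarith only [hg2a, ha']
  have hg2w : g ^ 2 * w ≤ 1 / 100 * w := mul_le_mul_of_nonneg_right hg2n hw0.le
  have hzc : 121 / 10 * S + w * (147 / 1000) + (2 * a + a ^ 2) + (33 / 10 * a * g + 28 / 10 * g ^ 2)
      + 31 / 100 * a + 3 / 512 * (g ^ 2 * w) ≤ 2 / 10 * w := by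
    linarith only [hSa, hag', hg2a, hg2w, ha2, hw, hw0, ha]
  have hFz' : 2 / 10 * w * z ^ 2 ≤ (1 + F) ^ 2 * w * z ^ 2 :=
    mul_le_mul_of_nonneg_right (mul_le_mul_of_nonneg_right (Bq_F2 hF) hw0.le) hz2
  have hFx : (1 + 2 * F) * w * x ^ 2 ≤ (1 + F) ^ 2 * w * x ^ 2 := by
    have h0 : 1 + 2 * F ≤ (1 + F) ^ 2 := by linarith only [sq_nonneg F]
    exact mul_le_mul_of_nonneg_right (mul_le_mul_of_nonneg_right h0 hw0.le) hx2
  have hzc' := mul_le_mul_of_nonneg_right hzc hz2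
  have hpx : 0 ≤ g ^ 2 * w * x ^ 2 := mul_nonneg (mul_nonneg hg2 hw0.le) hx2
  have hsplit : 1 / 256 * (g ^ 2 * w * A ^ 2) + 1 / 512 * (g ^ 2 * w * A ^ 2)
      = 3 / 512 * (g ^ 2 * w * x ^ 2) + 3 / 512 * (g ^ 2 * w) * z ^ 2 := by
    rw [hpy]; ring
  have hRHS : (1 + F) ^ 2 * w * A ^ 2 = (1 + F) ^ 2 * w * x ^ 2 + (1 + F) ^ 2 * w * z ^ 2 := by
    rw [hpy]; ring
  have ht : (1 + 2 * F - tau * g ^ 2) * w * x ^ 2 + w * (1 / 2 * tau * g ^ 2 * x ^ 2)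
      = (1 + 2 * F) * w * x ^ 2 - 1 / 128 * (g ^ 2 * w * x ^ 2) := by
    rw [tau_eq]; ring
  have e1 : (121 / 10 * S + w * (147 / 1000) + (2 * a + a ^ 2) + (33 / 10 * a * g + 28 / 10 * g ^ 2)
      + 31 / 100 * a + 3 / 512 * (g ^ 2 * w)) * z ^ 2 = 121 / 10 * S * z ^ 2 + w * (147 / 1000 * z ^ 2)
      + (2 * a + a ^ 2) * z ^ 2 + (33 / 10 * a * g + 28 / 10 * g ^ 2) * z ^ 2
      + 31 / 100 * a * z ^ 2 + 3 / 512 * (g ^ 2 * w) * z ^ 2 := by ring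
  have e2 : w * (1 / 2 * tau * g ^ 2 * x ^ 2 + 147 / 1000 * z ^ 2)
      = w * (1 / 2 * tau * g ^ 2 * x ^ 2) + w * (147 / 1000 * z ^ 2) := mul_add _ _ _
  have e3 : 4 * η * A ^ 2 = 4 * (η * A ^ 2) := by ring
  have e4 : 1 / 10 * η * A ^ 2 = 1 / 10 * (η * A ^ 2) := by ring
  have e5 : 41 / 10 * η * A ^ 2 = 41 / 10 * (η * A ^ 2) := by ring
  have e6 : 85 / 10 * η * A ^ 2 = 85 / 10 * (η * A ^ 2) := by ring
  rw [e1] at hzc'
  rw [hRHS, e2, e3, e4, e5, e6]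
  generalize (1 + F) ^ 2 * w * x ^ 2 = t1 at *
  generalize (1 + F) ^ 2 * w * z ^ 2 = t2 at *
  generalize η * A ^ 2 = t3 at *
  generalize (1 + 2 * F - tau * g ^ 2) * w * x ^ 2 = t4 at *
  generalize w * (1 / 2 * tau * g ^ 2 * x ^ 2) = t5 at *
  generalize w * (147 / 1000 * z ^ 2) = t6 at *
  generalize 121 / 10 * S * z ^ 2 = t7 at *
  generalize (2 * a + a ^ 2) * z ^ 2 = t8 at *
  generalize 214 / 100 * a * g * z * A = t9 at *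
  generalize F ^ 2 * A ^ 2 = t10 at *
  generalize (33 / 10 * a * g + 28 / 10 * g ^ 2) * z ^ 2 = t11 at *
  generalize (97 / 10 * a * S + 36 / 10 * g ^ 2) * (z * A) = t12 at *
  generalize (103 / 10 * g * S + 236 / 10 * S ^ 2) * A ^ 2 = t13 at *
  generalize 22 / 10 * (a * g) * (z * A) = t14 at *
  generalize g ^ 2 * w * A ^ 2 = t15 at *
  generalize g ^ 2 * w * x ^ 2 = t16 at *
  generalize 3 / 512 * (g ^ 2 * w) * z ^ 2 = t17 at *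
  generalize 31 / 100 * a * z ^ 2 = t18 at *
  generalize (1 + 2 * F) * w * x ^ 2 = t19 at *
  linarith only [hzc', hi', hii, hiii', hsplit, ht, hFx, hFz', hpx, hηA]

namespace PD

variable (D : PD H)

theorem prod_bound (u : H) :
    2 * ‖D.nZ u‖ * ‖D.no u‖ + 8 / 7 * ‖D.no u‖ ^ 2
      ≤ (33 / 10 * D.a * √D.g2 + 28 / 10 * D.g2) * ‖D.PZ u‖ ^ 2
        + (97 / 10 * D.a * D.S + 36 / 10 * D.g2) * (‖D.PZ u‖ * ‖u‖)
        + (103 / 10 * √D.g2 * D.S + 236 / 10 * D.S ^ 2) * ‖u‖ ^ 2 := by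
  have h1 := D.nZ_le u
  have h2 := D.no_le u
  have hn1 : 0 ≤ ‖D.nZ u‖ := norm_nonneg _
  have hn2 : 0 ≤ ‖D.no u‖ := norm_nonneg _
  have hg2 : D.g2 = √D.g2 ^ 2 := (Real.sq_sqrt D.g2_pos.le).symm
  have hS := D.S_pos.le
  have ha := D.ha.le
  have hg : 0 ≤ √D.g2 := Real.sqrt_nonneg _
  have hz : 0 ≤ ‖D.PZ u‖ := norm_nonneg _
  have hA : 0 ≤ ‖u‖ := norm_nonneg _
  generalize √D.g2 = g at *
  rw [hg2]
  generalize ‖D.PZ u‖ = z at *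
  generalize ‖u‖ = A at *
  generalize ‖D.nZ u‖ = m at *
  generalize ‖D.no u‖ = k at *
  generalize D.S = S at *
  generalize D.a = a at *
  have hQ : 0 ≤ 11 / 10 * g * z + 321 / 100 * S * A := by positivity
  have hP : 0 ≤ 3 / 2 * a * z + 8 / 5 * g * A := by positivity
  have h3 : m * k ≤ (3 / 2 * a * z + 8 / 5 * g * A) * (11 / 10 * g * z + 321 / 100 * S * A) :=
    mul_le_mul h1 h2 hn2 hP
  have h4 : k ^ 2 ≤ (11 / 10 * g * z + 321 / 100 * S * A) ^ 2 := pow_le_pow_left₀ hn2 h2 2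
  have h5 : (11 / 10 * g * z + 321 / 100 * S * A) ^ 2
      ≤ 2 * (121 / 100 * g ^ 2 * z ^ 2) + 2 * ((321 / 100) ^ 2 * S ^ 2 * A ^ 2) := by
    nlinarith [sq_nonneg (11 / 10 * g * z - 321 / 100 * S * A)]
  have p1 : 0 ≤ a * S * (z * A) := by positivity
  have p2 : 0 ≤ g ^ 2 * (z * A) := by positivity
  have p3 : 0 ≤ g * S * A ^ 2 := by positivity
  have p4 : 0 ≤ S ^ 2 * A ^ 2 := by positivity
  have p5 : 0 ≤ g ^ 2 * z ^ 2 := by positivity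
  have e1 : (3 / 2 * a * z + 8 / 5 * g * A) * (11 / 10 * g * z + 321 / 100 * S * A)
      = 33 / 20 * (a * g * z ^ 2) + 963 / 200 * (a * S * (z * A)) + 88 / 50 * (g ^ 2 * (z * A))
        + 2568 / 500 * (g * S * A ^ 2) := by ring
  have e2 : (33 / 10 * a * g + 28 / 10 * g ^ 2) * z ^ 2
        + (97 / 10 * a * S + 36 / 10 * g ^ 2) * (z * A)
        + (103 / 10 * g * S + 236 / 10 * S ^ 2) * A ^ 2
      = 33 / 10 * (a * g * z ^ 2) + 28 / 10 * (g ^ 2 * z ^ 2) + 97 / 10 * (a * S * (z * A))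
        + 36 / 10 * (g ^ 2 * (z * A)) + 103 / 10 * (g * S * A ^ 2) + 236 / 10 * (S ^ 2 * A ^ 2) := by
    ring
  rw [e2]
  rw [e1] at h3
  norm_num at h5
  linarith

theorem Rem_final {w : ℝ} (hw : 1000 * D.a ≤ w) (u : H) :
    |(1 + D.FF) ^ 2 * D.K' u - D.M w u|
      ≤ (1 + D.FF) ^ 2 * w * ‖u‖ ^ 2 + 85 / 10 * D.η * ‖u‖ ^ 2 := by
  have hw0 : 0 ≤ w := by linarith [D.ha]
  have h1 := D.rem_bound w u
  have h2 := D.prod_bound u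
  have h3 := D.RD_bound hw u
  have h4 := D.CR_bound hw0 u
  have h5 := D.Zp_bound u
  have hA2 : (0 : ℝ) ≤ ‖u‖ ^ 2 := by positivity
  have hR : |D.Rem0 w u| ≤ (1 + 2 * D.FF - tau * D.g2) * w * ‖u - D.PZ u‖ ^ 2
      + 121 / 10 * D.S * ‖D.PZ u‖ ^ 2 + 4 * D.η * ‖u‖ ^ 2
      + (w * (1 / 2 * tau * D.g2 * ‖u - D.PZ u‖ ^ 2 + 147 / 1000 * ‖D.PZ u‖ ^ 2)
        + 1 / 10 * D.η * ‖u‖ ^ 2)
      + ((2 * D.a + D.a ^ 2) * ‖D.PZ u‖ ^ 2 + 214 / 100 * D.a * √D.g2 * ‖D.PZ u‖ * ‖u‖)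
      + D.FF ^ 2 * ‖u‖ ^ 2 := by
    have e : D.Rem0 w u = (∑ p ∈ D.J, D.lam p * D.dg p (D.rk w p) u
        + 2 * ∑ p ∈ D.J, D.Fq p * (⟪u, D.Dp p u⟫ - (‖u‖ ^ 2 - ∑ i, D.yy p i u ^ 2)))
        + ∑ p ∈ D.J, D.Cp p (D.rk w p) u + ∑ p ∈ D.J, D.Zp p u - D.FF ^ 2 * ‖u‖ ^ 2 := by
      unfold Rem0; ring
    have h6 : 0 ≤ D.FF ^ 2 * ‖u‖ ^ 2 := by positivity
    rw [e]
    have g3 := abs_le.1 h3
    have g4 := abs_le.1 h4
    have g5 := abs_le.1 h5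
    rw [abs_le]
    constructor
    · linarith [g3.1, g4.1, g5.1]
    · linarith [g3.2, g4.2, g5.2]
  have hg2 : D.g2 = √D.g2 ^ 2 := (Real.sq_sqrt D.g2_pos.le).symm
  have key := Bq_real (x := ‖u - D.PZ u‖) (z := ‖D.PZ u‖) (A := ‖u‖) D.ha D.ha'
    (Real.sqrt_nonneg D.g2) (norm_nonneg _) (norm_nonneg _) D.hη hw (D.PZ_pyth u)
    D.S_le_ag D.g_le (by rw [← hg2]; exact D.S_sq_le) D.FF_small D.FF_le
  rw [← hg2] at key
  have h7 : |(1 + D.FF) ^ 2 * D.K' u - D.M w u|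
      ≤ |(1 + D.FF) ^ 2 * D.K' u - D.M w u - D.Rem0 w u| + |D.Rem0 w u| := by
    have := abs_add_le ((1 + D.FF) ^ 2 * D.K' u - D.M w u - D.Rem0 w u) (D.Rem0 w u)
    rwa [sub_add_cancel] at this
  linarith

end PD

end

end QC49
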