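import Pool.Agent.Lib.MP_49c203_an.B.Bq

/-! # row qc-Bs : `‖Y u - u‖ ≤ 2a‖u‖`

`Y_eq`: `Y u - u = nZ + no`, `nZ_le`, `no_le`, `PZ_le`, `g ≤ 0.01415 a²`, `S ≤ 0.0283 a g`, `a ≤ 1/1000`.
-/

set_option autoImplicit false

namespace QC49

noncomputable section

open scoped RealInnerProductSpace

variable {H : Type*} [NormedAddCommGroup H] [InnerProductSpace ℝ H]

namespace PD

variable (D : PD H)

theorem Y_sub_le (u : H) : ‖D.Y u - u‖ ≤ 2 * D.a * ‖u‖ := by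
  have h1 : D.Y u - u = D.nZ u + D.no u := by
    rw [D.Y_eq]
    abel
  rw [h1]
  have h2 := norm_add_le (D.nZ u) (D.no u)
  have h3 := D.nZ_le u
  have h4 := D.no_le u
  have h5 := D.PZ_le u
  have h6 := D.g_le
  have h7 := D.S_le_ag
  have ha := D.ha
  have ha' := D.ha'
  have hg : 0 ≤ √D.g2 := Real.sqrt_nonneg _
  have hu : 0 ≤ ‖u‖ := norm_nonneg u
  have h8 : 3 / 2 * D.a * ‖D.PZ u‖ ≤ 3 / 2 * D.a * ‖u‖ := by gcongr
  have h9 : 11 / 10 * √D.g2 * ‖D.PZ u‖ ≤ 11 / 10 * √D.g2 * ‖u‖ := by gcongr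
  have h10 : √D.g2 ≤ 1 / 50 * D.a := by nlinarith
  have h11 : D.S ≤ 1 / 1000 * D.a := by nlinarith
  have h12 : √D.g2 * ‖u‖ ≤ 1 / 50 * D.a * ‖u‖ := by gcongr
  have h13 : D.S * ‖u‖ ≤ 1 / 1000 * D.a * ‖u‖ := by gcongr
  have h14 : 0 ≤ D.a * ‖u‖ := by positivity
  linarith

end PD

end

end QC49
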