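import Pool.Agent.Lib.MP_49c203_an.Basic

/-! # row qc-Tb : the potential, elementary part

`tensor_bessel` : `(u b ⊗ₜ u b)` is orthonormal in `H ⊗[ℝ] H` (`TensorProduct.inner_tmul`), then `Orthonormal.sum_inner_products_le`.
`Pot.mono` : termwise.
`Pot.le_form` : for `u ≠ 0` apply `Pot` with `m = 1` to `u/‖u‖`: `(|q(u/‖u‖)| - w)_+ ≤ √Φ`.
`Pot.perturb` : `|q' (u b)| - (w+e) ≤ |q (u b)| - w` as `‖u b‖ = 1`.
`norm_le_of_form` : a symmetric operator with `|⟪K u,u⟫| ≤ c ‖u‖²` has `‖K‖ ≤ c`: polarisation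
  `4⟪K u, v⟫ = ⟪K(u+v),u+v⟫ - ⟪K(u-v),u-v⟫ ≤ c(‖u+v‖²+‖u-v‖²) = 2c(‖u‖²+‖v‖²)`; take `v = K u` scaled to the norm of `u`.
`Pot.norm_le` : combination.
-/

set_option autoImplicit false

namespace QC49

noncomputable section

open scoped RealInnerProductSpace TensorProduct

variable {H : Type*} [NormedAddCommGroup H] [InnerProductSpace ℝ H]

theorem tensor_bessel {m : ℕ} (u : Fin m → H) (hu : Orthonormal ℝ u) (M : H ⊗[ℝ] H) :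
    ∑ b, ⟪u b ⊗ₜ[ℝ] u b, M⟫ ^ 2 ≤ ‖M‖ ^ 2 := by
  have ho : Orthonormal ℝ (fun b => u b ⊗ₜ[ℝ] u b) := by
    refine ⟨fun b => ?_, fun b c hbc => ?_⟩
    · rw [TensorProduct.norm_tmul, hu.1 b, one_mul]
    · change ⟪u b ⊗ₜ[ℝ] u b, u c ⊗ₜ[ℝ] u c⟫ = 0
      rw [TensorProduct.inner_tmul, hu.2 hbc, zero_mul]
  have h := ho.sum_inner_products_le (s := Finset.univ) M
  refine le_trans (le_of_eq ?_) h
  refine Finset.sum_congr rfl fun b _ => ?_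
  rw [Real.norm_eq_abs, sq_abs]

theorem Pot.mono {q : H → ℝ} {w w' Φ Φ' : ℝ} (h : Pot q w Φ) (hw : w ≤ w') (hΦ : Φ ≤ Φ') :
    Pot q w' Φ' := by
  intro m u hu
  refine le_trans (Finset.sum_le_sum fun b _ => ?_) ((h m u hu).trans hΦ)
  have h1 : max 0 (|q (u b)| - w') ≤ max 0 (|q (u b)| - w) :=
    max_le_max le_rfl (by linarith)
  exact pow_le_pow_left₀ (le_max_left _ _) h1 2

theorem Pot.nonneg {q : H → ℝ} {w Φ : ℝ} (h : Pot q w Φ) : 0 ≤ Φ := by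
  have h1 := h 0 (fun i => i.elim0) ⟨fun i => i.elim0, fun i => i.elim0⟩
  simpa using h1

theorem Pot.le_form {K : H →L[ℝ] H} {w Φ : ℝ} (h : Pot (qf K) w Φ) (hw : 0 ≤ w) (u : H) :
    |⟪K u, u⟫| ≤ (w + √Φ) * ‖u‖ ^ 2 := by
  by_cases hu : u = 0
  · subst hu; simp
  have hn : 0 < ‖u‖ := norm_pos_iff.2 hu
  have ho : Orthonormal ℝ (fun _ : Fin 1 => (‖u‖⁻¹ : ℝ) • u) := by
    refine ⟨fun b => ?_, fun b c hbc => ?_⟩
    · rw [norm_smul, norm_inv, norm_norm, inv_mul_cancel₀ hn.ne']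
    · exact absurd (Subsingleton.elim b c) hbc
  have h1 := h 1 _ ho
  rw [Fin.sum_univ_one] at h1
  have h2 : qf K ((‖u‖⁻¹ : ℝ) • u) = ‖u‖⁻¹ ^ 2 * ⟪K u, u⟫ := by
    unfold qf
    rw [map_smul, inner_smul_left, inner_smul_right]
    simp only [conj_trivial]
    ring
  rw [h2] at h1
  have h3 : max 0 (|‖u‖⁻¹ ^ 2 * ⟪K u, u⟫| - w) ≤ √Φ := Real.le_sqrt_of_sq_le h1
  have h4 : |‖u‖⁻¹ ^ 2 * ⟪K u, u⟫| - w ≤ √Φ := (le_max_right _ _).trans h3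
  rw [abs_mul, abs_of_nonneg (by positivity : (0 : ℝ) ≤ ‖u‖⁻¹ ^ 2)] at h4
  have h5 : ‖u‖⁻¹ ^ 2 * |⟪K u, u⟫| ≤ w + √Φ := by linarith
  have h6 := mul_le_mul_of_nonneg_right h5 (sq_nonneg ‖u‖)
  refine le_trans (le_of_eq ?_) h6
  field_simp

theorem Pot.perturb {q q' : H → ℝ} {w Φ e : ℝ} (h : Pot q w Φ)
    (he : ∀ u, ‖u‖ = 1 → |q' u - q u| ≤ e) : Pot q' (w + e) Φ := by
  intro m u hu
  refine le_trans (Finset.sum_le_sum fun b _ => ?_) (h m u hu)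
  have h1 := he (u b) (hu.1 b)
  have h2 : |q' (u b)| ≤ |q (u b)| + |q' (u b) - q (u b)| := by
    have h3 := abs_add_le (q (u b)) (q' (u b) - q (u b))
    rwa [add_sub_cancel] at h3
  have h4 : max 0 (|q' (u b)| - (w + e)) ≤ max 0 (|q (u b)| - w) :=
    max_le_max le_rfl (by linarith)
  exact pow_le_pow_left₀ (le_max_left _ _) h4 2

theorem norm_le_of_form {K : H →L[ℝ] H} (hK : ∀ u v, ⟪K u, v⟫ = ⟪u, K v⟫) {c : ℝ} (hc : 0 ≤ c)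
    (h : ∀ u, |⟪K u, u⟫| ≤ c * ‖u‖ ^ 2) : ‖K‖ ≤ c := by
  have key : ∀ u v : H, 4 * ⟪K u, v⟫ ≤ 2 * c * (‖u‖ ^ 2 + ‖v‖ ^ 2) := by
    intro u v
    have h1 := (abs_le.1 (h (u + v))).2
    have h2 := (abs_le.1 (h (u - v))).1
    have h3 : ⟪K (u + v), u + v⟫ = ⟪K u, u⟫ + 2 * ⟪K u, v⟫ + ⟪K v, v⟫ := by
      rw [map_add, inner_add_left, inner_add_right, inner_add_right, hK v u,
        real_inner_comm (K u) v]
      ring
    have h4 : ⟪K (u - v), u - v⟫ = ⟪K u, u⟫ - 2 * ⟪K u, v⟫ + ⟪K v, v⟫ := by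
      rw [map_sub, inner_sub_left, inner_sub_right, inner_sub_right, hK v u,
        real_inner_comm (K u) v]
      ring
    have h5 := parallelogram_law_with_norm ℝ u v
    rw [h3] at h1
    rw [h4] at h2
    nlinarith
  refine ContinuousLinearMap.opNorm_le_bound _ hc fun u => ?_
  by_cases hu : K u = 0
  · rw [hu, norm_zero]; positivity
  have hKn : 0 < ‖K u‖ := norm_pos_iff.2 hu
  have hun : 0 ≤ ‖u‖ := norm_nonneg u
  have h1 := key u ((‖u‖ / ‖K u‖) • K u)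
  rw [inner_smul_right, real_inner_self_eq_norm_sq, norm_smul, Real.norm_eq_abs,
    abs_of_nonneg (by positivity : 0 ≤ ‖u‖ / ‖K u‖)] at h1
  have h2 : ‖u‖ / ‖K u‖ * ‖K u‖ ^ 2 = ‖u‖ * ‖K u‖ := by field_simp
  have h3 : ‖u‖ / ‖K u‖ * ‖K u‖ = ‖u‖ := by field_simp
  rw [h2, h3] at h1
  by_cases hu0 : ‖u‖ = 0
  · exfalso
    rw [norm_eq_zero] at hu0
    rw [hu0, map_zero] at hu
    exact hu rfl
  have hup : 0 < ‖u‖ := lt_of_le_of_ne hun (Ne.symm hu0)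
  have h4 : ‖u‖ * ‖K u‖ ≤ ‖u‖ * (c * ‖u‖) := by nlinarith
  exact le_of_mul_le_mul_left h4 hup

theorem Pot.norm_le {K : H →L[ℝ] H} (hK : ∀ u v, ⟪K u, v⟫ = ⟪u, K v⟫) {w Φ : ℝ}
    (h : Pot (qf K) w Φ) (hw : 0 ≤ w) : ‖K‖ ≤ w + √Φ :=
  norm_le_of_form hK (add_nonneg hw (Real.sqrt_nonneg _)) fun u => h.le_form hw u

end

end QC49
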