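import Pool.Agent.Lib.MP_49c203_an.B.Bl
import Pool.Agent.Lib.MP_49c203_an.B.Tb

/-! # row qc-Da : the tensor `Mt` of the form `M` (paper 3.6)

`inner_Qt` : `⟪u⊗u, v_i⊗v_i⟫ = ⟪u,v_i⟫²`.  `inner_St` : `⟪u⊗u, v_i⊗v_j⟫ = y_i y_j`.
`inner_Ct` : `⟪u⊗u, rvec_c⊗ν_c⟫ = ⟪u,rvec_c⟫ ζ_c` and `⟪u,rvec_c⟫ = rr p κ c u`.
(`TensorProduct.inner_tmul`, `inner_sum`, `real_inner_smul_right`, `real_inner_comm`.)
-/

set_option autoImplicit false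

namespace QC49

noncomputable section

open scoped RealInnerProductSpace TensorProduct

variable {H : Type*} [NormedAddCommGroup H] [InnerProductSpace ℝ H]

namespace PD

variable (D : PD H)

def Qt (w : ℝ) (p : ℕ) : H ⊗[ℝ] H :=
  ∑ i, D.qk w p i • ((D.X p).v i ⊗ₜ[ℝ] (D.X p).v i)

def St (p : ℕ) : H ⊗[ℝ] H :=
  ∑ i, ∑ j, (if i = j then (0 : ℝ) else D.Sij p i j) • ((D.X p).v i ⊗ₜ[ℝ] (D.X p).v j)

/-- `r^κ_c = ∑ (κ_i/kap_i) c_i v_i` -/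
def rvec (p : ℕ) (κ : Fin (D.X p).n → ℝ) (c : Fin (D.X p).n → Bool) : H :=
  ∑ i, (κ i / (D.X p).kap i * sg (c i)) • (D.X p).v i

/-- `β_c = 2τaθ(2d-az)` -/
def bet (p : ℕ) (c : Fin (D.X p).n → Bool) : ℝ :=
  2 * tau * D.a * (D.X p).th D.a * (2 * D.d p c - D.a * D.z p c)

def Ct (w : ℝ) (p : ℕ) : H ⊗[ℝ] H :=
  ∑ c, D.bet p c • (D.rvec p (D.qk w p) c ⊗ₜ[ℝ] (D.X p).ν c)

def Mt (w : ℝ) : H ⊗[ℝ] H :=
  ∑ p ∈ D.J, (D.lam p • D.Qt w p + D.St p) + ∑ p ∈ D.J, D.Ct w p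

omit D in
theorem Da_smul (x y : H ⊗[ℝ] H) (r : ℝ) : ⟪x, r • y⟫ = r * ⟪x, y⟫ :=
  real_inner_smul_right x y r

theorem inner_Qt (w : ℝ) (p : ℕ) (u : H) : ⟪u ⊗ₜ[ℝ] u, D.Qt w p⟫ = D.dg p (D.qk w p) u := by
  unfold Qt dg yy
  rw [inner_sum]
  refine Finset.sum_congr rfl fun i _ => ?_
  rw [Da_smul, TensorProduct.inner_tmul, real_inner_comm u]
  ring

theorem inner_St (p : ℕ) (u : H) : ⟪u ⊗ₜ[ℝ] u, D.St p⟫ = D.Sp p u := by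
  unfold St Sp yy
  rw [inner_sum]
  refine Finset.sum_congr rfl fun i _ => ?_
  rw [inner_sum]
  refine Finset.sum_congr rfl fun j _ => ?_
  rw [Da_smul, TensorProduct.inner_tmul, real_inner_comm u ((D.X p).v i),
    real_inner_comm u ((D.X p).v j)]
  by_cases h : i = j
  · rw [if_pos h, if_pos h, zero_mul]
  · rw [if_neg h, if_neg h]
    ring

theorem Da_rvec (p : ℕ) (κ : Fin (D.X p).n → ℝ) (c : Fin (D.X p).n → Bool) (u : H) :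
    ⟪u, D.rvec p κ c⟫ = D.rr p κ c u := by
  unfold rvec rr yy
  rw [inner_sum]
  refine Finset.sum_congr rfl fun i _ => ?_
  rw [real_inner_smul_right, real_inner_comm u]

theorem inner_Ct (w : ℝ) (p : ℕ) (u : H) : ⟪u ⊗ₜ[ℝ] u, D.Ct w p⟫ = D.Cp p (D.qk w p) u := by
  unfold Ct Cp
  rw [inner_sum, Finset.mul_sum]
  refine Finset.sum_congr rfl fun c _ => ?_
  rw [Da_smul, TensorProduct.inner_tmul, D.Da_rvec]
  unfold bet ze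
  rw [real_inner_comm u]
  ring

theorem inner_Mt (w : ℝ) (u : H) : ⟪u ⊗ₜ[ℝ] u, D.Mt w⟫ = D.M w u := by
  have h1 : ∑ p ∈ D.J, ⟪u ⊗ₜ[ℝ] u, D.lam p • D.Qt w p + D.St p⟫
      = ∑ p ∈ D.J, D.lam p * D.dg p (D.qk w p) u + ∑ p ∈ D.J, D.Sp p u := by
    rw [← Finset.sum_add_distrib]
    refine Finset.sum_congr rfl fun p _ => ?_
    rw [inner_add_right, Da_smul, D.inner_Qt, D.inner_St]
  have h2 : ∑ p ∈ D.J, ⟪u ⊗ₜ[ℝ] u, D.Ct w p⟫ = ∑ p ∈ D.J, D.Cp p (D.qk w p) u :=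
    Finset.sum_congr rfl fun p _ => D.inner_Ct w p u
  unfold Mt M
  rw [inner_add_right, inner_sum, inner_sum, h1, h2]

end PD

end

end QC49
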