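import Pool.Agent.Lib.MP_49c203_an.B.Da
import Pool.Agent.Lib.MP_49c203_an.B.Bj

/-! # row qc-Db : norms of `Qt`, `St`, and the convex combination `M_0`

`Qt_sq` : `(v_i⊗v_i)` orthonormal (`inner_tmul`).  `St_sq` : `(v_i⊗v_j)` orthonormal, then `Sij_bound`.  `Qt_St` : `⟪v_i⊗v_i, v_j⊗v_l⟫ = 0` for `j ≠ l`.
`M0_sq` : with `f_p := 1+2FF-τaSα_p` (so `lam p = pp p · f_p`) and `X_p := f_p Qt_p + (1/pp_p) St_p`: `lam Qt + St = pp • X_p`,
 `‖∑ pp X_p‖² ≤ ∑ pp ‖X_p‖²` (convexity of `‖·‖²`: `convexOn` or Cauchy-Schwarz, `∑pp = 1`) and `‖X_p‖² = f_p²‖Qt‖² + ‖St‖²/pp² ≤ f_p²Φ + 16S²`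
 (`S·pp = s α`, `S_mul_pp`).  `f_p² ≤ (1+2FF)² - 2(1+2FF)τaSα_p + τaSα_p·(1/100)`, `∑ pp·aSα_p = g2`, so
 `∑ pp f_p² ≤ (1+2FF)² - 1.97 τ g2`.
-/

set_option autoImplicit false

namespace QC49

noncomputable section

open scoped RealInnerProductSpace TensorProduct

variable {H : Type*} [NormedAddCommGroup H] [InnerProductSpace ℝ H]

namespace PD

variable (D : PD H)

omit D in
theorem Db_smull (x y : H ⊗[ℝ] H) (r : ℝ) : ⟪r • x, y⟫ = r * ⟪x, y⟫ :=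
  real_inner_smul_left x y r

omit D in
theorem Db_nsmul (x : H ⊗[ℝ] H) (r : ℝ) : ‖r • x‖ = |r| * ‖x‖ := by
  have h := norm_smul r x
  rwa [Real.norm_eq_abs] at h

theorem Db_inner {p : ℕ} (hp : p ∈ D.J) (c c' : Fin (D.X p).n → Fin (D.X p).n → ℝ) :
    ⟪∑ i, ∑ j, c i j • ((D.X p).v i ⊗ₜ[ℝ] (D.X p).v j),
      ∑ i, ∑ j, c' i j • ((D.X p).v i ⊗ₜ[ℝ] (D.X p).v j)⟫ = ∑ i, ∑ j, c i j * c' i j := by
  classical
  have hv : ∀ i j, ⟪(D.X p).v i, (D.X p).v j⟫ = if i = j then (1 : ℝ) else 0 :=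
    orthonormal_iff_ite.mp (D.hv p hp)
  rw [sum_inner]
  refine Finset.sum_congr rfl fun i _ => ?_
  rw [sum_inner]
  refine Finset.sum_congr rfl fun j _ => ?_
  rw [inner_sum, Finset.sum_eq_single i]
  · rw [inner_sum, Finset.sum_eq_single j]
    · rw [Db_smull, Da_smul, TensorProduct.inner_tmul, hv, hv,
        if_pos rfl, if_pos rfl]
      ring
    · intro j' _ hj
      rw [Db_smull, Da_smul, TensorProduct.inner_tmul, hv, hv,
        if_neg (Ne.symm hj)]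
      ring
    · intro h; exact absurd (Finset.mem_univ _) h
  · intro i' _ hi
    rw [inner_sum]
    refine Finset.sum_eq_zero fun j' _ => ?_
    rw [Db_smull, Da_smul, TensorProduct.inner_tmul, hv, hv,
      if_neg (Ne.symm hi)]
    ring
  · intro h; exact absurd (Finset.mem_univ _) h

theorem Db_Qt (w : ℝ) (p : ℕ) : D.Qt w p =
    ∑ i, ∑ j, (if i = j then D.qk w p i else 0) • ((D.X p).v i ⊗ₜ[ℝ] (D.X p).v j) := by
  classical
  unfold Qt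
  refine Finset.sum_congr rfl fun i _ => ?_
  rw [Finset.sum_eq_single i]
  · rw [if_pos rfl]
  · intro j _ hj
    rw [if_neg (Ne.symm hj), zero_smul]
  · intro h; exact absurd (Finset.mem_univ _) h

theorem Qt_sq (w : ℝ) {p : ℕ} (hp : p ∈ D.J) : ‖D.Qt w p‖ ^ 2 = ∑ i, D.qk w p i ^ 2 := by
  classical
  rw [← real_inner_self_eq_norm_sq, D.Db_Qt w p, D.Db_inner hp]
  refine Finset.sum_congr rfl fun i _ => ?_
  rw [Finset.sum_eq_single i]
  · rw [if_pos rfl]; ring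
  · intro j _ hj
    rw [if_neg (Ne.symm hj)]; ring
  · intro h; exact absurd (Finset.mem_univ _) h

theorem St_sq {p : ℕ} (hp : p ∈ D.J) : ‖D.St p‖ ^ 2 ≤ (4 * ((D.X p).s * D.al p)) ^ 2 := by
  refine le_trans (le_of_eq ?_) (D.Sij_bound hp)
  rw [← real_inner_self_eq_norm_sq]
  unfold St
  rw [D.Db_inner hp]
  refine Finset.sum_congr rfl fun i _ => Finset.sum_congr rfl fun j _ => ?_
  by_cases h : i = j
  · rw [if_pos h, if_pos h]; ring
  · rw [if_neg h, if_neg h]; ring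

theorem Qt_St (w : ℝ) {p : ℕ} (hp : p ∈ D.J) : ⟪D.Qt w p, D.St p⟫ = 0 := by
  rw [D.Db_Qt w p]
  unfold St
  rw [D.Db_inner hp]
  refine Finset.sum_eq_zero fun i _ => Finset.sum_eq_zero fun j _ => ?_
  by_cases h : i = j
  · rw [if_pos h, if_pos h]; ring
  · rw [if_neg h, if_neg h]; ring

theorem sum_St_le : ‖∑ p ∈ D.J, D.St p‖ ≤ 4 * D.S := by
  refine (norm_sum_le _ _).trans ?_
  unfold S
  rw [Finset.mul_sum]
  refine Finset.sum_le_sum fun p hp => ?_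
  have h1 := D.hs p hp
  have h2 := D.hal p hp
  have h3 : 0 ≤ 4 * ((D.X p).s * D.al p) := by positivity
  exact le_of_sq_le_sq (D.St_sq hp) h3

/-- convexity of the square of the norm -/
theorem Db_convex {E : Type*} [NormedAddCommGroup E] [NormedSpace ℝ E] (s : Finset ℕ) (π : ℕ → ℝ)
    (X : ℕ → E) (h0 : ∀ p ∈ s, 0 ≤ π p) (h1 : ∑ p ∈ s, π p = 1) :
    ‖∑ p ∈ s, π p • X p‖ ^ 2 ≤ ∑ p ∈ s, π p * ‖X p‖ ^ 2 := by
  set m := ∑ p ∈ s, π p * ‖X p‖ with hm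
  have hle : ‖∑ p ∈ s, π p • X p‖ ≤ m := by
    refine (norm_sum_le _ _).trans (Finset.sum_le_sum fun p hp => ?_)
    rw [norm_smul, Real.norm_eq_abs, abs_of_nonneg (h0 p hp)]
  have h2 : ‖∑ p ∈ s, π p • X p‖ ^ 2 ≤ m ^ 2 := pow_le_pow_left₀ (norm_nonneg _) hle 2
  have h3 : 0 ≤ ∑ p ∈ s, π p * (‖X p‖ - m) ^ 2 :=
    Finset.sum_nonneg fun p hp => mul_nonneg (h0 p hp) (sq_nonneg _)
  have h4 : ∑ p ∈ s, π p * (‖X p‖ - m) ^ 2
      = ∑ p ∈ s, π p * ‖X p‖ ^ 2 - 2 * m * ∑ p ∈ s, π p * ‖X p‖ + m ^ 2 * ∑ p ∈ s, π p := by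
    rw [Finset.sum_congr rfl (fun p _ => show π p * (‖X p‖ - m) ^ 2
      = π p * ‖X p‖ ^ 2 - 2 * m * (π p * ‖X p‖) + m ^ 2 * π p by ring),
      Finset.sum_add_distrib, Finset.sum_sub_distrib, ← Finset.mul_sum, ← Finset.mul_sum]
  rw [h4, h1, ← hm] at h3
  nlinarith

theorem M0_sq {w Φ : ℝ} (hΦ : ∀ p ∈ D.J, ∑ i, D.qk w p i ^ 2 ≤ Φ) :
    ‖∑ p ∈ D.J, (D.lam p • D.Qt w p + D.St p)‖ ^ 2
      ≤ ((1 + 2 * D.FF) ^ 2 - 197 / 100 * tau * D.g2) * Φ + 16 * D.S ^ 2 := by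
  have hΦ0 : 0 ≤ Φ := by
    obtain ⟨p, hp⟩ := D.J_nonempty
    exact (Finset.sum_nonneg fun i _ => sq_nonneg _).trans (hΦ p hp)
  have hF := abs_le.1 D.FF_small
  have hS := D.S_pos
  have hS' := D.S_le_num
  have ha := D.ha
  have ha' := D.ha'
  set L : ℝ := 1 + 2 * D.FF with hL
  let t : ℕ → ℝ := fun p => tau * D.a * D.S * D.al p
  let f : ℕ → ℝ := fun p => L - t p
  let X : ℕ → H ⊗[ℝ] H := fun p => f p • D.Qt w p + (D.pp p)⁻¹ • D.St p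
  have ht0 : ∀ p ∈ D.J, 0 ≤ t p := by
    intro p hp
    have h2 := D.hal p hp
    have h3 : (0 : ℝ) < tau := by rw [tau_eq]; norm_num
    exact (mul_pos (mul_pos (mul_pos h3 ha) hS) h2).le
  have ht1 : ∀ p ∈ D.J, t p ≤ 1 / 100 := by
    intro p hp
    have h2 := D.hal p hp
    have h2' := D.hal' p hp
    show tau * D.a * D.S * D.al p ≤ 1 / 100
    rw [tau_eq]
    have h4 : D.a * D.S ≤ 1 := by
      nlinarith
    have h5 : D.a * D.S * D.al p ≤ 1 := by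
      have : 0 < D.a * D.S := mul_pos ha hS
      nlinarith
    have h6 : 0 < D.a * D.S * D.al p := mul_pos (mul_pos ha hS) h2
    have h7 : 1 / 64 * D.a * D.S * D.al p = 1 / 64 * (D.a * D.S * D.al p) := by ring
    have h8 : D.a * D.S * D.al p ≤ 1 / 1000 := by
      have : D.a * D.S ≤ 1 / 1000 := by
        have : D.S ≤ 1 := by linarith [hS', show (2 : ℝ) / 10 ^ 13 ≤ 1 by norm_num]
        nlinarith
      nlinarith
    rw [h7]
    linarith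
  have hX : ∑ p ∈ D.J, (D.lam p • D.Qt w p + D.St p) = ∑ p ∈ D.J, D.pp p • X p := by
    refine Finset.sum_congr rfl fun p hp => ?_
    have h1 : D.pp p ≠ 0 := (D.pp_pos hp).ne'
    show D.lam p • D.Qt w p + D.St p
      = D.pp p • (f p • D.Qt w p + (D.pp p)⁻¹ • D.St p)
    rw [smul_add, smul_smul, smul_smul, mul_inv_cancel₀ h1, one_smul]
    rfl
  have hXn : ∀ p ∈ D.J, D.pp p * ‖X p‖ ^ 2 ≤ D.pp p * (f p ^ 2 * Φ) + D.pp p * (16 * D.S ^ 2) := by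
    intro p hp
    have hpp := D.pp_pos hp
    have h1 : ‖X p‖ ^ 2 = f p ^ 2 * ‖D.Qt w p‖ ^ 2 + ((D.pp p)⁻¹) ^ 2 * ‖D.St p‖ ^ 2 := by
      show ‖f p • D.Qt w p + (D.pp p)⁻¹ • D.St p‖ ^ 2 = _
      rw [norm_add_sq_real, Db_smull, Da_smul, D.Qt_St w hp,
        Db_nsmul, Db_nsmul, mul_pow, mul_pow, sq_abs, sq_abs]
      ring
    have h2 : ((D.pp p)⁻¹) ^ 2 * ‖D.St p‖ ^ 2 ≤ 16 * D.S ^ 2 := by
      have h3 := D.St_sq hp
      rw [← D.S_mul_pp p] at h3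
      calc ((D.pp p)⁻¹) ^ 2 * ‖D.St p‖ ^ 2 ≤ ((D.pp p)⁻¹) ^ 2 * (4 * (D.S * D.pp p)) ^ 2 :=
            mul_le_mul_of_nonneg_left h3 (sq_nonneg _)
        _ = 16 * D.S ^ 2 := by
            have := hpp.ne'
            field_simp
            ring
    have h4 : f p ^ 2 * ‖D.Qt w p‖ ^ 2 ≤ f p ^ 2 * Φ := by
      rw [D.Qt_sq w hp]
      exact mul_le_mul_of_nonneg_left (hΦ p hp) (sq_nonneg _)
    rw [← mul_add, h1]
    exact mul_le_mul_of_nonneg_left (add_le_add h4 h2) hpp.le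
  have hsumt : ∑ p ∈ D.J, D.pp p * t p = tau * D.g2 := by
    unfold g2
    rw [Finset.mul_sum]
    refine Finset.sum_congr rfl fun p _ => ?_
    have := D.S_mul_pp p
    show D.pp p * (tau * D.a * D.S * D.al p) = _
    calc D.pp p * (tau * D.a * D.S * D.al p) = tau * D.a * D.al p * (D.S * D.pp p) := by ring
      _ = tau * (D.a * (D.X p).s * D.al p ^ 2) := by rw [this]; ring
  have hsumf : ∑ p ∈ D.J, D.pp p * f p ^ 2 ≤ L ^ 2 - 197 / 100 * tau * D.g2 := by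
    have h1 : ∀ p ∈ D.J, D.pp p * f p ^ 2
        ≤ L ^ 2 * D.pp p - (2 * L - 1 / 100) * (D.pp p * t p) := by
      intro p hp
      have h2 := ht0 p hp
      have h3 := ht1 p hp
      have h4 : f p ^ 2 ≤ L ^ 2 - (2 * L - 1 / 100) * t p := by
        show (L - t p) ^ 2 ≤ _
        nlinarith
      have h5 := mul_le_mul_of_nonneg_left h4 (D.pp_nonneg hp)
      calc D.pp p * f p ^ 2 ≤ D.pp p * (L ^ 2 - (2 * L - 1 / 100) * t p) := h5
        _ = _ := by ring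
    refine (Finset.sum_le_sum h1).trans ?_
    rw [Finset.sum_sub_distrib, ← Finset.mul_sum, ← Finset.mul_sum, D.sum_pp, hsumt]
    have h2 := D.g2_pos
    have h3 : 0 < tau * D.g2 := mul_pos (by rw [tau_eq]; norm_num) h2
    have h4 : (197 : ℝ) / 100 ≤ 2 * L - 1 / 100 := by
      rw [hL]
      have : -(1 / 10 ^ 6 : ℝ) ≤ D.FF := hF.1
      norm_num at this ⊢
      linarith
    have h5 := mul_le_mul_of_nonneg_right h4 h3.le
    linarith
  rw [hX]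
  refine (Db_convex D.J D.pp X (fun p hp => D.pp_nonneg hp) D.sum_pp).trans ?_
  refine (Finset.sum_le_sum hXn).trans ?_
  rw [Finset.sum_add_distrib]
  have h1 : ∑ p ∈ D.J, D.pp p * (f p ^ 2 * Φ) = (∑ p ∈ D.J, D.pp p * f p ^ 2) * Φ := by
    rw [Finset.sum_mul]
    exact Finset.sum_congr rfl fun p _ => by ring
  have h2 : ∑ p ∈ D.J, D.pp p * (16 * D.S ^ 2) = 16 * D.S ^ 2 := by
    rw [← Finset.sum_mul, D.sum_pp, one_mul]
  rw [h1, h2]
  have := mul_le_mul_of_nonneg_right hsumf hΦ0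
  linarith

end PD

end

end QC49
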