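import Pool.Agent.Lib.MP_49c203_an.B.Db
import Pool.Agent.Lib.MP_49c203_an.B.Bm
import Pool.Agent.Lib.MP_49c203_an.B.Bn

/-! # row qc-Dc : the tensor `C^Q`: norm and correlation with `Qt` (paper 3.6)

`sum_bet_sq` : `|bet| ≤ 2τaθ·2.0005 α` (`dz_abs_le`), `∑_c bet² ≤ 16.01 τ² (aθ)² 2^n α² = 16.01 τ² a s α²` (`th_sq`).
`rvec_sq` : `‖rvec κ c‖² = ∑ (κ_i/kap_i)² ≤ (7/6) ∑ κ_i²`.
`Ct_sq` : `‖∑_p Ct_p‖² = ∑_p∑_c bet²‖rvec_c‖²` (all `ν` orthonormal: `⟪r⊗ν, r'⊗ν'⟫ = ⟪r,r'⟫⟪ν,ν'⟫`) `≤ 16.01·(7/6)τ² g2 Φ ≤ 18.7 τ² g2 Φ`.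
`PZ_v_le` : if `qk w p i ≠ 0` then `|k_i| > w`; `k_i • PZ v_i = PZ (K_p v_i)` and `‖PZ (K_p v_i)‖² = ⟪PZ K_p v_i, K_p v_i⟫ = ⟪K_p (PZ K_p v_i), v_i⟫ ≤ 2η‖PZ K_p v_i‖`
  (`PZ` is the orthogonal projection; `Kp_PZ_le` applied to `u = K_p v_i`), so `‖PZ v_i‖ ≤ 2η/w`.
`Qt_Ct` : `⟪Qt_p, ∑_{p'} Ct_{p'}⟫ = ∑_{p',c} bet_{p'c} ⟪ ∑_i qk_i ⟪v_i,ν_{p'c}⟫ v_i , rvec_{p'c} ⟫`, Cauchy-Schwarz twice:
 `≤ √(∑_{p',c}∑_i qk_i²⟪v_i,ν_{p'c}⟫²) √(∑ bet²‖rvec‖²)`, first factor² `= ∑_i qk_i²‖PZ v_i‖² ≤ (2η/w)²Φ`, second factor² `≤ 18.7τ²g2Φ`.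
-/

set_option autoImplicit false

namespace QC49

noncomputable section

open scoped RealInnerProductSpace TensorProduct

variable {H : Type*} [NormedAddCommGroup H] [InnerProductSpace ℝ H]

namespace PD

variable (D : PD H)

theorem sum_bet_sq {p : ℕ} (hp : p ∈ D.J) :
    ∑ c, D.bet p c ^ 2 ≤ 1602 / 100 * tau ^ 2 * (D.a * (D.X p).s * D.al p ^ 2) := by
  have h1 : ∀ c, D.bet p c ^ 2
      ≤ 4 * tau ^ 2 * D.a ^ 2 * (D.X p).th D.a ^ 2 * ((20005 / 10000) ^ 2 * D.al p ^ 2) := by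
    intro c
    have h2 := D.dz_abs_le hp c
    have h3 : (2 * D.d p c - D.a * D.z p c) ^ 2 ≤ (20005 / 10000 * D.al p) ^ 2 := by
      rw [← sq_abs (2 * D.d p c - D.a * D.z p c)]
      exact pow_le_pow_left₀ (abs_nonneg _) h2 2
    have h4 : D.bet p c ^ 2 = 4 * tau ^ 2 * D.a ^ 2 * (D.X p).th D.a ^ 2
        * (2 * D.d p c - D.a * D.z p c) ^ 2 := by
      unfold bet; ring
    rw [h4]
    have h5 : (20005 / 10000 * D.al p) ^ 2 = (20005 / 10000) ^ 2 * D.al p ^ 2 := by ring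
    rw [← h5]
    exact mul_le_mul_of_nonneg_left h3 (by positivity)
  refine (Finset.sum_le_sum fun c _ => h1 c).trans ?_
  rw [Finset.sum_const, Finset.card_univ, Fintype.card_fun, Fintype.card_bool, Fintype.card_fin,
    nsmul_eq_mul]
  push_cast
  have h6 := D.th_sq hp
  have h7 : (2 : ℝ) ^ (D.X p).n * (4 * tau ^ 2 * D.a ^ 2 * (D.X p).th D.a ^ 2
      * ((20005 / 10000) ^ 2 * D.al p ^ 2))
      = 4 * (20005 / 10000) ^ 2 * tau ^ 2 * (D.a * ((D.X p).th D.a ^ 2 * (D.a * 2 ^ (D.X p).n))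
        * D.al p ^ 2) := by ring
  rw [h7, h6]
  have h8 := D.ha
  have h9 := D.hs p hp
  have h10 : 0 ≤ tau ^ 2 * (D.a * (D.X p).s * D.al p ^ 2) := by positivity
  nlinarith

theorem rvec_sq {p : ℕ} (hp : p ∈ D.J) (κ : Fin (D.X p).n → ℝ) (c : Fin (D.X p).n → Bool) :
    ‖D.rvec p κ c‖ ^ 2 ≤ 7 / 6 * ∑ i, κ i ^ 2 := by
  unfold rvec
  rw [D.v_sum_sq hp, Finset.mul_sum]
  refine Finset.sum_le_sum fun i _ => ?_
  have h1 := D.kap_sq_ge hp i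
  have h2 := D.kap_pos hp i
  have h3 : (κ i / (D.X p).kap i * sg (c i)) ^ 2 = κ i ^ 2 / (D.X p).kap i ^ 2 := by
    rw [mul_pow, div_pow, sq (sg (c i)), sg_sq, mul_one]
  rw [h3, div_le_iff₀ (by positivity)]
  nlinarith [sq_nonneg (κ i)]

private theorem Dc_inner (r r' : ℝ) (x y x' y' : H) :
    ⟪r • (x ⊗ₜ[ℝ] y), r' • (x' ⊗ₜ[ℝ] y')⟫ = r * r' * (⟪x, x'⟫ * ⟪y, y'⟫) := by
  rw [TensorProduct.smul_tmul', TensorProduct.smul_tmul', TensorProduct.inner_tmul,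
    real_inner_smul_left, real_inner_smul_right]
  ring

private theorem Dc_nu_ne {p p' : ℕ} (hp : p ∈ D.J) (hp' : p' ∈ D.J) (h : p ≠ p') (w : ℝ) :
    ⟪D.Ct w p, D.Ct w p'⟫ = 0 := by
  unfold Ct
  rw [sum_inner]
  refine Finset.sum_eq_zero fun c _ => ?_
  rw [inner_sum]
  refine Finset.sum_eq_zero fun c' _ => ?_
  rw [Dc_inner, D.hν2 p hp p' hp' h c c', mul_zero, mul_zero]

private theorem Dc_Ct_self {p : ℕ} (hp : p ∈ D.J) (w : ℝ) :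
    ⟪D.Ct w p, D.Ct w p⟫ = ∑ c, D.bet p c ^ 2 * ‖D.rvec p (D.qk w p) c‖ ^ 2 := by
  unfold Ct
  rw [sum_inner]
  refine Finset.sum_congr rfl fun c _ => ?_
  rw [inner_sum, Finset.sum_eq_single c]
  · rw [Dc_inner, real_inner_self_eq_norm_sq, real_inner_self_eq_norm_sq, (D.hν1 p hp).1 c]
    ring
  · intro c' _ hc
    rw [Dc_inner, (D.hν1 p hp).2 (Ne.symm hc), mul_zero, mul_zero]
  · simp

private theorem Dc_Phi_nonneg {w Φ : ℝ} (hΦ : ∀ p ∈ D.J, ∑ i, D.qk w p i ^ 2 ≤ Φ) : 0 ≤ Φ := by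
  obtain ⟨p, hp⟩ := D.J_nonempty
  exact (Finset.sum_nonneg fun i _ => sq_nonneg _).trans (hΦ p hp)

private theorem Dc_sum_le {w Φ : ℝ} (hΦ : ∀ p ∈ D.J, ∑ i, D.qk w p i ^ 2 ≤ Φ) :
    ∑ p ∈ D.J, ∑ c, D.bet p c ^ 2 * ‖D.rvec p (D.qk w p) c‖ ^ 2
      ≤ 187 / 10 * tau ^ 2 * D.g2 * Φ := by
  have hΦ0 := D.Dc_Phi_nonneg hΦ
  have h1 : ∀ p ∈ D.J, ∑ c, D.bet p c ^ 2 * ‖D.rvec p (D.qk w p) c‖ ^ 2
      ≤ 1869 / 100 * tau ^ 2 * (D.a * (D.X p).s * D.al p ^ 2) * Φ := by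
    intro p hp
    have h2 : ∑ c, D.bet p c ^ 2 * ‖D.rvec p (D.qk w p) c‖ ^ 2
        ≤ ∑ c, D.bet p c ^ 2 * (7 / 6 * Φ) := by
      refine Finset.sum_le_sum fun c _ => mul_le_mul_of_nonneg_left ?_ (sq_nonneg _)
      exact (D.rvec_sq hp _ c).trans (mul_le_mul_of_nonneg_left (hΦ p hp) (by norm_num))
    refine h2.trans ?_
    rw [← Finset.sum_mul]
    refine (mul_le_mul_of_nonneg_right (D.sum_bet_sq hp) (by positivity)).trans (le_of_eq ?_)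
    ring
  refine (Finset.sum_le_sum h1).trans ?_
  rw [← Finset.sum_mul, ← Finset.mul_sum]
  have h3 : ∑ p ∈ D.J, D.a * (D.X p).s * D.al p ^ 2 = D.g2 := rfl
  rw [h3]
  have h4 := D.g2_pos
  have h5 : 0 ≤ tau ^ 2 * D.g2 * Φ := by positivity
  nlinarith

theorem Ct_sq {w Φ : ℝ} (hΦ : ∀ p ∈ D.J, ∑ i, D.qk w p i ^ 2 ≤ Φ) :
    ‖∑ p ∈ D.J, D.Ct w p‖ ^ 2 ≤ 187 / 10 * tau ^ 2 * D.g2 * Φ := by
  have h1 : ‖∑ p ∈ D.J, D.Ct w p‖ ^ 2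
      = ∑ p ∈ D.J, ∑ c, D.bet p c ^ 2 * ‖D.rvec p (D.qk w p) c‖ ^ 2 := by
    rw [← real_inner_self_eq_norm_sq, sum_inner]
    refine Finset.sum_congr rfl fun p hp => ?_
    rw [inner_sum, Finset.sum_eq_single_of_mem p hp, D.Dc_Ct_self hp w]
    intro p' hp' hne
    exact D.Dc_nu_ne hp hp' (Ne.symm hne) w
  rw [h1]
  exact D.Dc_sum_le hΦ

private theorem Dc_PZ_smul (t : ℝ) (u : H) : D.PZ (t • u) = t • D.PZ u := by
  unfold PZ ze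
  simp only [real_inner_smul_right, Finset.smul_sum, smul_smul]

private theorem Dc_PZ_self (u : H) : ‖D.PZ u‖ ^ 2 = ⟪D.PZ u, u⟫ := by
  have h := D.inner_sub_PZ u
  rw [inner_sub_left, real_inner_self_eq_norm_sq, real_inner_comm] at h
  linarith

theorem PZ_v_le {w : ℝ} (hw : 0 < w) {p : ℕ} (hp : p ∈ D.J) (i : Fin (D.X p).n)
    (hi : D.qk w p i ≠ 0) : ‖D.PZ ((D.X p).v i)‖ ≤ 2 * D.η / w := by
  have hk : w < |(D.X p).k i| := by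
    by_contra hcon
    rw [not_lt] at hcon
    have h := abs_le.1 hcon
    apply hi
    unfold qk rk
    rw [min_eq_right h.2, max_eq_right h.1, sub_self]
  set u := (D.X p).Kp ((D.X p).v i) with hu
  have h1 : ‖D.PZ u‖ ^ 2 ≤ 2 * D.η * ‖D.PZ u‖ := by
    rw [D.Dc_PZ_self u]
    conv_lhs => rw [hu]
    rw [← D.Kp_symm]
    refine (real_inner_le_norm _ _).trans ?_
    rw [(D.hv p hp).1 i, mul_one]
    exact D.Kp_PZ_le hp u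
  have h2 : ‖D.PZ u‖ ≤ 2 * D.η := by
    by_contra hcon
    rw [not_le] at hcon
    have h3 := D.hη
    nlinarith
  have h3 : ‖D.PZ u‖ = |(D.X p).k i| * ‖D.PZ ((D.X p).v i)‖ := by
    rw [hu, D.Kp_v hp, D.Dc_PZ_smul, norm_smul, Real.norm_eq_abs]
  rw [le_div_iff₀ hw]
  have h4 : ‖D.PZ ((D.X p).v i)‖ * w ≤ |(D.X p).k i| * ‖D.PZ ((D.X p).v i)‖ := by
    rw [mul_comm]
    exact mul_le_mul_of_nonneg_right hk.le (norm_nonneg _)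
  rw [h3] at h2
  exact h4.trans h2

theorem Qt_Ct {w Φ : ℝ} (hw : 0 < w) (hΦ : ∀ p ∈ D.J, ∑ i, D.qk w p i ^ 2 ≤ Φ) {p : ℕ}
    (hp : p ∈ D.J) :
    |⟪D.Qt w p, ∑ p' ∈ D.J, D.Ct w p'⟫| ≤ 2 * D.η / w * √Φ * √(187 / 10 * tau ^ 2 * D.g2 * Φ) := by
  -- the vectors A
  let A : ∀ p', (Fin (D.X p').n → Bool) → H := fun p' c =>
    ∑ i, (D.qk w p i * D.ze p' c ((D.X p).v i)) • (D.X p).v i
  have hA : ∀ p' c, ⟪D.Qt w p, D.bet p' c • (D.rvec p' (D.qk w p') c ⊗ₜ[ℝ] (D.X p').ν c)⟫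
      = D.bet p' c * ⟪A p' c, D.rvec p' (D.qk w p') c⟫ := by
    intro p' c
    unfold Qt
    rw [sum_inner, sum_inner, Finset.mul_sum]
    refine Finset.sum_congr rfl fun i _ => ?_
    rw [Dc_inner, real_inner_smul_left]
    unfold ze
    rw [real_inner_comm ((D.X p).v i) ((D.X p').ν c)]
    ring
  have h1 : ⟪D.Qt w p, ∑ p' ∈ D.J, D.Ct w p'⟫
      = ∑ p' ∈ D.J, ∑ c, D.bet p' c * ⟪A p' c, D.rvec p' (D.qk w p') c⟫ := by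
    rw [inner_sum]
    refine Finset.sum_congr rfl fun p' _ => ?_
    unfold Ct
    rw [inner_sum]
    exact Finset.sum_congr rfl fun c _ => hA p' c
  have h2 : |⟪D.Qt w p, ∑ p' ∈ D.J, D.Ct w p'⟫|
      ≤ ∑ x ∈ D.J.sigma (fun p' => (Finset.univ : Finset (Fin (D.X p').n → Bool))), ‖A x.1 x.2‖
        * (|D.bet x.1 x.2| * ‖D.rvec x.1 (D.qk w x.1) x.2‖) := by
    rw [h1, Finset.sum_sigma' D.J (fun p' => (Finset.univ : Finset (Fin (D.X p').n → Bool)))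
      (fun p' c => D.bet p' c * ⟪A p' c, D.rvec p' (D.qk w p') c⟫)]
    refine (Finset.abs_sum_le_sum_abs _ _).trans (Finset.sum_le_sum fun x _ => ?_)
    rw [abs_mul]
    calc |D.bet x.1 x.2| * |⟪A x.1 x.2, D.rvec x.1 (D.qk w x.1) x.2⟫|
        ≤ |D.bet x.1 x.2| * (‖A x.1 x.2‖ * ‖D.rvec x.1 (D.qk w x.1) x.2‖) :=
          mul_le_mul_of_nonneg_left (abs_real_inner_le_norm _ _) (abs_nonneg _)
      _ = _ := by ring
  have h3 : ∑ x ∈ D.J.sigma (fun p' => (Finset.univ : Finset (Fin (D.X p').n → Bool))),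
      (|D.bet x.1 x.2| * ‖D.rvec x.1 (D.qk w x.1) x.2‖) ^ 2
      ≤ 187 / 10 * tau ^ 2 * D.g2 * Φ := by
    rw [Finset.sum_sigma]
    refine (le_of_eq ?_).trans (D.Dc_sum_le hΦ)
    refine Finset.sum_congr rfl fun p' _ => Finset.sum_congr rfl fun c _ => ?_
    rw [mul_pow, sq_abs]
  have h4 : ∑ x ∈ D.J.sigma (fun p' => (Finset.univ : Finset (Fin (D.X p').n → Bool))), ‖A x.1 x.2‖ ^ 2
      ≤ (2 * D.η / w) ^ 2 * Φ := by
    rw [Finset.sum_sigma]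
    have h5 : ∀ p' ∈ D.J, ∑ c, ‖A p' c‖ ^ 2
        = ∑ i, D.qk w p i ^ 2 * ∑ c, D.ze p' c ((D.X p).v i) ^ 2 := by
      intro p' _
      have h6 : ∀ c, ‖A p' c‖ ^ 2 = ∑ i, D.qk w p i ^ 2 * D.ze p' c ((D.X p).v i) ^ 2 := by
        intro c
        show ‖∑ i, (D.qk w p i * D.ze p' c ((D.X p).v i)) • (D.X p).v i‖ ^ 2 = _
        rw [D.v_sum_sq hp]
        exact Finset.sum_congr rfl fun i _ => by ring
      rw [Finset.sum_congr rfl fun c _ => h6 c, Finset.sum_comm]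
      exact Finset.sum_congr rfl fun i _ => by rw [Finset.mul_sum]
    show ∑ p' ∈ D.J, ∑ c, ‖A p' c‖ ^ 2 ≤ _
    rw [Finset.sum_congr rfl h5, Finset.sum_comm]
    have h7 : ∀ i, ∑ p' ∈ D.J, D.qk w p i ^ 2 * ∑ c, D.ze p' c ((D.X p).v i) ^ 2
        ≤ (2 * D.η / w) ^ 2 * D.qk w p i ^ 2 := by
      intro i
      rw [← Finset.mul_sum]
      have h8 : ∑ p' ∈ D.J, ∑ c, D.ze p' c ((D.X p).v i) ^ 2 = ‖D.PZ ((D.X p).v i)‖ ^ 2 :=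
        (D.PZ_sq _).symm
      rw [h8]
      by_cases h0 : D.qk w p i = 0
      · rw [h0]; simp
      · rw [mul_comm]
        refine mul_le_mul_of_nonneg_right ?_ (sq_nonneg _)
        exact pow_le_pow_left₀ (norm_nonneg _) (D.PZ_v_le hw hp i h0) 2
    refine (Finset.sum_le_sum fun i _ => h7 i).trans ?_
    rw [← Finset.mul_sum]
    exact mul_le_mul_of_nonneg_left (hΦ p hp) (sq_nonneg _)
  have hη := D.hη
  refine h2.trans ((Real.sum_mul_le_sqrt_mul_sqrt _ _ _).trans ?_)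
  refine mul_le_mul ?_ (Real.sqrt_le_sqrt h3) (Real.sqrt_nonneg _) (by positivity)
  refine (Real.sqrt_le_sqrt h4).trans (le_of_eq ?_)
  rw [Real.sqrt_mul (sq_nonneg _), Real.sqrt_sq (by positivity)]

end PD

end

end QC49
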