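import Pool.Agent.Lib.MP_49c203_an.B.Dc

/-! # row qc-Dd : `‖Mt‖²` (paper 3.6, end)

`‖Mt‖² = ‖M0‖² + ‖C‖² + 2⟪∑lam Qt, C⟫ + 2⟪∑St, C⟫`, `C = ∑ Ct`, `g = √g2`.
`‖C‖ ≤ √18.7 τ g √Φ`, `√18.7 ≤ 4.325`.
`2|⟪∑lam Qt, C⟫| ≤ 2 (∑ lam)(2η/w)√Φ·4.325τg√Φ ≤ 17.5 (η/(w g)) τ g2 Φ ≤ 10⁻⁵ τ g2 Φ` (`lam_le`, `eta_le_wg`).
`2|⟪∑St,C⟫| ≤ 2·4S·4.325τg√Φ = 34.6 τ S g√Φ ≤ 0.3 τ g2 Φ + (34.6²/1.2)τ S² ≤ 0.3τ g2 Φ + 16 S²` (`τ = 1/64`: `1197.2/(1.2·64) = 15.6`).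
`18.7τ² g2 Φ = 0.2922 τ g2 Φ`.  Total `-1.97+0.2922+0.3+0.00001 ≤ -1.35`.
-/

set_option autoImplicit false

namespace QC49

noncomputable section

open scoped RealInnerProductSpace TensorProduct

variable {H : Type*} [NormedAddCommGroup H] [InnerProductSpace ℝ H]

namespace PD

variable (D : PD H)

theorem Mt_sq {w Φ : ℝ} (hw : 1000 * D.a ≤ w) (hΦ0 : 0 ≤ Φ)
    (hΦ : ∀ p ∈ D.J, ∑ i, D.qk w p i ^ 2 ≤ Φ) :
    ‖D.Mt w‖ ^ 2 ≤ ((1 + 2 * D.FF) ^ 2 - 135 / 100 * tau * D.g2) * Φ + 32 * D.S ^ 2 := by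
  have hwpos : 0 < w := lt_of_lt_of_le (by have := D.ha; positivity) hw
  obtain ⟨C, hC⟩ : ∃ C, C = ∑ p ∈ D.J, D.Ct w p := ⟨_, rfl⟩
  obtain ⟨St', hSt'⟩ : ∃ St', St' = ∑ p ∈ D.J, D.St p := ⟨_, rfl⟩
  obtain ⟨M0, hM0⟩ : ∃ M0, M0 = ∑ p ∈ D.J, (D.lam p • D.Qt w p + D.St p) := ⟨_, rfl⟩
  have hMt : D.Mt w = M0 + C := by rw [hM0, hC]; rfl
  obtain ⟨G, hG⟩ : ∃ G, G = √D.g2 * √Φ := ⟨_, rfl⟩
  have hG0 : 0 ≤ G := by rw [hG]; positivity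
  have hG2 : G ^ 2 = D.g2 * Φ := by
    rw [hG, mul_pow, Real.sq_sqrt D.g2_pos.le, Real.sq_sqrt hΦ0]
  obtain ⟨R, hR⟩ : ∃ R, R = √(187 / 10 * tau ^ 2 * D.g2 * Φ) := ⟨_, rfl⟩
  have hR0 : 0 ≤ R := by rw [hR]; exact Real.sqrt_nonneg _
  have hRG : R ≤ 4325 / 1000 * tau * G := by
    rw [hR]
    refine Real.sqrt_le_iff.2 ⟨by rw [tau_eq]; positivity, ?_⟩
    have h1 : (4325 / 1000 * tau * G) ^ 2 = (4325 / 1000) ^ 2 * tau ^ 2 * (D.g2 * Φ) := by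
      rw [mul_pow, mul_pow, hG2]
    have h2 : 0 ≤ tau ^ 2 * (D.g2 * Φ) := by have := D.g2_pos; positivity
    rw [h1]
    nlinarith
  have hCsq : ‖C‖ ^ 2 ≤ 187 / 10 * tau ^ 2 * D.g2 * Φ := by rw [hC]; exact D.Ct_sq hΦ
  have hCn : ‖C‖ ≤ R := by
    rw [hR]
    exact Real.le_sqrt_of_sq_le hCsq
  have hM0sq : ‖M0‖ ^ 2 ≤ ((1 + 2 * D.FF) ^ 2 - 197 / 100 * tau * D.g2) * Φ + 16 * D.S ^ 2 := by
    rw [hM0]; exact D.M0_sq hΦ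
  -- the inner product of `M0` and `C`
  have hinner : ⟪M0, C⟫ = ∑ p ∈ D.J, D.lam p * ⟪D.Qt w p, C⟫ + ⟪St', C⟫ := by
    rw [hM0, Finset.sum_add_distrib, inner_add_left, ← hSt', sum_inner]
    congr 1
    exact Finset.sum_congr rfl fun p _ =>
      real_inner_smul_left (F := H ⊗[ℝ] H) (D.Qt w p) C (D.lam p)
  have hlam0 : ∀ p ∈ D.J, 0 ≤ D.lam p := fun p hp =>
    le_trans (by have := D.pp_nonneg hp; positivity) (D.lam_ge hp)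
  have hQ : ∑ p ∈ D.J, D.lam p * ⟪D.Qt w p, C⟫
      ≤ 101 / 100 * (2 * D.η / w * √Φ * R) := by
    have hX0 : 0 ≤ 2 * D.η / w * √Φ * R := by
      have := D.hη
      positivity
    calc ∑ p ∈ D.J, D.lam p * ⟪D.Qt w p, C⟫
        ≤ ∑ p ∈ D.J, 101 / 100 * D.pp p * (2 * D.η / w * √Φ * R) := by
          refine Finset.sum_le_sum fun p hp => ?_
          have h1 : ⟪D.Qt w p, C⟫ ≤ 2 * D.η / w * √Φ * R := by
            rw [hC, hR]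
            exact (le_abs_self _).trans (D.Qt_Ct hwpos hΦ hp)
          calc D.lam p * ⟪D.Qt w p, C⟫ ≤ D.lam p * (2 * D.η / w * √Φ * R) :=
                mul_le_mul_of_nonneg_left h1 (hlam0 p hp)
            _ ≤ 101 / 100 * D.pp p * (2 * D.η / w * √Φ * R) :=
                mul_le_mul_of_nonneg_right (D.lam_le hp) hX0
      _ = 101 / 100 * (2 * D.η / w * √Φ * R) := by
          rw [← Finset.sum_mul, ← Finset.mul_sum, D.sum_pp, mul_one]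
  have hηw : D.η / w ≤ 2 / 10 ^ 7 * √D.g2 := by
    rw [div_le_iff₀ hwpos]
    have := D.eta_le_wg hw
    linarith
  have hQ2 : 101 / 100 * (2 * D.η / w * √Φ * R) ≤ 2 / 10 ^ 6 * tau * (D.g2 * Φ) := by
    have h1 : 2 * D.η / w * √Φ ≤ 4 / 10 ^ 7 * G := by
      have h2 : 2 * D.η / w * √Φ = 2 * (D.η / w) * √Φ := by ring
      rw [h2, hG]
      have h3 := mul_le_mul_of_nonneg_right hηw (Real.sqrt_nonneg Φ)
      linarith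
    have h4 : 2 * D.η / w * √Φ * R ≤ 4 / 10 ^ 7 * G * (4325 / 1000 * tau * G) :=
      mul_le_mul h1 hRG hR0 (by positivity)
    have h5 : 4 / 10 ^ 7 * G * (4325 / 1000 * tau * G)
        = 4 / 10 ^ 7 * (4325 / 1000) * (tau * (D.g2 * Φ)) := by
      rw [← hG2]; ring
    have h6 : 0 ≤ tau * (D.g2 * Φ) := by
      rw [tau_eq]; have := D.g2_pos; positivity
    rw [h5] at h4
    nlinarith
  have hS : ⟪St', C⟫ ≤ 4 * D.S * (4325 / 1000 * tau * G) := by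
    calc ⟪St', C⟫ ≤ ‖St'‖ * ‖C‖ := real_inner_le_norm (F := H ⊗[ℝ] H) St' C
      _ ≤ (4 * D.S) * R := by
          have h1 : ‖St'‖ ≤ 4 * D.S := by rw [hSt']; exact D.sum_St_le
          exact mul_le_mul h1 hCn (norm_nonneg _) (by have := D.S_pos; positivity)
      _ ≤ 4 * D.S * (4325 / 1000 * tau * G) :=
          mul_le_mul_of_nonneg_left hRG (by have := D.S_pos; positivity)
  have hS2 : 2 * (4 * D.S * (4325 / 1000 * tau * G))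
      ≤ 3 / 10 * tau * (D.g2 * Φ) + 16 * D.S ^ 2 := by
    rw [← hG2, tau_eq]
    nlinarith [sq_nonneg (G * (3 / 10 / 64) - D.S * (4 * 4325 / 1000 / 64)), sq_nonneg D.S,
      sq_nonneg G]
  rw [hMt, norm_add_sq_real, hinner]
  have hg : 0 ≤ D.g2 * Φ := by have := D.g2_pos; positivity
  have hfin : 187 / 10 * tau ^ 2 * D.g2 * Φ + 2 * (2 / 10 ^ 6 * tau * (D.g2 * Φ))
      + 3 / 10 * tau * (D.g2 * Φ) ≤ (197 / 100 - 135 / 100) * tau * (D.g2 * Φ) := by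
    rw [tau_eq]
    nlinarith
  nlinarith [hfin, hS2, hS, hQ, hQ2, hM0sq, hCsq]

end PD

end

end QC49
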