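import Pool.Agent.Lib.MP_49c203_an.B.Bq
import Pool.Agent.Lib.MP_49c203_an.B.Dd

/-! # row qc-De : THE POINTWISE LEMMA (paper section 3, end)

`qk_sum` : the `v_i` are orthonormal, `|⟪K v_i,v_i⟫| ≥ |k_i| - η` (`hKp`, `Kp_v`), `|qk (w+η) p i| = max 0 (|k_i| - (w+η)) ≤ max 0 (|⟪Kv_i,v_i⟫| - w)`; apply `hP`.
`final` : put `w1 = w+η ≥ 1000a`, `f = 1+FF` (`|FF| ≤ 10⁻⁶`).  For a unit vector `u`: `|K' u| ≤ |M w1 u|/f² + w1 + 8.5η/f²` (`Rem_final`) `≤ |M w1 u|/f² + w + 10η`.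
 Hence `max 0 (|K' u| - (w+10η))² ≤ (M w1 u/f²)²`, and `∑_b (M w1 u_b)² ≤ ‖Mt w1‖²` by `inner_Mt`, `tensor_bessel`.
 `‖Mt‖²/f⁴ ≤ [((1+2FF)²-1.35τg2)Φ+32S²]/f⁴ ≤ (1-1.3τ g2)Φ + 33S²` since `(1+2FF)² ≤ f⁴`, `f⁴ ≤ 1.03`, `f⁴ ≥ 32/33`;
 `1.3τ g2 ≥ (1.3/64) a (a³/10⁴)/2 ≥ a(a³/10⁴)/128` (`g2_ge`), `33 S² ≤ 132 (a³/10⁴)²` (`S_le`).
-/

set_option autoImplicit false

namespace QC49

noncomputable section

open scoped RealInnerProductSpace TensorProduct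

variable {H : Type*} [NormedAddCommGroup H] [InnerProductSpace ℝ H]

namespace PD

variable (D : PD H)

private theorem De_clip {w k : ℝ} (hw : 0 ≤ w) : (k - max (-w) (min w k)) ^ 2 = (max 0 (|k| - w)) ^ 2 := by
  rcases le_total k (-w) with h | h
  · have h1 : min w k = k := min_eq_right (by linarith)
    have h2 : max (-w) k = -w := max_eq_left h
    have h3 : |k| = -k := abs_of_nonpos (by linarith)
    have h4 : max 0 (|k| - w) = -k - w := by rw [h3]; exact max_eq_right (by linarith)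
    rw [h1, h2, h4]
    ring
  · rcases le_total k w with h' | h'
    · have h1 : min w k = k := min_eq_right h'
      have h2 : max (-w) k = k := max_eq_right h
      have h3 : |k| ≤ w := abs_le.2 ⟨h, h'⟩
      have h4 : max 0 (|k| - w) = 0 := max_eq_left (by linarith)
      rw [h1, h2, h4]
      ring
    · have h1 : min w k = w := min_eq_left h'
      have h2 : max (-w) w = w := max_eq_right (by linarith)
      have h3 : |k| = k := abs_of_nonneg (by linarith)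
      have h4 : max 0 (|k| - w) = k - w := by rw [h3]; exact max_eq_right (by linarith)
      rw [h1, h2, h4]

theorem qk_sum {w Φ : ℝ} (hw : 0 ≤ w) (hP : Pot (qf D.K) w Φ) {p : ℕ} (hp : p ∈ D.J) :
    ∑ i, D.qk (w + D.η) p i ^ 2 ≤ Φ := by
  refine le_trans (Finset.sum_le_sum fun i _ => ?_) (hP _ _ (D.hv p hp))
  unfold qk rk
  rw [De_clip (by have := D.hη; linarith)]
  have hv1 : ‖(D.X p).v i‖ = 1 := (D.hv p hp).1 i
  have h1 : |(D.X p).k i| ≤ |qf D.K ((D.X p).v i)| + D.η := by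
    have h2 := D.hKp p hp ((D.X p).v i)
    rw [D.Kp_v hp, hv1, mul_one] at h2
    have h3 : ⟪D.K ((D.X p).v i) - (D.X p).k i • (D.X p).v i, (D.X p).v i⟫
        = qf D.K ((D.X p).v i) - (D.X p).k i := by
      rw [inner_sub_left, real_inner_smul_left, real_inner_self_eq_norm_sq, hv1]
      unfold qf
      ring
    have h4 : |qf D.K ((D.X p).v i) - (D.X p).k i| ≤ D.η := by
      rw [← h3]
      refine (abs_real_inner_le_norm _ _).trans ?_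
      rw [hv1, mul_one]
      exact h2
    have h5 : |(D.X p).k i| ≤ |qf D.K ((D.X p).v i)|
        + |qf D.K ((D.X p).v i) - (D.X p).k i| := by
      have h6 := abs_sub_abs_le_abs_sub ((D.X p).k i) (qf D.K ((D.X p).v i))
      rw [abs_sub_comm] at h6
      linarith
    linarith
  have h7 : max 0 (|(D.X p).k i| - (w + D.η)) ≤ max 0 (|qf D.K ((D.X p).v i)| - w) :=
    max_le_max le_rfl (by linarith)
  exact pow_le_pow_left₀ (le_max_left _ _) h7 2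

theorem pointwise {w Φ : ℝ} (hw : 1000 * D.a ≤ w) (hP : Pot (qf D.K) w Φ) :
    Pot D.K' (w + 10 * D.η)
      ((1 - D.a * (D.a ^ 3 / 10 ^ 4) / 128) * Φ + 132 * (D.a ^ 3 / 10 ^ 4) ^ 2) := by
  have ha := D.ha
  have hη := D.hη
  have hw0 : 0 ≤ w := le_trans (by positivity) hw
  have hw1 : 1000 * D.a ≤ w + D.η := by linarith
  have hΦ0 : 0 ≤ Φ := hP.nonneg
  have hΦ : ∀ p ∈ D.J, ∑ i, D.qk (w + D.η) p i ^ 2 ≤ Φ := fun p hp => D.qk_sum hw0 hP hp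
  have hMt := D.Mt_sq hw1 hΦ0 hΦ
  obtain ⟨F, hF⟩ : ∃ F, F = D.FF := ⟨_, rfl⟩
  rw [← hF] at hMt
  have hFs : |F| ≤ 1 / 10 ^ 6 := by rw [hF]; exact D.FF_small
  have hFa := abs_le.1 hFs
  have hf : 0 < 1 + F := by linarith [hFa.1]
  have hf2lo : 99 / 100 ≤ (1 + F) ^ 2 := by nlinarith [hFa.1, hFa.2]
  have hf2hi : (1 + F) ^ 2 ≤ 101 / 100 := by nlinarith [hFa.1, hFa.2]
  have hf2 : 0 < (1 + F) ^ 2 := by positivity
  have hf4 : 0 < ((1 + F) ^ 2) ^ 2 := by positivity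
  intro m u hu
  have hterm : ∀ b, (max 0 (|D.K' (u b)| - (w + 10 * D.η))) ^ 2
      ≤ ⟪u b ⊗ₜ[ℝ] u b, D.Mt (w + D.η)⟫ ^ 2 / ((1 + F) ^ 2) ^ 2 := by
    intro b
    have hub : ‖u b‖ = 1 := hu.1 b
    have h1 := D.Rem_final hw1 (u b)
    rw [← hF, hub, one_pow, mul_one, mul_one] at h1
    have h2 : (1 + F) ^ 2 * |D.K' (u b)| ≤ |D.M (w + D.η) (u b)|
        + ((1 + F) ^ 2 * (w + D.η) + 85 / 10 * D.η) := by
      have h3 : (1 + F) ^ 2 * |D.K' (u b)| = |(1 + F) ^ 2 * D.K' (u b)| := by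
        rw [abs_mul, abs_of_pos hf2]
      have h4 := abs_sub_abs_le_abs_sub ((1 + F) ^ 2 * D.K' (u b)) (D.M (w + D.η) (u b))
      rw [h3]
      linarith
    have h5 : |D.K' (u b)| - (w + 10 * D.η) ≤ |D.M (w + D.η) (u b)| / (1 + F) ^ 2 := by
      rw [le_div_iff₀ hf2]
      nlinarith
    have h6 : max 0 (|D.K' (u b)| - (w + 10 * D.η)) ≤ |D.M (w + D.η) (u b)| / (1 + F) ^ 2 :=
      max_le (by positivity) h5
    have h7 := pow_le_pow_left₀ (le_max_left 0 (|D.K' (u b)| - (w + 10 * D.η))) h6 2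
    rw [D.inner_Mt]
    rw [div_pow, sq_abs] at h7
    exact h7
  have hsum : ∑ b, (max 0 (|D.K' (u b)| - (w + 10 * D.η))) ^ 2
      ≤ ‖D.Mt (w + D.η)‖ ^ 2 / ((1 + F) ^ 2) ^ 2 := by
    refine (Finset.sum_le_sum fun b _ => hterm b).trans ?_
    rw [← Finset.sum_div]
    exact div_le_div_of_nonneg_right (tensor_bessel u hu _) hf4.le
  refine hsum.trans ?_
  rw [div_le_iff₀ hf4]
  refine hMt.trans ?_
  -- numbers
  have hg := D.g2_ge
  have hS0 := D.S_pos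
  have hSle := D.S_le
  have ha3 := D.a3_pos
  obtain ⟨σ, hσ⟩ : ∃ σ, σ = D.a ^ 3 / 10 ^ 4 := ⟨_, rfl⟩
  rw [← hσ] at hg hSle ⊢
  have hσ0 : 0 < σ := by rw [hσ]; positivity
  have hS2 : D.S ^ 2 ≤ 4 * σ ^ 2 := by nlinarith
  obtain ⟨t, ht⟩ : ∃ t, t = (1 + F) ^ 2 := ⟨_, rfl⟩
  have hF2 : (1 + 2 * F) ^ 2 ≤ t ^ 2 := by
    have h1 : 1 + 2 * F ≤ t := by rw [ht]; nlinarith [sq_nonneg F]
    exact pow_le_pow_left₀ (by linarith [hFa.1]) h1 2
  rw [← ht] at hf2lo hf2hi ⊢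
  have ht2lo : 98 / 100 ≤ t ^ 2 := by nlinarith
  have ht2hi : t ^ 2 ≤ 103 / 100 := by nlinarith
  have h1 : ((1 + 2 * F) ^ 2 - 135 / 100 * tau * D.g2) * Φ
      ≤ (1 - D.a * σ / 128) * t ^ 2 * Φ := by
    refine mul_le_mul_of_nonneg_right ?_ hΦ0
    rw [tau_eq]
    have h2 : D.a * σ / 128 * t ^ 2 ≤ D.a * σ / 128 * (103 / 100) :=
      mul_le_mul_of_nonneg_left ht2hi (by positivity)
    nlinarith
  have h3 : 32 * D.S ^ 2 ≤ 132 * σ ^ 2 * t ^ 2 := by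
    have h4 : 132 * σ ^ 2 * (98 / 100) ≤ 132 * σ ^ 2 * t ^ 2 :=
      mul_le_mul_of_nonneg_left ht2lo (by positivity)
    nlinarith
  calc ((1 + 2 * F) ^ 2 - 135 / 100 * tau * D.g2) * Φ + 32 * D.S ^ 2
      ≤ (1 - D.a * σ / 128) * t ^ 2 * Φ + 132 * σ ^ 2 * t ^ 2 := add_le_add h1 h3
    _ = ((1 - D.a * σ / 128) * Φ + 132 * σ ^ 2) * t ^ 2 := by ring

end PD

end

end QC49
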