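import Pool.Agent.Lib.MP_49c203_an.B.Tb

/-! # row qc-Pc : compact self adjoint operators have finite potential at every level `w > 0`

Proof.  `K` compact, so the image of the unit ball is totally bounded: there is a finite set `s` of `H` with
`closure-free` statement: for every `u` with `‖u‖ ≤ 1` there is `x ∈ s` with `‖K u - x‖ ≤ w`.  Let `V = span s` (finite dimensional),
`P` = orthogonal projection on `V` (`V.starProjection`; `V` is finite dimensional so `HasOrthogonalProjection`).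
Then `‖K u - P (K u)‖ ≤ ‖K u - x‖ ≤ w` for `‖u‖ ≤ 1`, hence `‖K u - P K u‖ ≤ w ‖u‖`.
So for a unit vector `u`: `|⟪K u, u⟫| - w ≤ |⟪P K u, u⟫|`.
With an orthonormal basis `f_1..f_N` of `V` (`stdOrthonormalBasis`), `⟪P K u, u⟫ = ∑_j ⟪f_j, K u⟫ ⟪f_j, u⟫ = ∑_j ⟪K f_j, u⟫⟪f_j,u⟫`
(`K` symmetric) `= ⟪u ⊗ u, M⟫` with `M = ∑_j (K f_j) ⊗ f_j`.  By `tensor_bessel`: `∑_b (max 0 (|⟪K u_b,u_b⟫| - w))² ≤ ‖M‖²`.  Take `Φ = ‖M‖²`.
(`H` may be assumed complete if convenient; we only use it for `H = HH`.)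
-/

set_option autoImplicit false

namespace QC49

noncomputable section

open scoped RealInnerProductSpace TensorProduct

variable {H : Type*} [NormedAddCommGroup H] [InnerProductSpace ℝ H] [CompleteSpace H]

theorem pot_of_compact {K : H →L[ℝ] H} (hKc : IsCompactOperator K)
    (hK : ∀ u v, ⟪K u, v⟫ = ⟪u, K v⟫) {w : ℝ} (hw : 0 < w) :
    ∃ Φ : ℝ, 0 ≤ Φ ∧ Pot (qf K) w Φ := by
  classical
  have htb : TotallyBounded (K '' Metric.closedBall (0 : H) 1) := by
    obtain ⟨C, hC, hsub⟩ := IsCompactOperator.image_closedBall_subset_compact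
      (𝕜₁ := ℝ) (f := (K : H →ₗ[ℝ] H)) hKc 1
    exact hC.totallyBounded.subset hsub
  obtain ⟨t, ht, hcov⟩ := Metric.totallyBounded_iff.1 htb w hw
  let V : Submodule ℝ H := Submodule.span ℝ t
  have : FiniteDimensional ℝ V := FiniteDimensional.span_of_finite ℝ ht
  let f := stdOrthonormalBasis ℝ V
  let M : H ⊗[ℝ] H := ∑ j, K (f j : H) ⊗ₜ[ℝ] (f j : H)
  refine ⟨‖M‖ ^ 2, by positivity, ?_⟩
  intro m u hu
  refine le_trans (Finset.sum_le_sum fun b _ => ?_) (tensor_bessel u hu M)
  have hn : ‖u b‖ = 1 := hu.1 b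
  have h1 : ‖K (u b) - V.starProjection (K (u b))‖ ≤ w := by
    have hmem : K (u b) ∈ K '' Metric.closedBall (0 : H) 1 := ⟨u b, by simp [hn], rfl⟩
    obtain ⟨x, hx, hxb⟩ := Set.mem_iUnion₂.1 (hcov hmem)
    rw [Submodule.starProjection_minimal]
    refine le_trans (ciInf_le ⟨0, ?_⟩ (⟨x, Submodule.subset_span hx⟩ : V)) ?_
    · rintro _ ⟨y, rfl⟩
      positivity
    · rw [← dist_eq_norm]
      exact (Metric.mem_ball.1 hxb).le
  have h2 : ⟪V.starProjection (K (u b)), u b⟫ = ⟪u b ⊗ₜ[ℝ] u b, M⟫ := by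
    have e1 : V.starProjection (K (u b)) = ∑ j, ⟪(f j : H), K (u b)⟫ • (f j : H) := by
      have e0 := f.sum_repr (V.orthogonalProjectionOnto (K (u b)))
      rw [Submodule.starProjection_apply, ← e0]
      rw [Submodule.coe_sum]
      refine Finset.sum_congr rfl fun j _ => ?_
      rw [Submodule.coe_smul, OrthonormalBasis.repr_apply_apply]
      congr 1
      exact Submodule.inner_orthogonalProjectionOnto_eq_of_mem_left (f j) (K (u b))
    rw [e1, sum_inner, inner_sum]
    refine Finset.sum_congr rfl fun j _ => ?_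
    rw [TensorProduct.inner_tmul, real_inner_smul_left, ← hK, real_inner_comm (u b) (K (f j)),
      real_inner_comm (u b) (f j : H)]
  have h3 : |⟪K (u b), u b⟫| ≤ |⟪V.starProjection (K (u b)), u b⟫| + w := by
    have h4 : ⟪K (u b), u b⟫ = ⟪V.starProjection (K (u b)), u b⟫
        + ⟪K (u b) - V.starProjection (K (u b)), u b⟫ := by
      rw [← inner_add_left]
      congr 1
      abel
    rw [h4]
    refine (abs_add_le _ _).trans ?_
    gcongr
    refine (abs_real_inner_le_norm _ _).trans ?_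
    rw [hn, mul_one]
    exact h1
  rw [← h2, ← sq_abs ⟪V.starProjection (K (u b)), u b⟫]
  refine pow_le_pow_left₀ (le_max_left _ _) ?_ 2
  refine max_le (abs_nonneg _) ?_
  unfold qf
  linarith

end

end QC49
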