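import Pool.Agent.Lib.MP_49c203_an.Basic

/-! # row qc-Sg : sums over sign vectors

`sum_sg_sg` : flip the sign at `i` (`Equiv` on `Fin n → Bool`, `Function.update c i (!c i)`), or write the sum as a
product `∏` over coordinates (`Finset.prod_univ_sum` / `Fintype.piFinset`), or induct on `n` with `Fin.consEquiv`.
`sum_sg4` : for `i ≠ j`, `k ≠ l` the product `sg (c i) sg (c j) sg (c k) sg (c l)` sums to `2^n` if `{i,j} = {k,l}` and to `0`
otherwise: if some index occurs an odd number of times, flip it.  (General helper: if `s` is a finset of indices, then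
`∑ c, ∏ i ∈ s, sg (c i) = if s = ∅ then 2^n else 0`; the four sign products reduce to the symmetric difference.)
`sum_sg_col` : expand the square, `sum_sg_sg`.
`sum_sg_row` : with `A i = ∑ c, sg (c i) * w c`: `∑ A_i^2 = ∑ c, w c * (∑ i, sg (c i) * A i)
  ≤ √(∑ w²) √(∑ c, (∑ i, sg (c i) A i)^2) = √(∑ w²) √(2^n ∑ A²)` (Cauchy-Schwarz `Finset.sum_mul_sq_le_sq_mul_sq` or
  `Finset.inner_mul_le_norm_mul_norm`) then divide.
`sign_bessel` : `X i j := avg (fun c => sg (c i) * sg (c j) * t c)` for `i ≠ j`, `0` on the diagonal; `Yc := ∑ i, ∑ j, X i j * sg (c i) * sg (c j)`.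
  `avg (t * Y) = ∑ X²`, `avg (Y²) = 2 ∑ X²` (by `sum_sg4` and `X` symmetric), Cauchy-Schwarz `(avg (tY))² ≤ avg (t²) avg (Y²)`.
-/

set_option autoImplicit false

namespace QC49

noncomputable section

theorem Sg_aux_not (b : Bool) : sg (!b) = - sg b := by cases b <;> simp [sg]

theorem Sg_aux_flip {n : ℕ} (i : Fin n) (f : (Fin n → Bool) → ℝ)
    (hf : ∀ c, f (Function.update c i (!(c i))) = - f c) : ∑ c, f c = 0 := by
  have hinv : Function.Involutive (fun c : Fin n → Bool => Function.update c i (!(c i))) := by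
    intro c
    funext m
    by_cases hm : m = i
    · subst hm; simp
    · simp [Function.update_of_ne hm]
  have h1 : ∑ c, f (hinv.toPerm _ c) = ∑ c, f c := Equiv.sum_comp (hinv.toPerm _) f
  have h2 : ∑ c, f (hinv.toPerm _ c) = - ∑ c, f c := by
    rw [← Finset.sum_neg_distrib]
    exact Finset.sum_congr rfl (fun c _ => hf c)
  linarith

theorem Sg_aux_upd {n : ℕ} (i m : Fin n) (c : Fin n → Bool) :
    sg (Function.update c i (!(c i)) m) = if m = i then - sg (c m) else sg (c m) := by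
  by_cases hm : m = i
  · subst hm; simp [Sg_aux_not]
  · simp [hm]

theorem Sg_aux_card (n : ℕ) : ∑ _c : Fin n → Bool, (1 : ℝ) = 2 ^ n := by
  simp

theorem sum_sg_sg {n : ℕ} (i j : Fin n) :
    ∑ c : Fin n → Bool, sg (c i) * sg (c j) = if i = j then 2 ^ n else 0 := by
  by_cases h : i = j
  · subst h
    rw [if_pos rfl, ← Sg_aux_card n]
    exact Finset.sum_congr rfl (fun c _ => sg_sq _)
  · rw [if_neg h]
    apply Sg_aux_flip i
    intro c
    rw [Sg_aux_upd, Sg_aux_upd, if_pos rfl, if_neg (Ne.symm h)]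
    ring

theorem sum_sg4 {n : ℕ} (i j k l : Fin n) (hij : i ≠ j) (hkl : k ≠ l) :
    ∑ c : Fin n → Bool, sg (c i) * sg (c j) * (sg (c k) * sg (c l))
      = if (i = k ∧ j = l) ∨ (i = l ∧ j = k) then 2 ^ n else 0 := by
  have hs : ∀ c : Fin n → Bool, ∀ m, sg (c m) ^ 2 = 1 := fun c m => by rw [sq]; exact sg_sq _
  by_cases h : (i = k ∧ j = l) ∨ (i = l ∧ j = k)
  · rw [if_pos h, ← Sg_aux_card n]
    apply Finset.sum_congr rfl
    intro c _
    rcases h with ⟨h1, h2⟩ | ⟨h1, h2⟩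
    · subst h1; subst h2
      linear_combination (sg (c j)) ^ 2 * hs c i + hs c j
    · subst h1; subst h2
      linear_combination (sg (c j)) ^ 2 * hs c i + hs c j
  · rw [if_neg h]
    push Not at h
    by_cases h1 : i = k
    · have hjl : l ≠ j := fun h2 => h.1 h1 h2.symm
      have hjk : k ≠ j := by rw [← h1]; exact hij
      apply Sg_aux_flip j
      intro c
      rw [Sg_aux_upd, Sg_aux_upd, Sg_aux_upd, Sg_aux_upd, if_neg hij, if_pos rfl, if_neg hjk,
        if_neg hjl]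
      ring
    · by_cases h2 : i = l
      · have hjk : k ≠ j := fun h3 => h.2 h2 h3.symm
        have hjl : l ≠ j := by rw [← h2]; exact hij
        apply Sg_aux_flip j
        intro c
        rw [Sg_aux_upd, Sg_aux_upd, Sg_aux_upd, Sg_aux_upd, if_neg hij, if_pos rfl, if_neg hjk,
          if_neg hjl]
        ring
      · apply Sg_aux_flip i
        intro c
        rw [Sg_aux_upd, Sg_aux_upd, Sg_aux_upd, Sg_aux_upd, if_pos rfl, if_neg (Ne.symm hij),
          if_neg (Ne.symm h1), if_neg (Ne.symm h2)]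
        ring

/-- `∑_c (∑_i c_i y_i)² = 2^n ∑ y_i²` -/
theorem sum_sg_col {n : ℕ} (y : Fin n → ℝ) :
    ∑ c : Fin n → Bool, (∑ i, sg (c i) * y i) ^ 2 = 2 ^ n * ∑ i, y i ^ 2 := by
  have h1 : ∀ c : Fin n → Bool, (∑ i, sg (c i) * y i) ^ 2
      = ∑ i, ∑ j, y i * y j * (sg (c i) * sg (c j)) := by
    intro c
    rw [sq, Finset.sum_mul_sum]
    exact Finset.sum_congr rfl (fun i _ => Finset.sum_congr rfl (fun j _ => by ring))
  rw [Finset.sum_congr rfl (fun c _ => h1 c), Finset.sum_comm, Finset.mul_sum]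
  apply Finset.sum_congr rfl
  intro i _
  rw [Finset.sum_comm]
  have h2 : ∀ j, ∑ c : Fin n → Bool, y i * y j * (sg (c i) * sg (c j))
      = if i = j then 2 ^ n * y i ^ 2 else 0 := by
    intro j
    rw [← Finset.mul_sum, sum_sg_sg]
    by_cases h : i = j
    · subst h
      rw [if_pos rfl, if_pos rfl]; ring
    · rw [if_neg h, if_neg h, mul_zero]
  rw [Finset.sum_congr rfl (fun j _ => h2 j)]
  simp

/-- `∑_i (∑_c c_i w_c)² ≤ 2^n ∑ w_c²` -/
theorem sum_sg_row {n : ℕ} (w : (Fin n → Bool) → ℝ) :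
    ∑ i, (∑ c : Fin n → Bool, sg (c i) * w c) ^ 2 ≤ 2 ^ n * ∑ c, w c ^ 2 := by
  obtain ⟨A, hA⟩ : ∃ A : Fin n → ℝ, ∀ i, A i = ∑ c : Fin n → Bool, sg (c i) * w c :=
    ⟨_, fun _ => rfl⟩
  have h0 : ∑ i, (∑ c : Fin n → Bool, sg (c i) * w c) ^ 2 = ∑ i, A i ^ 2 :=
    Finset.sum_congr rfl (fun i _ => by rw [hA])
  rw [h0]
  have h1 : ∑ i, A i ^ 2 = ∑ c : Fin n → Bool, w c * ∑ i, sg (c i) * A i := by
    have h2 : ∀ i, A i ^ 2 = ∑ c : Fin n → Bool, w c * (sg (c i) * A i) := by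
      intro i
      rw [sq]
      nth_rw 1 [hA i]
      rw [Finset.sum_mul]
      exact Finset.sum_congr rfl (fun c _ => by ring)
    rw [Finset.sum_congr rfl (fun i _ => h2 i), Finset.sum_comm]
    exact Finset.sum_congr rfl (fun c _ => by rw [Finset.mul_sum])
  have h3 := Finset.sum_mul_sq_le_sq_mul_sq Finset.univ w
    (fun c : Fin n → Bool => ∑ i, sg (c i) * A i)
  rw [← h1, sum_sg_col] at h3
  have hT : 0 ≤ ∑ i, A i ^ 2 := Finset.sum_nonneg (fun i _ => sq_nonneg _)
  have hW : 0 ≤ ∑ c, w c ^ 2 := Finset.sum_nonneg (fun i _ => sq_nonneg _)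
  rcases hT.eq_or_lt with h4 | h4
  · rw [← h4]; positivity
  · have h5 : (∑ i, A i ^ 2) * (∑ i, A i ^ 2)
        ≤ (2 ^ n * ∑ c, w c ^ 2) * (∑ i, A i ^ 2) := by
      calc (∑ i, A i ^ 2) * (∑ i, A i ^ 2) = (∑ i, A i ^ 2) ^ 2 := by ring
        _ ≤ (∑ c, w c ^ 2) * (2 ^ n * ∑ i, A i ^ 2) := h3
        _ = _ := by ring
    exact le_of_mul_le_mul_right h5 h4

theorem Sg_aux_pair {n : ℕ} (X : Fin n × Fin n → ℝ) (hd : ∀ p, p.1 = p.2 → X p = 0)
    (hsym : ∀ p, X p.swap = X p) :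
    ∑ c : Fin n → Bool, (∑ p, X p * (sg (c p.1) * sg (c p.2))) ^ 2
      = 2 * 2 ^ n * ∑ p, X p ^ 2 := by
  have h1 : ∀ c : Fin n → Bool, (∑ p, X p * (sg (c p.1) * sg (c p.2))) ^ 2
      = ∑ p, ∑ q, X p * X q * (sg (c p.1) * sg (c p.2) * (sg (c q.1) * sg (c q.2))) := by
    intro c
    rw [sq, Finset.sum_mul_sum]
    exact Finset.sum_congr rfl (fun i _ => Finset.sum_congr rfl (fun j _ => by ring))
  rw [Finset.sum_congr rfl (fun c _ => h1 c), Finset.sum_comm, Finset.mul_sum]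
  apply Finset.sum_congr rfl
  intro p _
  rw [Finset.sum_comm]
  have h2 : ∀ q, ∑ c : Fin n → Bool,
      X p * X q * (sg (c p.1) * sg (c p.2) * (sg (c q.1) * sg (c q.2)))
      = (if q = p then 2 ^ n * X p * X p else 0) + (if q = p.swap then 2 ^ n * X p * X p else 0) := by
    intro q
    rw [← Finset.mul_sum]
    by_cases hp : p.1 = p.2
    · rw [hd p hp]; simp
    · by_cases hq : q.1 = q.2
      · rw [hd q hq]
        have e1 : q ≠ p := fun h => hp (by rw [← h]; exact hq)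
        have e2 : q ≠ p.swap := fun h => hp (by
          have := hq; rw [h] at this; exact this.symm)
        rw [if_neg e1, if_neg e2]; ring
      · rw [sum_sg4 _ _ _ _ hp hq]
        by_cases e1 : q = p
        · have e2 : q ≠ p.swap := by
            intro h
            have h3 : p.1 = p.swap.1 := by rw [← h, e1]
            exact hp h3
          rw [if_pos e1, if_neg e2, e1, if_pos (Or.inl ⟨rfl, rfl⟩)]; ring
        · by_cases e2 : q = p.swap
          · rw [if_neg e1, if_pos e2, e2, if_pos (Or.inr ⟨rfl, rfl⟩), hsym]; ring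
          · have e3 : ¬ ((p.1 = q.1 ∧ p.2 = q.2) ∨ (p.1 = q.2 ∧ p.2 = q.1)) := by
              rintro (⟨h3, h4⟩ | ⟨h3, h4⟩)
              · exact e1 (Prod.ext h3.symm h4.symm)
              · exact e2 (Prod.ext h4.symm h3.symm)
            rw [if_neg e1, if_neg e2, if_neg e3]; ring
  rw [Finset.sum_congr rfl (fun q _ => h2 q), Finset.sum_add_distrib]
  simp
  ring

theorem sign_bessel {n : ℕ} (t : (Fin n → Bool) → ℝ) :
    ∑ i : Fin n, ∑ j : Fin n, (if i = j then 0 else avg (fun c => sg (c i) * sg (c j) * t c) ^ 2)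
      ≤ 2 * avg (fun c => t c ^ 2) := by
  obtain ⟨X, hX⟩ : ∃ X : Fin n × Fin n → ℝ, ∀ p, X p =
      if p.1 = p.2 then 0 else avg (fun c => sg (c p.1) * sg (c p.2) * t c) := ⟨_, fun _ => rfl⟩
  have hd : ∀ p, p.1 = p.2 → X p = 0 := fun p hp => by rw [hX, if_pos hp]
  have hsym : ∀ p, X p.swap = X p := by
    intro p
    rw [hX, hX]
    by_cases hp : p.1 = p.2
    · rw [if_pos hp, if_pos (show p.swap.1 = p.swap.2 from hp.symm)]
    · rw [if_neg hp, if_neg (show ¬ p.swap.1 = p.swap.2 from fun h => hp h.symm)]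
      unfold avg
      congr 1
      apply Finset.sum_congr rfl
      intro c _
      show sg (c p.2) * sg (c p.1) * t c = _
      ring
  have h0 : ∑ i : Fin n, ∑ j : Fin n,
      (if i = j then 0 else avg (fun c => sg (c i) * sg (c j) * t c) ^ 2) = ∑ p, X p ^ 2 := by
    rw [Fintype.sum_prod_type]
    apply Finset.sum_congr rfl
    intro i _
    apply Finset.sum_congr rfl
    intro j _
    rw [hX]
    by_cases h : i = j
    · rw [if_pos h, if_pos h]; norm_num
    · rw [if_neg h, if_neg h]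
  rw [h0]
  have hpair := Sg_aux_pair X hd hsym
  have h1 : ∑ c : Fin n → Bool, t c * (∑ p, X p * (sg (c p.1) * sg (c p.2)))
      = 2 ^ n * ∑ p, X p ^ 2 := by
    have e1 : ∀ c : Fin n → Bool, t c * (∑ p, X p * (sg (c p.1) * sg (c p.2)))
        = ∑ p, X p * (sg (c p.1) * sg (c p.2) * t c) := by
      intro c
      rw [Finset.mul_sum]
      exact Finset.sum_congr rfl (fun p _ => by ring)
    rw [Finset.sum_congr rfl (fun c _ => e1 c), Finset.sum_comm, Finset.mul_sum]
    apply Finset.sum_congr rfl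
    intro p _
    rw [← Finset.mul_sum]
    by_cases hp : p.1 = p.2
    · rw [hd p hp]; ring
    · have e2 : ∑ c : Fin n → Bool, sg (c p.1) * sg (c p.2) * t c = 2 ^ n * X p := by
        rw [hX, if_neg hp]
        unfold avg
        have : (2 : ℝ) ^ n ≠ 0 := by positivity
        field_simp
      rw [e2]; ring
  have h3 := Finset.sum_mul_sq_le_sq_mul_sq Finset.univ t
    (fun c : Fin n → Bool => ∑ p, X p * (sg (c p.1) * sg (c p.2)))
  rw [h1, hpair] at h3
  have hT : 0 ≤ ∑ p, X p ^ 2 := Finset.sum_nonneg (fun i _ => sq_nonneg _)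
  have hW : 0 ≤ ∑ c, t c ^ 2 := Finset.sum_nonneg (fun i _ => sq_nonneg _)
  have h2n : (0 : ℝ) < 2 ^ n := by positivity
  unfold avg
  rw [mul_div_assoc', le_div_iff₀ h2n]
  rcases hT.eq_or_lt with h4 | h4
  · rw [← h4]; nlinarith
  · have h5 : ((∑ p, X p ^ 2) * 2 ^ n) * (2 ^ n * ∑ p, X p ^ 2)
        ≤ (2 * ∑ c, t c ^ 2) * (2 ^ n * ∑ p, X p ^ 2) := by
      calc ((∑ p, X p ^ 2) * 2 ^ n) * (2 ^ n * ∑ p, X p ^ 2) = (2 ^ n * ∑ p, X p ^ 2) ^ 2 := by
            ring
        _ ≤ (∑ c, t c ^ 2) * (2 * 2 ^ n * ∑ p, X p ^ 2) := h3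
        _ = _ := by ring
    exact le_of_mul_le_mul_right h5 (by positivity)

end

end QC49
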